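import Pool.Agent.Lib.MP_1f96ff_gt.K.Norm

/- Closed walks that pass twice through a vertex of degree at most three. -/

set_option autoImplicit false

namespace Pool.Agent.Lib.MP_1f96ff_gt.K

open Classical

variable {V X : Type} {G : SimpleGraph V}

theorem headD_last_ne {l : List V} (hn : l.Nodup) (h2 : 2 ≤ l.length) (a : V) :
    l.headD a ≠ l.getLastD a ∧ l.headD a ∈ l ∧ l.getLastD a ∈ l := by
  rcases l with _ | ⟨p, _ | ⟨q, l⟩⟩
  · simp at h2
  · simp at h2
  · have hm : (q :: l).getLastD p ∈ q :: l := by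
      rw [List.getLastD_cons]
      exact List.getLastD_mem_cons
    refine ⟨?_, List.mem_cons_self, ?_⟩
    · rw [List.getLastD_cons]
      intro e
      exact (List.nodup_cons.1 hn).1 (by rw [List.headD_cons] at e; rw [e]; exact hm)
    · rw [List.getLastD_cons]
      exact List.mem_cons_of_mem _ hm

/-- A cycle given by the full list of its vertices. -/
def CycL (G : SimpleGraph V) (c : List V) : Prop := ∃ a l, c = a :: l ∧ Cyc G a l

theorem CycL.rot (U W : List V) (c : CycL G (U ++ W)) : CycL G (W ++ U) := by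
  induction U generalizing W with
  | nil => simpa using c
  | cons a U ih =>
    have : CycL G (U ++ (W ++ [a])) := by
      obtain ⟨a', l, e, c⟩ := c
      rw [List.cons_append, List.cons.injEq] at e
      obtain ⟨rfl, rfl⟩ := e
      rw [← List.append_assoc]
      cases hl : U ++ W with
      | nil =>
        have := c.2.1
        simp [hl] at this
      | cons b l =>
        rw [hl] at c
        exact ⟨b, l ++ [a], rfl, c.rot⟩
    simpa using ih _ this

theorem KS.midL (s : KS X G) {c : List V} (hc : CycL G c) (d : V) :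
    PV (tw s.h (c.getLastD d) c (c.headD d)) = 0 := by
  obtain ⟨a, l, rfl, c⟩ := hc
  rw [List.getLastD_cons]
  exact s.mid a l c

theorem getLastD_app (A : List V) (x : V) (C : List V) (d : V) :
    (A ++ x :: C).getLastD d = C.getLastD x := by
  induction A generalizing d with
  | nil => exact List.getLastD_cons
  | cons a A ih => rw [List.cons_append, List.getLastD_cons, ih]

theorem headD_app (A : List V) (x : V) (C : List V) (d : V) :
    (A ++ x :: C).headD d = A.headD x := by
  cases A <;> rfl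

theorem chain_cut {R : V → V → Prop} (p : V) (A : List V) (x : V) (C : List V) (q : V)
    (h : List.IsChain R (p :: ((A ++ x :: C) ++ [q]))) :
    List.IsChain R (p :: (A ++ [x])) ∧ List.IsChain R (x :: (C ++ [q])) := by
  have : p :: ((A ++ x :: C) ++ [q]) = (p :: A) ++ x :: (C ++ [q]) := by simp
  rw [this, List.isChain_split] at h
  exact h

theorem chain_join {R : V → V → Prop} (p : V) (A : List V) (x : V) (C : List V) (q : V)
    (h1 : List.IsChain R (p :: (A ++ [x]))) (h2 : List.IsChain R (x :: (C ++ [q]))) :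
    List.IsChain R (p :: ((A ++ x :: C) ++ [q])) := by
  have : p :: ((A ++ x :: C) ++ [q]) = (p :: A) ++ x :: (C ++ [q]) := by simp
  rw [this, List.isChain_split]
  exact ⟨h1, h2⟩

section
variable (s : KS X G) {x y y' t : V} (h0 : ∀ p, s.h x p = [])
  (hT : ∀ z, G.Adj x z → z ∈ [y, y', t])

include h0 in
theorem tw_x (p : V) (A C : List V) (q : V) :
    tw s.h p (A ++ x :: C) q = tw s.h p A x ++ tw s.h x C q := by
  rw [tw_append]
  simp [tw, tau, h0]

include hT in
theorem rm (B : List V) (a c : V) (hn : B.Nodup) (ch : List.IsChain G.Adj (x :: (B ++ [x])))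
    (ha : G.Adj x a) (hc : G.Adj x c) (hac : a ≠ c) (ha' : a ∉ B) (hc' : c ∉ B) :
    Eqv (tw s.h x B x) [] := by
  by_cases h2 : 2 ≤ B.length
  · exfalso
    obtain ⟨n1, m1, m2⟩ := headD_last_ne hn h2 x
    have a1 := hT _ (chain_head _ _ _ ch)
    have a2 := hT _ (chain_last _ _ _ ch).symm
    have a3 := hT _ ha
    have a4 := hT _ hc
    have n2 : B.headD x ≠ a := fun e => ha' (e ▸ m1)
    have n3 : B.headD x ≠ c := fun e => hc' (e ▸ m1)
    have n4 : B.getLastD x ≠ a := fun e => ha' (e ▸ m2)
    have n5 : B.getLastD x ≠ c := fun e => hc' (e ▸ m2)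
    generalize B.headD x = p at *
    generalize B.getLastD x = q at *
    simp only [List.mem_cons, List.not_mem_nil, or_false] at a1 a2 a3 a4
    grind
  · rcases B with _ | ⟨b, _ | ⟨b', B⟩⟩
    · exact Eqv.rfl' _
    · simpa [tw] using tau_self s.h x b
    · simp at h2

include h0 in
theorem W1 (A C : List V) (hn : (A ++ C).Nodup) (hx : x ∉ A ++ C)
    (ch : List.IsChain G.Adj (x :: ((C ++ A) ++ [x]))) :
    PV (tw s.h (C.getLastD x) A x ++ tw s.h x C (A.headD x)) = 0 := by
  by_cases h2 : 2 ≤ (C ++ A).length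
  · have c : CycL G ((x :: C) ++ A) := by
      refine ⟨x, C ++ A, rfl, List.nodup_cons.2 ⟨fun e => hx ?_, ?_⟩, h2, ch⟩
      · exact List.perm_append_comm.subset e
      · exact List.perm_append_comm.nodup_iff.1 hn
    have := s.midL (c.rot _ _) x
    rwa [getLastD_app, headD_app, tw_x s h0] at this
  · rcases A with _ | ⟨a, _ | ⟨a', A⟩⟩ <;> rcases C with _ | ⟨c, _ | ⟨c', C⟩⟩ <;>
      simp only [List.length_append, List.length_cons, List.length_nil] at h2 <;> (try omega)
    · rfl
    · have : PV (tau s.h x c x) = 0 := (tau_self s.h x c).pv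
      simpa [tw] using this
    · have : PV (tau s.h x a x) = 0 := (tau_self s.h x a).pv
      simpa [tw] using this

include h0 hT in
theorem W2 (A B C : List V) (hn : (A ++ C).Nodup) (hx : x ∉ A ++ C) (hB : B.Nodup) (hxB : x ∉ B)
    (hd : ∀ z ∈ A ++ C, z ∉ B) (ch : List.IsChain G.Adj (x :: ((C ++ A) ++ [x])))
    (chB : List.IsChain G.Adj (x :: (B ++ [x]))) :
    PV (tw s.h (C.getLastD x) A x ++ (tw s.h x B x ++ tw s.h x C (A.headD x))) = 0 := by
  by_cases h2 : 2 ≤ (C ++ A).length
  · obtain ⟨n1, m1, m2⟩ := headD_last_ne (List.perm_append_comm.nodup_iff.1 hn) h2 x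
    have := rm s hT B _ _ hB chB (chain_head _ _ _ ch) (chain_last _ _ _ ch).symm n1
      (hd _ (List.perm_append_comm.subset m1)) (hd _ (List.perm_append_comm.subset m2))
    rw [((Eqv.rfl' _).append (this.append (Eqv.rfl' _))).pv]
    exact W1 s h0 A C hn hx ch
  · have w := W1 s h0 [] B (by simpa using hB) (by simpa using hxB) (by simpa using chB)
    simp only [tw, List.nil_append, List.headD_nil] at w
    rcases A with _ | ⟨a, _ | ⟨a', A⟩⟩ <;> rcases C with _ | ⟨c, _ | ⟨c', C⟩⟩ <;>
      simp only [List.length_append, List.length_cons, List.length_nil] at h2 <;> (try omega)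
    · simpa [tw] using w
    · have := ((Eqv.rfl' (tw s.h x B x)).append (tau_self s.h x c)).pv
      rw [List.append_nil, w] at this
      simpa [tw] using this
    · have := ((tau_self s.h x a).append (Eqv.rfl' (tw s.h x B x))).pv
      rw [List.nil_append, w] at this
      simpa [tw] using this

include h0 hT in
theorem W3 (A C : List V) (hn : (A ++ C).Nodup)
    (ch : List.IsChain G.Adj (x :: ((C ++ A) ++ [x]))) :
    PV (tw s.h (C.getLastD x) A x ++ tw s.h x C (A.headD x)) = 0 := by
  by_cases hx : x ∈ A ++ C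
  swap
  · exact W1 s h0 A C hn hx ch
  rcases List.mem_append.1 hx with hx | hx
  · obtain ⟨A1, A2, rfl⟩ := List.append_of_mem hx
    rw [← List.append_assoc] at ch
    obtain ⟨c1, c2⟩ := chain_cut _ _ _ _ _ ch
    rw [tw_x s h0, headD_app, List.append_assoc]
    simp only [List.nodup_append, List.nodup_cons, List.mem_append, List.mem_cons] at hn
    refine W2 s h0 hT A1 A2 C ?_ ?_ hn.1.2.1.2 hn.1.2.1.1 ?_ c1 c2
    · rw [List.nodup_append]
      exact ⟨hn.1.1, hn.2.1, fun a ha b hb => hn.2.2 a (Or.inl ha) b hb⟩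
    · intro e
      rcases List.mem_append.1 e with e | e
      · exact hn.1.2.2 x e x (Or.inl rfl) rfl
      · exact hn.2.2 x (Or.inr (Or.inl rfl)) x e rfl
    · intro z hz e
      rcases List.mem_append.1 hz with hz | hz
      · exact hn.1.2.2 z hz z (Or.inr e) rfl
      · exact hn.2.2 z (Or.inr (Or.inr e)) z hz rfl
  · obtain ⟨C1, C2, rfl⟩ := List.append_of_mem hx
    have e : (C1 ++ x :: C2) ++ A = C1 ++ x :: (C2 ++ A) := by simp
    rw [e] at ch
    obtain ⟨c1, c2⟩ := chain_cut _ _ _ _ _ ch
    rw [tw_x s h0, getLastD_app]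
    simp only [List.nodup_append, List.nodup_cons, List.mem_append, List.mem_cons] at hn
    refine W2 s h0 hT A C1 C2 ?_ ?_ hn.2.1.1 (fun e => hn.2.1.2.2 x e x (Or.inl rfl) rfl) ?_ c2 c1
    · rw [List.nodup_append]
      exact ⟨hn.1, hn.2.1.2.1.2, fun a ha b hb => hn.2.2 a ha b (Or.inr (Or.inr hb))⟩
    · intro e
      rcases List.mem_append.1 e with e | e
      · exact hn.2.2 x e x (Or.inr (Or.inl rfl)) rfl
      · exact hn.2.1.2.1.1 e
    · intro z hz e
      rcases List.mem_append.1 hz with hz | hz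
      · exact hn.2.2 z hz z (Or.inl e) rfl
      · exact hn.2.1.2.2 z e z (Or.inr hz) rfl

variable {w : V} {T0 : List V} {k : V → List (X × Bool)} (hk : Med G s.h s.own w T0 k)

include h0 hk in
theorem M0 (A C : List V) (hn : (w :: (A ++ x :: C)).Nodup)
    (ch : List.IsChain G.Adj (w :: ((A ++ x :: C) ++ [w]))) (h1 : A.headD x ∈ T0)
    (h2 : C.getLastD x ∈ T0) (hne : A.headD x ≠ C.getLastD x) :
    PV (k (A.headD x) ++ ((tw s.h w A x ++ tw s.h x C w) ++ (k (C.getLastD x)).reverse)) = 0 := by
  have len : 2 ≤ (A ++ x :: C).length := by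
    rcases A with _ | ⟨a, A⟩ <;> rcases C with _ | ⟨c, C⟩
    · exact absurd rfl hne
    all_goals
      simp only [List.length_append, List.length_cons]
      omega
  have := hk.pv _ ⟨hn, len, ch⟩ (by rwa [headD_app]) (by rwa [getLastD_app])
  rwa [headD_app, getLastD_app, tw_x s h0] at this

theorem ends_ne (w : V) (A C : List V) (hn : (w :: (A ++ C)).Nodup) (h : ¬(A = [] ∧ C = [])) :
    A.getLastD w ≠ C.headD w := by
  have m : A.getLastD w ∈ w :: A := List.getLastD_mem_cons
  rw [← List.cons_append, List.nodup_append] at hn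
  cases C with
  | nil =>
    rcases List.eq_nil_or_concat A with rfl | ⟨A0, b, rfl⟩
    · exact absurd ⟨rfl, rfl⟩ h
    · rw [List.concat_eq_append] at *
      intro e
      have eb : (A0 ++ [b]).getLastD w = b := by simp
      rw [eb, List.headD_nil] at e
      exact (List.nodup_cons.1 hn.1).1 (by simp [e])
  | cons c C => exact hn.2.2 _ m c List.mem_cons_self

theorem headD_mem (C : List V) (w : V) : C.headD w ∈ w :: C := by
  cases C <;> simp

include h0 hT hk in
theorem M2 (A B C : List V) (hn : (w :: (A ++ x :: C)).Nodup) (hB : B.Nodup)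
    (hd : ∀ z ∈ w :: (A ++ C), z ∉ B)
    (c1 : List.IsChain G.Adj (w :: (A ++ [x]))) (c2 : List.IsChain G.Adj (x :: (B ++ [x])))
    (c3 : List.IsChain G.Adj (x :: (C ++ [w]))) (h1 : A.headD x ∈ T0)
    (h2 : C.getLastD x ∈ T0) (hne : A.headD x ≠ C.getLastD x) :
    PV (k (A.headD x) ++ ((tw s.h w A x ++ (tw s.h x B x ++ tw s.h x C w)) ++
      (k (C.getLastD x)).reverse)) = 0 := by
  have n0 : (w :: (A ++ C)).Nodup :=
    hn.sublist (((List.sublist_cons_self x C).append_left A).cons_cons w)
  have ne := ends_ne w A C n0 (by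
    rintro ⟨rfl, rfl⟩
    exact hne rfl)
  have m1 : A.getLastD w ∈ w :: (A ++ C) :=
    ((List.sublist_append_left A C).cons_cons w).subset List.getLastD_mem_cons
  have m2 : C.headD w ∈ w :: (A ++ C) :=
    ((List.sublist_append_right A C).cons_cons w).subset (headD_mem C w)
  have := rm s hT B _ _ hB c2 (chain_last _ _ _ c1).symm (chain_head _ _ _ c3) ne (hd _ m1)
    (hd _ m2)
  rw [((Eqv.rfl' _).append (((Eqv.rfl' _).append (this.append (Eqv.rfl' _))).append
    (Eqv.rfl' _))).pv]
  exact M0 s h0 hk A C hn (chain_join _ _ _ _ _ c1 c3) h1 h2 hne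

include h0 hT hk in
theorem M3 (hw : w ≠ x) (A C : List V) (hn : (w :: (A ++ C)).Nodup)
    (c1 : List.IsChain G.Adj (w :: (A ++ [x]))) (c3 : List.IsChain G.Adj (x :: (C ++ [w])))
    (h1 : A.headD x ∈ T0) (h2 : C.getLastD x ∈ T0) (hne : A.headD x ≠ C.getLastD x) :
    PV (k (A.headD x) ++ ((tw s.h w A x ++ tw s.h x C w) ++ (k (C.getLastD x)).reverse)) = 0 := by
  by_cases hx : x ∈ A ++ C
  swap
  · refine M0 s h0 hk A C ?_ (chain_join _ _ _ _ _ c1 c3) h1 h2 hne
    have : (w :: (A ++ x :: C)).Perm (x :: w :: (A ++ C)) :=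
      (List.perm_middle.cons w).trans (List.Perm.swap _ _ _)
    rw [this.nodup_iff, List.nodup_cons]
    refine ⟨fun e => ?_, hn⟩
    rcases List.mem_cons.1 e with e | e
    exacts [hw e.symm, hx e]
  rcases List.mem_append.1 hx with hx | hx
  · obtain ⟨A1, A2, rfl⟩ := List.append_of_mem hx
    obtain ⟨d1, d2⟩ := chain_cut _ _ _ _ _ c1
    rw [headD_app] at *
    rw [tw_x s h0, List.append_assoc (tw s.h w A1 x)]
    have pm : (w :: ((A1 ++ x :: A2) ++ C)).Perm ((w :: (A1 ++ x :: C)) ++ A2) := by
      simp only [List.cons_append, List.append_assoc]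
      exact ((List.perm_append_comm.cons x).append_left A1).cons w
    have hn' := List.nodup_append.1 (pm.nodup_iff.1 hn)
    refine M2 s h0 hT hk A1 A2 C hn'.1 hn'.2.1 ?_ d1 d2 c3 h1 h2 hne
    intro z hz e
    exact hn'.2.2 z ((((List.sublist_cons_self x C).append_left A1).cons_cons w).subset hz) z e rfl
  · obtain ⟨C1, C2, rfl⟩ := List.append_of_mem hx
    obtain ⟨d1, d2⟩ := chain_cut _ _ _ _ _ c3
    rw [getLastD_app] at *
    rw [tw_x s h0]
    have pm : (w :: (A ++ (C1 ++ x :: C2))).Perm ((w :: (A ++ x :: C2)) ++ C1) := by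
      simp only [List.cons_append, List.append_assoc]
      exact (List.perm_append_comm.append_left A).cons w
    have hn' := List.nodup_append.1 (pm.nodup_iff.1 hn)
    refine M2 s h0 hT hk A C1 C2 hn'.1 hn'.2.1 ?_ c1 d1 d2 h1 h2 hne
    intro z hz e
    exact hn'.2.2 z ((((List.sublist_cons_self x C2).append_left A).cons_cons w).subset hz) z e rfl

end

end Pool.Agent.Lib.MP_1f96ff_gt.K
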