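import Pool.Agent.Lib.MP_1f96ff_gt.K.AddE

/- Adding an edge between two neighbours of a vertex of degree at most three. -/

set_option autoImplicit false

namespace Pool.Agent.Lib.MP_1f96ff_gt.K

open Classical

variable {V X : Type} {G G' : SimpleGraph V}

def New (y y' a b : V) : Prop := (a = y ∧ b = y') ∨ (a = y' ∧ b = y)

theorem New.symm {y y' a b : V} (h : New y y' a b) : New y y' b a :=
  (Or.symm h).imp And.symm And.symm

noncomputable def rr (x y y' z p : V) : V := if New y y' z p then x else p

theorem medMid {h : V → V → List (X × Bool)} {own : X × Bool → V}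
    (ho : ∀ a b, ∀ l ∈ h a b, own l = a)
    (hm : ∀ a l, Cyc G a l → PV (tw h (l.getLastD a) (a :: l) a) = 0) (w p1 p2 : V) (T : List V)
    (e : h w p2 = h w p1) (hT : ∀ p ∈ T, ∀ q ∈ T, ¬(p = p1 ∨ p = p2) → ¬(q = p1 ∨ q = p2) → p = q) :
    ∃ k, Med G h own w T k := by
  have hh : ∀ p, p = p1 ∨ p = p2 → h w p = h w p1 := by
    rintro p (rfl | rfl)
    exacts [rfl, e]
  have ev : ∀ p q, Eqv ((if p = p1 ∨ p = p2 then [] else tau h p1 w p).reverse ++
      if q = p1 ∨ q = p2 then [] else tau h p1 w q) (tau h p w q) := by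
    intro p q
    split_ifs with e1 e2 e2
    · rw [tau, hh p e1, hh q e2]
      exact (eqv_rev' _).symm
    · apply Eqv.of_eq
      simp [tau, hh p e1]
    · apply Eqv.of_eq
      simp [tau, hh q e2]
    · rw [tau_rev]
      exact tau_tau _ _ _ _ _
  refine ⟨fun p => if p = p1 ∨ p = p2 then [] else tau h p1 w p, ?_, ?_, fun p _ q _ => ev p q, ?_⟩
  · intro p _ l hl
    split_ifs at hl
    · simp at hl
    · simp only [tau, List.mem_append, List.mem_reverse] at hl
      rcases hl with hl | hl <;> exact ho _ _ _ hl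
  · intro p hp q hq hne l hl hl'
    split_ifs at hl hl' with e1 e2 e2
    · simp at hl
    · simp at hl
    · simp at hl'
    · exact hne (hT p hp q hq e1 e2)
  · intro l c h1 h2
    have ev' := ev (l.getLastD w) (l.headD w)
    by_cases e2 : l.getLastD w = p1 ∨ l.getLastD w = p2
    · rw [← hm w l c]
      apply Eqv.pv
      rw [if_pos e2] at ev' ⊢
      simp only [tw, List.reverse_nil, List.append_nil, List.nil_append] at ev' ⊢
      exact ev'.append (Eqv.rfl' _)
    · have e1 : l.headD w = p1 ∨ l.headD w = p2 := by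
        by_contra e1
        exact c.ne.1 (hT _ h1 _ h2 e1 e2)
      cases l with
      | nil => simpa using c.2.1
      | cons b l =>
        have := hm _ _ c.rot
        rw [getLastD_app, List.getLastD_nil, ← List.cons_append, tw_append] at this
        rw [← this]
        apply Eqv.pv
        rw [if_pos e1] at ev' ⊢
        simp only [tw, List.append_nil, List.nil_append, List.headD_cons, List.headD_nil,
          List.append_assoc] at ev' ⊢
        exact (Eqv.rfl' _).append ((Eqv.rfl' _).append ev')

section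
variable {x y y' t : V} (hG : ∀ a b, G'.Adj a b → G.Adj a b ∨ New y y' a b)

include hG in
theorem noNew (c : List V) (ch : List.IsChain G'.Adj c) (hy : y ∉ c ∨ y' ∉ c) :
    List.IsChain G.Adj c := by
  induction c with
  | nil => exact List.isChain_nil
  | cons a c ih =>
    cases c with
    | nil => exact List.isChain_singleton _
    | cons b c =>
      rw [List.isChain_cons_cons] at ch ⊢
      refine ⟨(hG _ _ ch.1).resolve_right fun e => ?_, ih ch.2 (hy.imp
        (fun h e => h (List.mem_cons_of_mem _ e)) (fun h e => h (List.mem_cons_of_mem _ e)))⟩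
      rcases e with ⟨rfl, rfl⟩ | ⟨rfl, rfl⟩ <;> simp at hy

include hG in
theorem splitNew (c : List V) (ch : List.IsChain G'.Adj c) (hn : c.Nodup) :
    List.IsChain G.Adj c ∨ ∃ A a b C, c = (A ++ [a]) ++ b :: C ∧ New y y' a b ∧
      List.IsChain G.Adj (A ++ [a]) ∧ List.IsChain G.Adj (b :: C) := by
  induction c with
  | nil => exact Or.inl List.isChain_nil
  | cons a c ih =>
    cases c with
    | nil => exact Or.inl (List.isChain_singleton _)
    | cons b c =>
      rw [List.isChain_cons_cons] at ch
      rw [List.nodup_cons] at hn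
      rcases hG _ _ ch.1 with e | e
      · rcases ih ch.2 hn.2 with h | ⟨A, a', b', C, e1, e2, e3, e4⟩
        · exact Or.inl (List.isChain_cons_cons.2 ⟨e, h⟩)
        · refine Or.inr ⟨a :: A, a', b', C, by rw [e1]; rfl, e2, ?_, e4⟩
          cases A with
          | nil =>
            simp only [List.nil_append, List.cons_append, List.cons.injEq] at e1
            rw [← e1.1]
            simpa using e
          | cons z A =>
            simp only [List.cons_append, List.cons.injEq] at e1
            rw [List.cons_append, List.cons_append, List.isChain_cons_cons]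
            exact ⟨e1.1 ▸ e, e3⟩
      · refine Or.inr ⟨[], a, b, c, rfl, e, List.isChain_singleton _, noNew hG _ ch.2 ?_⟩
        rcases e with e | e
        · exact Or.inl (e.1 ▸ hn.1)
        · exact Or.inr (e.1 ▸ hn.1)

variable (s : KS X G) (h0 : ∀ p, s.h x p = []) (hT : ∀ z, G.Adj x z → z ∈ [y, y', t])
  (hy : G.Adj x y) (hy' : G.Adj x y') (hn : ¬G.Adj y y')

include hn in
theorem not_new {a b : V} (h : G.Adj a b) : ¬New y y' a b := by
  rintro (⟨rfl, rfl⟩ | ⟨rfl, rfl⟩)
  exacts [hn h, hn h.symm]

include hn in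
theorem rr_adj {a b : V} (h : G.Adj a b) : rr x y y' a b = b := if_neg (not_new hn h)

include hy hy' in
theorem new_adj {a b : V} (h : New y y' a b) : G.Adj x a ∧ G.Adj x b := by
  rcases h with ⟨rfl, rfl⟩ | ⟨rfl, rfl⟩
  exacts [⟨hy, hy'⟩, ⟨hy', hy⟩]

include hn in
theorem twG (p : V) (c : List V) (q : V) (ch : List.IsChain G.Adj c) :
    tw (fun a b => s.h a (rr x y y' a b)) p c q =
      tw s.h (rr x y y' (c.headD q) p) c (rr x y y' (c.getLastD p) q) := by
  induction c generalizing p with
  | nil => rfl
  | cons z c ih =>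
    cases c with
    | nil => rfl
    | cons z' c =>
      rw [List.isChain_cons_cons] at ch
      have := ih z ch.2
      rw [List.headD_cons, rr_adj hn ch.1.symm] at this
      rw [tw, this, List.headD_cons, List.headD_cons, List.getLastD_cons (a := p)]
      conv_rhs => rw [tw]
      simp only [tau, List.headD_cons, rr_adj hn ch.1]

theorem chain_both {R : V → V → Prop} (p : V) (c : List V) (q : V) (hc : c ≠ [])
    (ch : List.IsChain R c) (h1 : R p (c.headD q)) (h2 : R (c.getLastD p) q) :
    List.IsChain R (p :: (c ++ [q])) := by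
  induction c generalizing p with
  | nil => exact absurd rfl hc
  | cons z c ih =>
    rw [List.cons_append, List.isChain_cons_cons]
    refine ⟨h1, ?_⟩
    rw [List.getLastD_cons] at h2
    cases c with
    | nil => simpa using h2
    | cons z' c =>
      rw [List.isChain_cons_cons] at ch
      exact ih z (by simp) ch.2 ch.1 h2

theorem chain_in {R : V → V → Prop} (p : V) (c : List V) (q : V)
    (ch : List.IsChain R (p :: (c ++ [q]))) : List.IsChain R c :=
  ch.tail.left_of_append

include hG h0 hT hy hy' hn in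
theorem add_mid (a : V) (l : List V) (c : Cyc G' a l) :
    PV (tw (fun a b => s.h a (rr x y y' a b)) (l.getLastD a) (a :: l) a) = 0 := by
  have aL := chain_last _ _ _ c.2.2
  rcases splitNew hG (a :: l) (chain_in _ _ _ c.chain') c.1 with h | ⟨A, a1, b1, C, e, n, c1, c2⟩
  · rw [twG s hn _ _ _ h, List.headD_cons, List.getLastD_cons]
    rcases hG _ _ aL with e | e
    · rw [rr_adj hn e, rr_adj hn e.symm]
      refine s.mid a l ⟨c.1, c.2.1, ?_⟩
      have := chain_both (l.getLastD a) (a :: l) a (by simp) h e (by rwa [List.getLastD_cons])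
      exact this.tail
    · rw [rr, rr, if_pos e, if_pos e.symm]
      have := W3 s h0 hT [] (a :: l) c.1 (by
        rw [List.append_nil]
        exact chain_both x (a :: l) x (by simp) h (new_adj hy hy' e).2
          (by rw [List.getLastD_cons]; exact (new_adj hy hy' e).1.symm))
      exact this
  · have eL : l.getLastD a = (b1 :: C).getLastD x := by
      rw [← List.getLastD_cons (a := x), e, getLastD_app, List.getLastD_cons]
    have eH : a = (A ++ [a1]).headD x := by
      have : (a :: l).headD x = a := rfl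
      rw [← this, e, List.append_assoc, List.singleton_append, headD_app, headD_app]
    have nd := c.1
    rw [e] at nd
    have aG : G.Adj (l.getLastD a) a := by
      refine (hG _ _ aL).resolve_right fun n' => ?_
      have m1 : l.getLastD a ∈ b1 :: C := by
        rw [eL, List.getLastD_cons]
        exact List.getLastD_mem_cons
      have m2 : a ∈ A ++ [a1] := by
        rw [eH]
        cases A <;> simp
      have nd' := List.nodup_append.1 nd
      have q1 : l.getLastD a ≠ a1 := fun e => nd'.2.2 a1 (by simp) _ m1 e.symm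
      have q2 : l.getLastD a = b1 ∧ a = a1 := by
        unfold New at n n'
        grind
      have len := c.2.1
      have len' := congrArg List.length e
      cases A with
      | nil =>
        cases C with
        | nil =>
          simp at len'
          omega
        | cons z C =>
          have := headD_last_ne nd'.2.1 (by simp) x
          exact this.1 (by rw [← eL, q2.1]; rfl)
      | cons z A =>
        have := headD_last_ne nd'.1 (by simp) x
        exact this.1 (by rw [← eH, getLastD_app, q2.2]; rfl)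
    have e3 : (A ++ [a1]).getLastD (l.getLastD a) = a1 := by simp
    have e4 : ∀ d, (A ++ [a1]).headD d = a := fun d => by rw [eH, headD_app, headD_app]
    have e5 : (b1 :: C).getLastD a1 = l.getLastD a := by
      rw [eL, List.getLastD_cons, List.getLastD_cons]
    rw [e, tw_append, twG s hn _ _ _ c1, twG s hn _ _ _ c2, e3, e4, e5, List.headD_cons,
      rr_adj hn aG, rr_adj hn aG.symm, rr, rr, if_pos n, if_pos n.symm]
    have := W3 s h0 hT (A ++ [a1]) (b1 :: C) nd (by
      refine chain_both x _ x (by simp) ?_ (new_adj hy hy' n).2 ?_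
      · refine List.IsChain.append c2 c1 ?_
        intro p hp q hq
        have e6 : p = l.getLastD a := by
          rw [eL, List.getLastD_eq_getLast?, Option.mem_def.1 hp]
          rfl
        have e7 : q = a := by
          rw [eH, List.headD_eq_head?_getD, Option.mem_def.1 hq]
          rfl
        rw [e6, e7]
        exact aG
      · rw [← List.append_assoc, getLastD_app]
        exact (new_adj hy hy' n).1.symm)
    rwa [← eL, ← eH] at this

include hG h0 hT hy hy' hn in
theorem add_med (w a b c : V) (hw : w ≠ x) (h1 : G'.Adj w a) (h2 : G'.Adj w b) (h3 : G'.Adj w c)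
    (inj : ∀ p ∈ [a, b, c], ∀ q ∈ [a, b, c], p ≠ q → rr x y y' w p ≠ rr x y y' w q) :
    ∃ k, Med G' (fun a b => s.h a (rr x y y' a b)) s.own w [a, b, c] k := by
  have ad : ∀ p, G'.Adj w p → G.Adj w (rr x y y' w p) := by
    intro p hp
    rcases hG _ _ hp with e | e
    · rwa [rr_adj hn e]
    · rw [rr, if_pos e]
      exact (new_adj hy hy' e).1.symm
  obtain ⟨k, hk⟩ := s.med w _ _ _ (ad _ h1) (ad _ h2) (ad _ h3)
  have hm : ∀ p ∈ [a, b, c], rr x y y' w p ∈ [rr x y y' w a, rr x y y' w b, rr x y y' w c] :=
    fun p hp => List.mem_map_of_mem (f := rr x y y' w) hp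
  refine ⟨fun p => k (rr x y y' w p), fun p hp => hk.kown _ (hm p hp),
    fun p hp q hq hne => hk.disj _ (hm p hp) _ (hm q hq) (inj p hp q hq hne),
    fun p hp q hq => hk.eqv _ (hm p hp) _ (hm q hq), ?_⟩
  intro l c m1 m2
  have ne := inj _ m1 _ m2 c.ne.1
  have m1' := hm _ m1
  have m2' := hm _ m2
  have a1 := chain_head _ _ _ c.2.2
  have a2 := chain_last _ _ _ c.2.2
  have nd := List.nodup_cons.1 c.1
  have l0 : l ≠ [] := by
    rintro rfl
    simpa using c.2.1
  have hd : ∀ p q, l.headD p = l.headD q ∧ l.getLastD p = l.getLastD q := by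
    intro p q
    cases l with
    | nil => exact absurd rfl l0
    | cons z l => exact ⟨rfl, by simp only [List.getLastD_cons]⟩
  rcases splitNew hG l (chain_in _ _ _ c.2.2) nd.2 with h | ⟨A, a', b', C, e, n, c1, c2⟩
  · rw [twG s hn _ _ _ h]
    rcases hG _ _ a1 with e1 | e1 <;> rcases hG _ _ a2 with e2 | e2
    · rw [rr_adj hn e1] at m1'
      rw [rr_adj hn e2.symm] at m2'
      rw [rr_adj hn e1, rr_adj hn e1.symm, rr_adj hn e2, rr_adj hn e2.symm]
      exact hk.pv l ⟨c.1, c.2.1, chain_both _ _ _ l0 h e1 e2⟩ m1' m2'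
    · have r2 : rr x y y' w (l.getLastD w) = x := if_pos e2.symm
      have r3 : rr x y y' (l.getLastD w) w = x := if_pos e2
      rw [rr_adj hn e1] at ne m1' ⊢
      rw [r2] at ne m2' ⊢
      rw [rr_adj hn e1.symm, r3]
      have := M3 s h0 hT hk hw l [] (by simpa using c.1)
        (chain_both _ _ _ l0 h (by rwa [(hd x w).1]) (new_adj hy hy' e2).1.symm)
        (by simpa using (new_adj hy hy' e2).2) (by rwa [(hd x w).1]) m2' (by rwa [(hd x w).1])
      simpa only [(hd x w).1, tw, List.append_nil, List.getLastD_nil] using this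
    · have r2 : rr x y y' w (l.headD w) = x := if_pos e1
      have r3 : rr x y y' (l.headD w) w = x := if_pos e1.symm
      rw [rr_adj hn e2.symm] at ne m2' ⊢
      rw [r2] at ne m1' ⊢
      rw [rr_adj hn e2, r3]
      have := M3 s h0 hT hk hw [] l c.1 (by simpa using (new_adj hy hy' e1).1.symm)
        (chain_both _ _ _ l0 h (new_adj hy hy' e1).2 (by rwa [(hd x w).2]))
        m1' (by rwa [(hd x w).2]) (by rwa [(hd x w).2])
      simpa only [(hd x w).2, tw, List.nil_append, List.headD_nil] using this
    · exact absurd ((if_pos e1).trans (if_pos e2.symm).symm) ne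
  · have wn : ∀ p, ¬New y y' w p := by
      intro p n'
      have : w = a' ∨ w = b' := by
        unfold New at n n'
        grind
      apply nd.1
      rw [e]
      rcases this with e' | e' <;> simp [e']
    have e1 := (hG _ _ a1).resolve_right (wn _)
    have e2 := (hG _ _ a2).resolve_right fun n' => wn _ n'.symm
    have eL : ∀ d, (b' :: C).getLastD d = l.getLastD w := fun d => by
      rw [e, getLastD_app, List.getLastD_cons]
    have eH : ∀ d, (A ++ [a']).headD d = l.headD w := fun d => by
      rw [e, List.append_assoc, List.singleton_append, headD_app, headD_app]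
    have e3 : (A ++ [a']).getLastD w = a' := by simp
    have tt : tw (fun a b => s.h a (rr x y y' a b)) w l w =
        tw s.h w (A ++ [a']) x ++ tw s.h x (b' :: C) w := by
      conv_lhs => rw [e]
      rw [tw_append, twG s hn _ _ _ c1, twG s hn _ _ _ c2, e3, eH, eL, List.headD_cons,
        rr_adj hn e2, rr_adj hn e1.symm, rr, rr, if_pos n, if_pos n.symm]
    rw [rr_adj hn e1] at ne m1' ⊢
    rw [rr_adj hn e2.symm] at ne m2' ⊢
    rw [tt]
    have := M3 s h0 hT hk hw (A ++ [a']) (b' :: C) (e ▸ c.1)
      (chain_both _ _ _ (by simp) c1 (by rwa [eH]) (by rw [e3]; exact (new_adj hy hy' n).1.symm))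
      (chain_both _ _ _ (by simp) c2 (new_adj hy hy' n).2 (by rwa [eL]))
      (by rwa [eH]) (by rwa [eL]) (by rwa [eH, eL])
    rwa [eH, eL] at this

variable (hs : ∀ z a b, s.φ z a b = s.φ z b a)

/-- The cochain after adding the edge. -/
noncomputable def pha (s : KS X G) (x y y' t z a b : V) : ZMod 2 :=
  if New y y' a b then
    (if z = x then Om (wd s.h y x ++ wd s.h x y') (wd s.h x t) + (s.I y x + s.I y t + s.I y' x +
      s.I y' t + s.φ y x t + s.φ y' x t + s.φ t y x + s.φ t x y') else s.φ z y x + s.φ z x y')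
  else s.φ z a b

include h0 hT hy hy' hn hs in
theorem add_vk (a b c d : V) (h1 : G.Adj a b ∨ New y y' a b) (h2 : G.Adj c d) (n1 : a ≠ c)
    (n2 : a ≠ d) (n3 : b ≠ c) (n4 : b ≠ d) :
    VK (fun a b => s.h a (rr x y y' a b)) s.I (pha s x y y' t) a b c d := by
  have w2 : wd (fun a b => s.h a (rr x y y' a b)) c d = wd s.h c d := by
    simp only [wd, rr_adj hn h2, rr_adj hn h2.symm]
  have p2 : ∀ z, pha s x y y' t z c d = s.φ z c d := fun z => if_neg (not_new hn h2)
  show Om _ _ = _
  rw [w2, p2, p2]
  rcases h1 with h1 | h1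
  · have w1 : wd (fun a b => s.h a (rr x y y' a b)) a b = wd s.h a b := by
      simp only [wd, rr_adj hn h1, rr_adj hn h1.symm]
    have p1 : ∀ z, pha s x y y' t z a b = s.φ z a b := fun z => if_neg (not_new hn h1)
    rw [w1, p1, p1]
    exact s.vk a b c d h1 h2 n1 n2 n3 n4
  · have w1 : Om (wd (fun a b => s.h a (rr x y y' a b)) a b) (wd s.h c d) =
        Om (wd s.h y x ++ wd s.h x y') (wd s.h c d) := by
      simp only [wd, rr, if_pos h1, if_pos h1.symm, h0, List.reverse_nil, List.append_nil,
        List.nil_append]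
      rcases h1 with ⟨rfl, rfl⟩ | ⟨rfl, rfl⟩
      · rfl
      · simp only [Om_append, Om_rev]
        ring
    have e : s.I a c + s.I a d + s.I b c + s.I b d + s.φ a c d + s.φ b c d =
        s.I y c + s.I y d + s.I y' c + s.I y' d + s.φ y c d + s.φ y' c d := by
      rcases h1 with ⟨rfl, rfl⟩ | ⟨rfl, rfl⟩
      · rfl
      · ring
    have m : y ≠ c ∧ y ≠ d ∧ y' ≠ c ∧ y' ≠ d := by
      rcases h1 with ⟨rfl, rfl⟩ | ⟨rfl, rfl⟩
      exacts [⟨n1, n2, n3, n4⟩, ⟨n3, n4, n1, n2⟩]
    have ht : ∀ z, G.Adj x z → y ≠ z → y' ≠ z → z = t := by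
      intro z hz e1 e2
      have := hT z hz
      simp only [List.mem_cons, List.not_mem_nil, or_false] at this
      rcases this with e | e | e
      exacts [absurd e.symm e1, absurd e.symm e2, e]
    rw [w1, e]
    unfold pha
    rw [if_pos h1, if_pos h1]
    by_cases e1 : c = x
    · subst e1
      have := ht d h2 m.2.1 m.2.2.2
      subst this
      rw [if_pos rfl, if_neg h2.ne']
      have z := zz (s.I y c + s.I y d + s.I y' c + s.I y' d + s.φ y c d + s.φ y' c d +
        s.φ d y c + s.φ d c y')
      linear_combination -z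
    · by_cases e2 : d = x
      · subst e2
        have := ht c h2.symm m.1 m.2.2.1
        subst this
        rw [if_pos rfl, if_neg e1, wd_rev s.h d c, Om_rev', hs y c d, hs y' c d]
        have z := zz (s.I y c + s.I y d + s.I y' c + s.I y' d + s.φ y d c + s.φ y' d c +
          s.φ c y d + s.φ c d y')
        linear_combination -z
      · rw [if_neg e1, if_neg e2, Om_append]
        have k1 : Om _ _ = _ := s.vk y x c d hy.symm h2 m.1 m.2.1 (Ne.symm e1) (Ne.symm e2)
        have k2 : Om _ _ = _ := s.vk x y' c d hy' h2 (Ne.symm e1) (Ne.symm e2) m.2.2.1 m.2.2.2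
        have z := zz (s.I x c + s.I x d + s.φ x c d)
        linear_combination k1 + k2 + z

end

/-- Adding an edge between two neighbours of a vertex of degree at most three. -/
theorem KG.addE {x y y' t : V} (hG : ∀ a b, G'.Adj a b → G.Adj a b ∨ New y y' a b)
    (hT : ∀ z, G.Adj x z → z ∈ [y, y', t]) (hy : G.Adj x y) (hy' : G.Adj x y') (h : KG X G) :
    KG X G' := by
  have : Nonempty V := ⟨x⟩
  by_cases hyy : y = y'
  · refine h.mono fun a b hab => (hG a b hab).resolve_right fun n => hab.ne ?_
    rcases n with ⟨rfl, rfl⟩ | ⟨rfl, rfl⟩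
    exacts [hyy, hyy.symm]
  by_cases hn : G.Adj y y'
  · refine h.mono fun a b hab => ?_
    rcases hG a b hab with e | ⟨rfl, rfl⟩ | ⟨rfl, rfl⟩
    exacts [e, hn, hn.symm]
  obtain ⟨t, hT, ht⟩ : ∃ t, (∀ z, G.Adj x z → z ∈ [y, y', t]) ∧ G.Adj x t := by
    by_cases e : G.Adj x t
    · exact ⟨t, hT, e⟩
    · refine ⟨y, fun z hz => ?_, hy⟩
      have := hT z hz
      simp only [List.mem_cons, List.not_mem_nil, or_false] at this ⊢
      rcases this with e' | e' | e'
      exacts [Or.inl e', Or.inr (Or.inl e'), absurd (e' ▸ hz) e]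
  obtain ⟨s0⟩ := h
  obtain ⟨s1, h1⟩ := s0.norm (x := x) (a := y) (b := y') (c := t) fun z => ⟨hT z, fun hz => by
    simp only [List.mem_cons, List.not_mem_nil, or_false] at hz
    rcases hz with rfl | rfl | rfl
    exacts [hy, hy', ht]⟩
  obtain ⟨s, e, hs⟩ := s1.sym
  have h0 : ∀ p, s.h x p = [] := by
    rw [e]
    exact h1
  have ho : ∀ a b, ∀ l ∈ s.h a (rr x y y' a b), s.own l = a := fun a b => s.hown _ _
  have hm := add_mid hG s h0 hT hy hy' hn
  refine ⟨⟨fun a b => s.h a (rr x y y' a b), s.own, s.I, pha s x y y' t, ho, hm, ?_, s.hI, ?_⟩⟩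
  · intro w a b c a1 a2 a3
    by_cases e : w = x
    · subst e
      refine ⟨fun _ => [], by simp, by simp, ?_, ?_⟩
      · intro p _ q _
        apply Eqv.of_eq
        simp [tau, h0]
      · intro l c _ _
        have := hm w l c
        simpa [tw, tau, h0] using this
    by_cases inj : ∀ p ∈ [a, b, c], ∀ q ∈ [a, b, c], p ≠ q → rr x y y' w p ≠ rr x y y' w q
    · exact add_med hG s h0 hT hy hy' hn w a b c e a1 a2 a3 inj
    · simp only [not_forall, not_not] at inj
      obtain ⟨p, hp, q, hq, hne, he⟩ := inj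
      refine medMid ho hm w p q _ (by rw [he]) ?_
      simp only [List.mem_cons, List.not_mem_nil, or_false] at hp hq ⊢
      grind
  · intro a b c d h1 h2 n1 n2 n3 n4
    rcases hG _ _ h2 with e | e
    · exact add_vk s h0 hT hy hy' hn hs a b c d (hG _ _ h1) e n1 n2 n3 n4
    · have e' : G.Adj a b := by
        refine (hG _ _ h1).resolve_right fun n => ?_
        unfold New at n e
        grind
      have := VK.swap s.hI n1 n2 n3 n4
        (add_vk s h0 hT hy hy' hn hs c d a b (Or.inr e) e' n1.symm n3.symm n2.symm n4.symm)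
      exact this

/-- The move `Y → Δ`: the centre `x` is deleted and its neighbours `a, b, c` are joined. -/
theorem KG.yd {x a b c : V} (ha : G.Adj x a) (hb : G.Adj x b) (hc : G.Adj x c)
    (hG : ∀ p q, G'.Adj p q → (p ≠ x ∧ q ≠ x ∧ G.Adj p q) ∨ (p ∈ [a, b, c] ∧ q ∈ [a, b, c]))
    (h : KG X G) : KG X G' := by
  have : Nonempty V := ⟨x⟩
  let G0 : SimpleGraph V :=
    ⟨fun p q => G.Adj p q ∧ (p = x → q ∈ [a, b, c]) ∧ (q = x → p ∈ [a, b, c]),
      ⟨fun p q h => ⟨h.1.symm, h.2.2, h.2.1⟩⟩, ⟨fun p h => h.1.ne rfl⟩⟩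
  have step : ∀ (H : SimpleGraph V) (y y' : V), KG X H → (∀ z, H.Adj x z ↔ z ∈ [a, b, c]) →
      y ∈ [a, b, c] → y' ∈ [a, b, c] → KG X (H ⊔ SimpleGraph.edge y y') ∧
        ∀ z, (H ⊔ SimpleGraph.edge y y').Adj x z ↔ z ∈ [a, b, c] := by
    intro H y y' hH hx hy hy'
    have nx : ∀ z ∈ [a, b, c], x ≠ z := fun z hz => ((hx z).2 hz).ne
    constructor
    · obtain ⟨t, ht⟩ : ∃ t, ∀ z ∈ [a, b, c], y = y' ∨ z ∈ [y, y', t] := by
        by_contra hh
        have h1 := fun e => hh ⟨a, e⟩
        have h2 := fun e => hh ⟨b, e⟩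
        have h3 := fun e => hh ⟨c, e⟩
        simp only [List.mem_cons, List.not_mem_nil, or_false] at hy hy' h1 h2 h3
        grind
      by_cases e : y = y'
      · subst e
        simpa using hH
      refine KG.addE (x := x) (y := y) (y' := y') (t := t) ?_
        (fun z hz => (ht z ((hx z).1 hz)).resolve_left e) ((hx y).2 hy) ((hx y').2 hy') hH
      intro p q hpq
      rcases hpq with h | h
      · exact Or.inl h
      · exact Or.inr ((SimpleGraph.edge_adj _ _ _ _).1 h).1
    · intro z
      rw [SimpleGraph.sup_adj, SimpleGraph.edge_adj, hx]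
      refine ⟨fun h => h.elim id fun h => ?_, Or.inl⟩
      rcases h.1 with h | h
      exacts [absurd h.1 (nx y hy), absurd h.1 (nx y' hy')]
  have k0 : KG X G0 := h.mono fun p q h => h.1
  have x0 : ∀ z, G0.Adj x z ↔ z ∈ [a, b, c] := by
    intro z
    refine ⟨fun h => h.2.1 rfl, fun hz => ?_⟩
    have : G.Adj x z := by
      simp only [List.mem_cons, List.not_mem_nil, or_false] at hz
      rcases hz with rfl | rfl | rfl
      exacts [ha, hb, hc]
    exact ⟨this, fun _ => hz, fun e => absurd e this.ne'⟩
  obtain ⟨k1, x1⟩ := step _ a b k0 x0 (by simp) (by simp)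
  obtain ⟨k2, x2⟩ := step _ a c k1 x1 (by simp) (by simp)
  obtain ⟨k3, -⟩ := step _ b c k2 x2 (by simp) (by simp)
  refine k3.mono fun p q hpq => ?_
  have ne := hpq.ne
  simp only [SimpleGraph.sup_adj, SimpleGraph.edge_adj]
  rcases hG p q hpq with h | h
  · exact Or.inl (Or.inl (Or.inl ⟨h.2.2, fun e => absurd e h.1, fun e => absurd e h.2.1⟩))
  · simp only [List.mem_cons, List.not_mem_nil, or_false] at h
    grind

end Pool.Agent.Lib.MP_1f96ff_gt.K
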