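import Pool.Agent.Lib.MP_1f96ff_gt.K.AddE2
import Pool.Agent.Lib.MP_1f96ff_gt.Wd
import Pool.Agent.Lib.MP_1f96ff_gt.WdEq

/- The data of a knotless embedding give an abstract knotless diagram. -/

set_option autoImplicit false

namespace Pool.Agent.Lib.MP_1f96ff_gt.K

variable {V : Type} {G : SimpleGraph V}

theorem S_nil {A : Type} [DecidableEq A] (w : List A) :
    S w (fun s => if s = [] then 1 else 0) = 1 := by
  induction w with
  | nil => rfl
  | cons a w ih => simp [S, ih, S_zero]

theorem cnt_eq {A : Type} [DecidableEq A] (p w : List A) :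
    cnt p w = S w (fun s => if s = p then 1 else 0) := by
  induction w generalizing p with
  | nil => cases p <;> simp [cnt, S]
  | cons b w ih =>
    cases p with
    | nil => rw [S_nil]; rfl
    | cons a p =>
      simp only [cnt, S, ih, List.cons.injEq]
      by_cases e : a = b
      · simp [e]
      · simp [e, Ne.symm e, S_zero]

theorem S_sum {A ι : Type} (w : List A) (t : Finset ι) (F : ι → List A → ZMod 2) :
    S w (fun s => ∑ i ∈ t, F i s) = ∑ i ∈ t, S w (F i) := by
  classical
  induction t using Finset.induction_on with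
  | empty => simpa using S_zero w
  | insert i t hi ih => simp only [Finset.sum_insert hi, S_add, ih]

theorem PVw_eq {L : Type} [Fintype L] [DecidableEq L] (w : List (L × Bool)) : PVw w = PV w := by
  have e : ∀ c c' : L, (if c = c' then 0 else
      cnt [(c, false), (c', true), (c, true), (c', false)] w) = S w (fun s => if c = c' then 0 else
        if s = [(c, false), (c', true), (c, true), (c', false)] then 1 else 0) := by
    intro c c'
    split_ifs
    · exact (S_zero w).symm
    · exact cnt_eq _ _
  simp only [PVw, e, ← S_sum, PV]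
  congr 1
  funext s
  by_cases h : s.length = 4
  · obtain ⟨p, q, r, t, rfl⟩ := List.length_eq_four.1 h
    rw [Finset.sum_eq_single p.1, Finset.sum_eq_single q.1]
    · obtain ⟨p1, p2⟩ := p
      obtain ⟨q1, q2⟩ := q
      by_cases e : p1 = q1
      · simp [pvF, e]
      · simp [pvF, e]
    · intro c _ hc
      rw [if_neg (fun e : [p, q, r, t] = _ => hc (by
        simp only [List.cons.injEq] at e
        rw [e.2.1]))]
      simp
    · simp
    · intro c _ hc
      apply Finset.sum_eq_zero
      intro c' _
      rw [if_neg (fun e : [p, q, r, t] = _ => hc (by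
        simp only [List.cons.injEq] at e
        rw [e.1]))]
      simp
    · simp
  · rw [pvF_len h]
    apply Finset.sum_eq_zero
    intro c _
    apply Finset.sum_eq_zero
    intro c' _
    rw [if_neg (fun e : s = _ => h (by rw [e]; rfl))]
    simp

theorem cnt_one {A : Type} [DecidableEq A] (a : A) (w : List A) :
    cnt [a] w = (w.map fun p => if a = p then (1 : ZMod 2) else 0).sum := by
  induction w with
  | nil => rfl
  | cons b w ih =>
    simp only [cnt, ih, List.map_cons, List.sum_cons]
    ring

theorem om_eq {L : Type} [Fintype L] [DecidableEq L] (w w' : List (L × Bool)) :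
    MP_1f96ff_gt.om w w' = om w w' := by
  unfold MP_1f96ff_gt.om
  induction w with
  | nil => simp [cnt, om]
  | cons b w ih =>
    have : om (b :: w) w' = (w'.map fun q => ov b q).sum + om w w' := by simp [om]
    rw [this, ← ih]
    simp only [cnt, add_mul, Finset.sum_add_distrib]
    rw [add_comm]
    congr 1
    rw [Finset.sum_eq_single b.1, cnt_one, ← List.sum_map_mul_left]
    · congr 1
      apply List.map_congr_left
      intro q _
      obtain ⟨b1, b2⟩ := b
      by_cases e : q = (b1, false)
      · cases b2 <;> simp [ov, e]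
      · cases b2 <;> simp [ov, e, Ne.symm e]
    · intro c _ hc
      rw [if_neg fun e : (c, true) = b => hc (by rw [← e])]
      simp
    · simp

theorem exists_walk {L : Type} (w h : V → V → List (L × Bool))
    (hw : ∀ a b, G.Adj a b → wd h a b = w a b) (a : V) (l : List V) (b : V)
    (ch : List.IsChain G.Adj (a :: (l ++ [b]))) :
    ∃ p : G.Walk a b, p.support = a :: (l ++ [b]) ∧
      wordOf w p = h a (l.headD b) ++ (tw h a l b ++ (h b (l.getLastD a)).reverse) := by
  induction l generalizing a with
  | nil =>
    have e : G.Adj a b := by simpa using ch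
    refine ⟨.cons e .nil, rfl, ?_⟩
    simp [wordOf, ← hw a b e, wd, tw]
  | cons z l ih =>
    rw [List.cons_append, List.isChain_cons_cons] at ch
    obtain ⟨p, h1, h2⟩ := ih z ch.2
    refine ⟨.cons ch.1 p, by simp [h1], ?_⟩
    have : wordOf w (.cons ch.1 p) = w a z ++ wordOf w p := by simp [wordOf]
    rw [this, h2, ← hw a z ch.1]
    simp only [wd, tw, tau, List.headD_cons, List.getLastD_cons, List.append_assoc]

/-- `G` has an abstract knotless diagram. -/
def KK (G : SimpleGraph V) : Prop := ∃ X : Type, KG X G

open Classical in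
theorem KK.of_K0 [Nonempty V] (h0 : K0 G) : KK G := by
  obtain ⟨L, _, _, w, ξ, φ, hξ, hr, hloc, hpv, -, hvk⟩ := h0
  set h : V → V → List (L × Bool) := fun a b => if G.Adj a b ∧ ξ a < ξ b then w a b else []
    with hh
  have hm : ∀ a b, ∀ x ∈ h a b, G.Adj a b ∧ ξ a < ξ b ∧ x ∈ w a b := by
    intro a b x hx
    simp only [hh] at hx
    split_ifs at hx with e
    · exact ⟨e.1, e.2, hx⟩
    · simp at hx
  have hw : ∀ a b, G.Adj a b → wd h a b = w a b := by
    intro a b e
    rcases lt_trichotomy (ξ a) (ξ b) with l | l | l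
    · simp [wd, hh, e, l, l.not_gt]
    · exact absurd (hξ l) e.ne
    · simp [wd, hh, e.symm, l, l.not_gt, hr a b e]
  have vb : ∀ u l, Cyc G u l →
      PV (h u (l.headD u) ++ (tw h u l u ++ (h u (l.getLastD u)).reverse)) = 0 := by
    intro u l c
    obtain ⟨p, h1, h2⟩ := exists_walk w h hw u l u c.2.2
    rw [← h2, ← PVw_eq]
    apply hpv
    have len : p.length = l.length + 1 := by
      have := p.length_support
      rw [h1] at this
      simpa using this.symm
    have := c.2.1
    rw [SimpleGraph.Walk.isCycle_iff_isPath_tail_and_le_length, SimpleGraph.Walk.isPath_def,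
      SimpleGraph.Walk.support_tail_of_not_nil, h1]
    · refine ⟨?_, by omega⟩
      exact (List.perm_append_comm (l₁ := l) (l₂ := [u])).nodup_iff.2 c.1
    · rw [SimpleGraph.Walk.not_nil_iff_lt_length]
      omega
  set own : L × Bool → V := fun x =>
    if e : ∃ a, ∃ b, x ∈ h a b then e.choose else Classical.arbitrary V with ho
  have hown : ∀ a b, ∀ x ∈ h a b, own x = a := by
    intro a b x hx
    have e : ∃ a, ∃ b, x ∈ h a b := ⟨a, b, hx⟩
    simp only [ho, dif_pos e]
    obtain ⟨d, hd⟩ := e.choose_spec
    obtain ⟨a1, a2, a3⟩ := hm _ _ _ hx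
    obtain ⟨b1, b2, b3⟩ := hm _ _ _ hd
    by_contra hne
    refine hloc _ _ _ _ b1 a1 (fun e' => ?_) x b3 a3
    rcases Sym2.eq_iff.1 e' with e' | e'
    · exact hne e'.1
    · rw [e'.1, e'.2] at b2
      exact a2.not_gt b2
  refine ⟨L, ⟨⟨h, own, fun p q => lt2 (ξ p) (ξ q), φ, hown, ?_, ?_, ?_, ?_⟩⟩⟩
  · intro a l c
    by_cases e : ξ a < ξ (l.getLastD a)
    · rcases List.eq_nil_or_concat l with rfl | ⟨l0, b, rfl⟩
      · simp at e
      · rw [List.concat_eq_append] at *
        have eb : (l0 ++ [b]).getLastD a = b := by simp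
        rw [eb] at e ⊢
        have := vb _ _ c.rot'
        have e0 : h b a = [] := by simp [hh, e.not_gt]
        rw [← List.cons_append, tw_append]
        simpa [tw, tau, e0] using this
    · have := vb _ _ c
      have e0 : h a (l.getLastD a) = [] := if_neg fun e' => e e'.2
      simpa only [tw, tau, e0, List.reverse_nil, List.nil_append, List.append_nil] using this
  · intro u a b c _ _ _
    refine ⟨h u, fun p _ => hown u p, ?_, fun p _ q _ => Eqv.rfl' _, fun l c _ _ => vb u l c⟩
    intro p _ q _ hne x hx hx'
    obtain ⟨a1, -, a3⟩ := hm _ _ _ hx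
    obtain ⟨b1, -, b3⟩ := hm _ _ _ hx'
    refine hloc _ _ _ _ a1 b1 (fun e' => ?_) x a3 b3
    rcases Sym2.eq_iff.1 e' with e' | e'
    · exact hne e'.2
    · exact b1.ne e'.1
  · intro p q hne
    unfold lt2
    rcases lt_trichotomy (ξ p) (ξ q) with l | l | l
    · simp [l, l.not_gt]
    · exact absurd (hξ l) hne
    · simp [l, l.not_gt]
  · intro a b c d h1 h2 n1 n2 n3 n4
    rw [hw a b h1, hw c d h2, ← om_eq, ← om_eq]
    exact hvk a b c d h1 h2 n1 n2 n3 n4

end Pool.Agent.Lib.MP_1f96ff_gt.K
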