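import Pool.Agent.Lib.MP_1f96ff_gt.K.D4g
import Pool.Agent.Lib.MP_1f96ff_gt.K.Bridge

/- Certificates that a small graph has no abstract knotless diagram. -/

set_option autoImplicit false

namespace Pool.Agent.Lib.MP_1f96ff_gt.K

/-- The graph on `0, …, 15` with adjacency bits `16 a + b`. -/
def gr (A : ℕ) : SimpleGraph ℕ where
  Adj a b := a ≠ b ∧ a < 16 ∧ b < 16 ∧ (A.testBit (16 * a + b) = true ∨ A.testBit (16 * b + a) = true)
  symm := ⟨fun _ _ h => ⟨h.1.symm, h.2.2.1, h.2.1, h.2.2.2.symm⟩⟩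
  loopless := ⟨fun _ h => h.1 rfl⟩

def adjB (A a b : ℕ) : Bool :=
  !(Nat.beq a b) && Nat.blt a 16 && Nat.blt b 16 && A.testBit (16 * a + b)

theorem adjB_sound {A a b : ℕ} (h : adjB A a b = true) : (gr A).Adj a b := by
  simp only [adjB, Bool.and_eq_true, Bool.not_eq_true', Nat.blt_eq] at h
  refine ⟨fun e => ?_, h.1.1.2, h.1.2, Or.inl h.2⟩
  have := h.1.1.1
  rw [e, Nat.beq_refl] at this
  cases this

def ndB : ℕ → List ℕ → Bool
  | _, [] => true
  | m, a :: l => !(m.testBit a) && ndB (m ||| 2 ^ a) l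

theorem ndB_sound (m : ℕ) (l : List ℕ) (h : ndB m l = true) :
    l.Nodup ∧ ∀ a ∈ l, m.testBit a = false := by
  induction l generalizing m with
  | nil => simp
  | cons a l ih =>
    simp only [ndB, Bool.and_eq_true, Bool.not_eq_true'] at h
    obtain ⟨h1, h2⟩ := ih _ h.2
    refine ⟨List.nodup_cons.2 ⟨fun e => ?_, h1⟩, fun b hb => ?_⟩
    · have := h2 a e
      simp at this
    · rcases List.mem_cons.1 hb with rfl | hb
      · exact h.1
      · have := h2 b hb
        rw [Nat.testBit_or, Bool.or_eq_false_iff] at this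
        exact this.1

def chB (A : ℕ) : ℕ → List ℕ → ℕ → Bool
  | a, [], b => adjB A a b
  | a, z :: l, b => adjB A a z && chB A z l b

theorem chB_sound (A a : ℕ) (l : List ℕ) (b : ℕ) (h : chB A a l b = true) :
    List.IsChain (gr A).Adj (a :: (l ++ [b])) := by
  induction l generalizing a with
  | nil => simpa using adjB_sound h
  | cons z l ih =>
    simp only [chB, Bool.and_eq_true] at h
    rw [List.cons_append, List.isChain_cons_cons]
    exact ⟨adjB_sound h.1, ih z h.2⟩

def cycB (A : ℕ) : List ℕ → Bool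
  | a :: b :: c :: l => ndB 0 (a :: b :: c :: l) && chB A a (b :: c :: l) a
  | _ => false

theorem cycB_sound {A : ℕ} {l : List ℕ} (h : cycB A l = true) : CycL (gr A) l := by
  rcases l with _ | ⟨a, _ | ⟨b, _ | ⟨c, l⟩⟩⟩ <;> simp only [cycB, Bool.and_eq_true] at h
  · cases h
  · cases h
  · cases h
  · exact ⟨a, _, rfl, (ndB_sound _ _ h.1).1, by simp, chB_sound _ _ _ _ h.2⟩

def msk : List ℕ → ℕ
  | [] => 0
  | a :: l => 2 ^ a ||| msk l

theorem msk_mem {a : ℕ} {l : List ℕ} (h : a ∈ l) : (msk l).testBit a = true := by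
  induction l with
  | nil => simp at h
  | cons b l ih =>
    rcases List.mem_cons.1 h with rfl | h
    · simp [msk]
    · simp [msk, ih h]

def djB (l l' : List ℕ) : Bool := Nat.beq (msk l &&& msk l') 0

theorem djB_sound {l l' : List ℕ} (h : djB l l' = true) {a : ℕ} (h1 : a ∈ l) (h2 : a ∈ l') :
    False := by
  have := congrArg (fun n => Nat.testBit n a) (Nat.eq_of_beq_eq_true h)
  simp [msk_mem h1, msk_mem h2] at this

def ends (E : List (ℕ × ℕ)) : List ℕ := E.flatMap fun e => [e.1, e.2]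

def okB (A : ℕ) (E F : List (ℕ × ℕ)) : Bool :=
  E.all (fun e => adjB A e.1 e.2) && F.all (fun e => adjB A e.1 e.2) && djB (ends E) (ends F)

theorem okB_sound {A : ℕ} {E F : List (ℕ × ℕ)} (h : okB A E F = true) : Ok (gr A) E F := by
  simp only [okB, Bool.and_eq_true, List.all_eq_true] at h
  intro e he f hf
  have m : ∀ {E : List (ℕ × ℕ)} {e : ℕ × ℕ}, e ∈ E → e.1 ∈ ends E ∧ e.2 ∈ ends E := by
    intro E e he
    constructor <;> exact List.mem_flatMap.2 ⟨e, he, by simp⟩
  refine ⟨adjB_sound (h.1.1 e he), adjB_sound (h.1.2 f hf), fun q => ?_, fun q => ?_, fun q => ?_,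
    fun q => ?_⟩
  exacts [djB_sound h.2 (m he).1 (q ▸ (m hf).1), djB_sound h.2 (m he).1 (q ▸ (m hf).2),
    djB_sound h.2 (m he).2 (q ▸ (m hf).1), djB_sound h.2 (m he).2 (q ▸ (m hf).2)]

def cd (e : ℕ × ℕ) : ℕ := if e.1 < e.2 then 16 * e.1 + e.2 else 16 * e.2 + e.1

def ltN (a b : ℕ) : ℕ := if a < b then 1 else 0

def cr (e f : ℕ × ℕ) : ℕ := (ltN e.1 f.1 + ltN e.1 f.2 + ltN e.2 f.1 + ltN e.2 f.2) % 2

def term (e f : ℕ × ℕ) : ℕ :=
  if cd e < cd f then 2 ^ (256 * cd e + cd f) else 2 ^ (256 * cd f + cd e) ^^^ cr e f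

def form (E F : List (ℕ × ℕ)) : ℕ :=
  E.foldr (fun e acc => F.foldr (fun f acc => term e f ^^^ acc) acc) 0

/-- The value of a linear form given by its bits. -/
def ev (y : ℕ → ZMod 2) (N : ℕ) : ZMod 2 :=
  ∑ i ∈ Finset.range 65536, if N.testBit i then y i else 0

theorem ev_xor (y : ℕ → ZMod 2) (M N : ℕ) : ev y (M ^^^ N) = ev y M + ev y N := by
  unfold ev
  rw [← Finset.sum_add_distrib]
  apply Finset.sum_congr rfl
  intro i _
  rw [Nat.testBit_xor]
  cases M.testBit i <;> cases N.testBit i <;> simp [zz]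

theorem ev_zero (y : ℕ → ZMod 2) : ev y 0 = 0 := by simp [ev]

theorem ev_pow (y : ℕ → ZMod 2) {i : ℕ} (hi : i < 65536) : ev y (2 ^ i) = y i := by
  unfold ev
  rw [Finset.sum_eq_single i]
  · simp
  · intro j _ hj
    rw [Nat.testBit_two_pow_of_ne hj.symm]
    rfl
  · intro h
    exact absurd (Finset.mem_range.2 hi) h

section
variable {X : Type} {A : ℕ} (s : KS X (gr A))

noncomputable def jj (p q : ℕ) : ZMod 2 := if p < q then s.I p q + 1 else 0

noncomputable def psi (p : ℕ) (f : ℕ × ℕ) : ZMod 2 := s.φ p f.1 f.2 + jj s p f.1 + jj s p f.2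

noncomputable def omg (e f : ℕ × ℕ) : ZMod 2 :=
  om (wd s.h e.1 e.2) (wd s.h f.1 f.2) + (psi s e.1 f + psi s e.2 f)

def dc (c : ℕ) : ℕ × ℕ := (c / 16, c % 16)

noncomputable def yy (i : ℕ) : ZMod 2 := if i = 0 then 1 else omg s (dc (i / 256)) (dc (i % 256))

theorem jj_add {p q : ℕ} (h : p ≠ q) : s.I p q + jj s p q + jj s q p = (ltN p q : ZMod 2) := by
  unfold jj ltN
  have e := s.hI p q h
  rcases lt_or_gt_of_ne h with l | l
  · rw [if_pos l, if_neg l.not_gt, if_pos l]
    have := zz (s.I p q)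
    push_cast
    linear_combination this
  · rw [if_neg l.not_gt, if_pos l, if_neg l.not_gt]
    have := zz (1 : ZMod 2)
    push_cast
    linear_combination e + this

theorem dc_cd {e : ℕ × ℕ} (h : (gr A).Adj e.1 e.2) :
    (dc (cd e) = e ∨ dc (cd e) = (e.2, e.1)) ∧ 0 < cd e ∧ cd e < 256 := by
  obtain ⟨h1, h2, h3, -⟩ := h
  unfold cd dc
  split_ifs with l
  · refine ⟨Or.inl (Prod.ext ?_ ?_), ?_, ?_⟩ <;> (try simp only) <;> omega
  · refine ⟨Or.inr (Prod.ext ?_ ?_), ?_, ?_⟩ <;> (try simp only) <;> omega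

variable (hs : ∀ z a b, s.φ z a b = s.φ z b a)
include hs

theorem omg_dc {e f : ℕ × ℕ} (h1 : (gr A).Adj e.1 e.2) (h2 : (gr A).Adj f.1 f.2) :
    omg s (dc (cd e)) (dc (cd f)) = omg s e f := by
  rcases (dc_cd h1).1 with q | q <;> rcases (dc_cd h2).1 with q' | q' <;> rw [q, q'] <;>
    simp only [omg, psi, wd_rev s.h e.1 e.2, wd_rev s.h f.1 f.2, om_reverse_left,
      om_reverse_right, hs _ f.2 f.1] <;> ring

theorem ev_term {e f : ℕ × ℕ} (h1 : (gr A).Adj e.1 e.2) (h2 : (gr A).Adj f.1 f.2)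
    (n1 : e.1 ≠ f.1) (n2 : e.1 ≠ f.2) (n3 : e.2 ≠ f.1) (n4 : e.2 ≠ f.2) :
    ev (yy s) (term e f) = omg s e f := by
  have key : ∀ {e f : ℕ × ℕ}, (gr A).Adj e.1 e.2 → (gr A).Adj f.1 f.2 →
      ev (yy s) (2 ^ (256 * cd e + cd f)) = omg s e f := by
    intro e f h1 h2
    obtain ⟨-, a1, a2⟩ := dc_cd h1
    obtain ⟨-, b1, b2⟩ := dc_cd h2
    rw [ev_pow _ (by omega), yy, if_neg (by omega),
      show (256 * cd e + cd f) / 256 = cd e by omega, show (256 * cd e + cd f) % 256 = cd f by omega]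
    exact omg_dc s hs h1 h2
  unfold term
  split_ifs
  · exact key h1 h2
  · have e1 : ev (yy s) (cr e f) = (cr e f : ZMod 2) := by
      rcases Nat.mod_two_eq_zero_or_one (ltN e.1 f.1 + ltN e.1 f.2 + ltN e.2 f.1 + ltN e.2 f.2)
        with q | q <;> rw [cr, q]
      · exact ev_zero _
      · exact ev_pow (i := 0) _ (by norm_num)
    rw [ev_xor, key h2 h1, e1, cr]
    have k := s.vk _ _ _ _ h1 h2 n1 n2 n3 n4
    have j1 := jj_add s n1
    have j2 := jj_add s n2
    have j3 := jj_add s n3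
    have j4 := jj_add s n4
    rw [ZMod.natCast_mod]
    push_cast
    rw [← j1, ← j2, ← j3, ← j4]
    unfold omg psi
    have z := zz (s.I e.1 f.1 + s.I e.1 f.2 + s.I e.2 f.1 + s.I e.2 f.2 + s.φ f.1 e.1 e.2 +
      s.φ f.2 e.1 e.2 + jj s f.1 e.1 + jj s f.1 e.2 + jj s f.2 e.1 + jj s f.2 e.2)
    have z' := zz (om (wd s.h e.1 e.2) (wd s.h f.1 f.2))
    have z'' := zz (s.φ e.1 f.1 f.2 + s.φ e.2 f.1 f.2)
    linear_combination k + z - z' - z'' * 0

theorem ev_form {E F : List (ℕ × ℕ)} (ok : Ok (gr A) E F) (hE : Bal E) :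
    ev (yy s) (form E F) = om (wl s.h E) (wl s.h F) := by
  have e1 : ev (yy s) (form E F) = (E.map fun e => (F.map fun f => omg s e f).sum).sum := by
    unfold form
    clear hE
    induction E with
    | nil => exact ev_zero _
    | cons e E ih =>
      rw [List.foldr_cons, List.map_cons, List.sum_cons,
        ← ih fun e he => ok e (List.mem_cons_of_mem _ he)]
      have ok' := ok e List.mem_cons_self
      generalize List.foldr _ 0 E = acc
      clear ih ok
      induction F with
      | nil => simp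
      | cons f F ih =>
        obtain ⟨a1, a2, n1, n2, n3, n4⟩ := ok' f List.mem_cons_self
        rw [List.foldr_cons, ev_xor, ih fun f hf => ok' f (List.mem_cons_of_mem _ hf),
          ev_term s hs a1 a2 n1 n2 n3 n4, List.map_cons, List.sum_cons, add_assoc]
  rw [e1, om_wl]
  simp only [omg, List.sum_map_add (f := fun f : ℕ × ℕ => om _ (wd s.h f.1 f.2))]
  rw [List.sum_map_add, sum_bal hE, add_zero]

end

def nib (c i : ℕ) : ℕ := (c >>> (4 * i)) % 16

def dn (c r : ℕ) : ℕ → ℕ → List ℕ → List ℕ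
  | 0, _, acc => acc
  | k + 1, x, acc => if x = r then acc else dn c r k (nib c x) (x :: acc)

def pth (c r i : ℕ) (b : Bool) : List ℕ := dn c (nib c r) 11 (nib c (bif b then i + 1 else i)) []

/-- The model coded by the hexadecimal digits of `c`. -/
def dec (c : ℕ) : Mdl ℕ :=
  ⟨nib c 11, nib c 12, nib c 13, nib c 14, pth c 11 15, pth c 12 17, pth c 13 19, pth c 14 21,
    pth c 11 23, pth c 12 25, pth c 13 27, pth c 14 29⟩

def valid (A : ℕ) (m : Mdl ℕ) : Bool :=
  ([false, true].all fun a => [false, true].all fun b => [false, true].all fun c =>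
    [false, true].all fun d => cycB A (m.cyc a b c d)) && okB A m.E3 m.E1 && okB A m.E2 m.E4 &&
  djB (m.r2 :: (m.P2 false ++ m.P2 true))
    (m.r4 :: m.r1 :: (m.Q4 false ++ (m.Q4 true ++ (m.P1 false ++ m.P1 true)))) &&
  djB (m.r1 :: (m.Q1 false ++ m.Q1 true))
    (m.r2 :: m.r3 :: (m.Q2 false ++ (m.Q2 true ++ (m.P3 false ++ m.P3 true))))

theorem valid_sound {X : Type} {A : ℕ} (s : KS X (gr A)) (hs : ∀ z a b, s.φ z a b = s.φ z b a)
    {m : Mdl ℕ} (h : valid A m = true) :
    ev (yy s) (form m.E3 m.E1) * ev (yy s) (form m.E2 m.E4) = 0 := by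
  simp only [valid, Bool.and_eq_true, List.all_eq_true] at h
  obtain ⟨⟨⟨⟨h1, h2⟩, h3⟩, h4⟩, h5⟩ := h
  have mb : ∀ a : Bool, a ∈ [false, true] := by decide
  rw [ev_form s hs (okB_sound h2) (bal_arc _ _ _ _ _ _),
    ev_form s hs (okB_sound h3) (bal_arc _ _ _ _ _ _)]
  refine d4_graph s m (fun a b c d => cycB_sound (h1 a (mb a) b (mb b) c (mb c) d (mb d)))
    (okB_sound h3) ?_ ?_
  · intro a d z hz
    have m1 : z ∈ m.r2 :: (m.P2 false ++ m.P2 true) := by
      cases a <;> simp only [List.mem_cons, List.mem_append] at hz ⊢ <;> tauto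
    constructor <;> intro e <;> refine djB_sound h4 m1 ?_ <;> cases d <;>
      simp only [List.mem_cons, List.mem_append] at e ⊢ <;> tauto
  · intro a d z hz
    have m1 : z ∈ m.r1 :: (m.Q1 false ++ m.Q1 true) := by
      cases a <;> simp only [List.mem_cons, List.mem_append] at hz ⊢ <;> tauto
    constructor <;> intro e <;> refine djB_sound h5 m1 ?_ <;> cases d <;>
      simp only [List.mem_cons, List.mem_append] at e ⊢ <;> tauto

def xorSel : ℕ → List ℕ → ℕ
  | _, [] => 0
  | S, e :: es => if S % 2 = 1 then e ^^^ xorSel (S / 2) es else xorSel (S / 2) es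

theorem ev_xorSel (y : ℕ → ZMod 2) (S : ℕ) (es : List ℕ) (h : ∀ e ∈ es, ev y e = 0) :
    ev y (xorSel S es) = 0 := by
  induction es generalizing S with
  | nil => exact ev_zero _
  | cons e es ih =>
    have := ih (S / 2) fun e he => h e (List.mem_cons_of_mem _ he)
    unfold xorSel
    split_ifs
    · rw [ev_xor, this, h e List.mem_cons_self, add_zero]
    · exact this

/-- Reads one proof tree from the data and returns the rest. -/
def chk (A : ℕ) : ℕ → List ℕ → List ℕ → Option (List ℕ)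
  | k + 1, es, n :: d =>
    if n % 2 = 0 then (if xorSel (n / 2) es = 1 then some d else none)
    else if valid A (dec (n / 2)) then
      match chk A k (form (dec (n / 2)).E3 (dec (n / 2)).E1 :: es) d with
      | some d' => chk A k (form (dec (n / 2)).E2 (dec (n / 2)).E4 ::
          (form (dec (n / 2)).E3 (dec (n / 2)).E1 ^^^ 1) :: es) d'
      | none => none
    else none
  | _, _, _ => none

theorem chk_sound {X : Type} {A : ℕ} (s : KS X (gr A)) (hs : ∀ z a b, s.φ z a b = s.φ z b a)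
    (k : ℕ) (es d : List ℕ) (he : ∀ e ∈ es, ev (yy s) e = 0) : chk A k es d = none := by
  have one : ev (yy s) 1 = 1 := ev_pow (i := 0) _ (by norm_num)
  induction k generalizing es d with
  | zero => rfl
  | succ k ih =>
    cases d with
    | nil => rfl
    | cons n d =>
      rw [chk]
      split_ifs with h1 h2 h3
      · have := ev_xorSel _ (n / 2) es he
        rw [h2, one] at this
        exact absurd this (by decide)
      · rfl
      · have key := valid_sound s hs h3
        by_cases e : ev (yy s) (form (dec (n / 2)).E3 (dec (n / 2)).E1) = 0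
        · rw [ih _ d (by simpa [e] using he)]
        · split
          · apply ih
            have e1 : ∀ a : ZMod 2, a ≠ 0 → a = 1 := by decide
            rw [e1 _ e, one_mul] at key
            intro f hf
            rcases List.mem_cons.1 hf with rfl | hf
            · exact key
            · rcases List.mem_cons.1 hf with rfl | hf
              · rw [ev_xor, e1 _ e, one]
                rfl
              · exact he f hf
          · rfl
      · rfl

theorem not_KK {A : ℕ} (d : List ℕ) (h : (chk A 1000 [] d).isSome = true) : ¬KK (gr A) := by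
  rintro ⟨X, ⟨s0⟩⟩
  obtain ⟨s, -, hs⟩ := s0.sym
  rw [chk_sound s hs _ _ _ (by simp)] at h
  cases h

end Pool.Agent.Lib.MP_1f96ff_gt.K
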