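import Pool.Agent.Lib.MP_1f96ff_gt.K.AddE2

/- Adding an edge at an isolated vertex. -/

set_option autoImplicit false

namespace Pool.Agent.Lib.MP_1f96ff_gt.K

open Classical

variable {V X : Type} {G G' : SimpleGraph V}

theorem tw_off {h h' : V → V → List (X × Bool)} {u : V} (e : ∀ a b, b ≠ u → h' a b = h a b)
    (p : V) (l : List V) (q : V) (hp : p ≠ u) (hl : u ∉ l) (hq : q ≠ u) :
    tw h' p l q = tw h p l q := by
  induction l generalizing p with
  | nil => rfl
  | cons z l ih =>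
    have hz : z ≠ u := fun k => hl (k ▸ List.mem_cons_self)
    have hl' : u ∉ l := fun k => hl (List.mem_cons_of_mem _ k)
    have hh : l.headD q ≠ u := by
      cases l with
      | nil => exact hq
      | cons y l => exact fun k => hl' (k ▸ List.mem_cons_self)
    simp only [tw, tau, ih z hz hl', e _ _ hp, e _ _ hh]

/-- Adding an edge at an isolated vertex. -/
theorem KG.pend {u v : V} (hG : ∀ a b, G'.Adj a b → G.Adj a b ∨ New u v a b)
    (hu : ∀ w, ¬G.Adj u w) (h : KG X G) : KG X G' := by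
  obtain ⟨s⟩ := h
  have nb : ∀ w, G'.Adj u w → w = v := by
    intro w hw
    rcases hG _ _ hw with e | ⟨-, e⟩ | ⟨e, e'⟩
    exacts [absurd e (hu w), e, e'.trans e]
  have av : ∀ a l, Cyc G' a l → u ∉ a :: l ∧ Cyc G a l := by
    intro a l c
    have k : u ∉ a :: l := by
      intro hm
      obtain ⟨A, C, e⟩ := List.append_of_mem hm
      obtain ⟨a', l', e', c'⟩ := CycL.rot A (u :: C) ⟨a, l, e.symm, c⟩
      rw [List.cons_append, List.cons.injEq] at e'
      obtain ⟨rfl, rfl⟩ := e'
      exact c'.ne.1 ((nb _ (chain_head _ _ _ c'.2.2)).trans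
        (nb _ (chain_last _ _ _ c'.2.2).symm).symm)
    refine ⟨k, c.1, c.2.1, noNew hG _ c.2.2 (Or.inl ?_)⟩
    simp only [List.mem_cons, List.mem_append, List.not_mem_nil, or_false] at k ⊢
    tauto
  obtain ⟨w0, hw0⟩ : ∃ w0, (∃ w, G.Adj v w) → G.Adj v w0 := by
    by_cases e : ∃ w, G.Adj v w
    · exact ⟨e.choose, fun _ => e.choose_spec⟩
    · exact ⟨v, fun k => absurd k e⟩
  set r : V → V → V := fun a b => if a = v ∧ b = u then w0 else b with hr
  have r1 : ∀ a b, b ≠ u → r a b = b := fun a b k => if_neg fun k' => k k'.2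
  have e1 : ∀ a b, b ≠ u → s.h a (r a b) = s.h a b := fun a b k => by rw [r1 a b k]
  have ho : ∀ a b, ∀ l ∈ s.h a (r a b), s.own l = a := fun a b => s.hown _ _
  have hm : ∀ a l, Cyc G' a l →
      PV (tw (fun a b => s.h a (r a b)) (l.getLastD a) (a :: l) a) = 0 := by
    intro a l c
    obtain ⟨k, c'⟩ := av a l c
    rw [tw_off e1 _ _ _ (fun e => k (e ▸ List.mem_cons_of_mem _ c.ne.2.2)) k
      fun e => k (e ▸ List.mem_cons_self)]
    exact s.mid a l c'
  set ψ : V → V → V → ZMod 2 := fun z c d => if z = u then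
    Om (wd (fun a b => s.h a (r a b)) u v) (wd s.h c d) +
      (s.I u c + s.I u d + s.I v c + s.I v d + s.φ v c d)
    else if New u v c d then 0 else s.φ z c d with hψ
  have ne : ∀ {a b}, G.Adj a b → a ≠ u ∧ b ≠ u ∧ ¬New u v a b := by
    intro a b k
    have k1 : a ≠ u := fun e => hu b (e ▸ k)
    have k2 : b ≠ u := fun e => hu a (e ▸ k.symm)
    exact ⟨k1, k2, fun n => n.elim (fun n => k1 n.1) fun n => k2 n.2⟩
  have w1 : ∀ {a b}, G.Adj a b → wd (fun a b => s.h a (r a b)) a b = wd s.h a b := by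
    intro a b k
    simp only [wd, e1 _ _ (ne k).1, e1 _ _ (ne k).2.1]
  have vk : ∀ a b c d, G'.Adj a b → G.Adj c d → a ≠ c → a ≠ d → b ≠ c → b ≠ d →
      VK (fun a b => s.h a (r a b)) s.I ψ a b c d := by
    intro a b c d h1 h2 n1 n2 n3 n4
    obtain ⟨c1, c2, c3⟩ := ne h2
    show Om _ _ = _
    rw [w1 h2]
    rcases hG _ _ h1 with e | e
    · obtain ⟨d1, d2, d3⟩ := ne e
      simp only [hψ, if_neg c1, if_neg c2, if_neg c3, if_neg d1, if_neg d2, if_neg d3, w1 e]
      exact s.vk a b c d e h2 n1 n2 n3 n4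
    · have uv : v ≠ u := by
        rintro rfl
        rcases e with ⟨rfl, rfl⟩ | ⟨rfl, rfl⟩ <;> exact h1.ne rfl
      simp only [hψ, if_neg c1, if_neg c2, if_neg c3, if_pos e]
      have z := zz (s.I u c + s.I u d + s.I v c + s.I v d + s.φ v c d)
      rcases e with ⟨rfl, rfl⟩ | ⟨rfl, rfl⟩
      · rw [if_pos rfl, if_neg uv]
        linear_combination -z
      · rw [if_pos rfl, if_neg uv, wd_rev _ b a, Om_rev]
        linear_combination -z
  refine ⟨⟨fun a b => s.h a (r a b), s.own, s.I, ψ, ho, hm, ?_, s.hI, ?_⟩⟩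
  · intro w a b c a1 a2 a3
    by_cases e : w = u
    · subst e
      refine medMid ho hm w v v _ rfl ?_
      simp [nb _ a1, nb _ a2, nb _ a3]
    have ad : ∀ p, G'.Adj w p → p ≠ u → G.Adj w p := fun p k k' =>
      (hG _ _ k).resolve_right fun n => n.elim (fun n => e n.1) fun n => k' n.2
    by_cases al : a = u ∧ b = u ∧ c = u
    · refine medMid ho hm w u u _ rfl ?_
      simp [al.1, al.2.1, al.2.2]
    have ad' : ∀ p, G'.Adj w p → G.Adj w (r w p) := by
      intro p k
      by_cases k' : p = u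
      · have wv : w = v := nb _ (k' ▸ k.symm)
        rw [show r w p = w0 from if_pos ⟨wv, k'⟩, wv]
        apply hw0
        rw [← wv]
        by_contra q
        exact al ⟨by_contra fun t => q ⟨_, ad _ a1 t⟩, by_contra fun t => q ⟨_, ad _ a2 t⟩,
          by_contra fun t => q ⟨_, ad _ a3 t⟩⟩
      · rw [r1 _ _ k']
        exact ad p k k'
    by_cases inj : ∀ p ∈ [a, b, c], ∀ q ∈ [a, b, c], p ≠ q → r w p ≠ r w q
    · obtain ⟨k, hk⟩ := s.med w _ _ _ (ad' _ a1) (ad' _ a2) (ad' _ a3)
      have mm : ∀ p ∈ [a, b, c], r w p ∈ [r w a, r w b, r w c] :=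
        fun p hp => List.mem_map_of_mem (f := r w) hp
      refine ⟨fun p => k (r w p), fun p hp => hk.kown _ (mm p hp),
        fun p hp q hq hne => hk.disj _ (mm p hp) _ (mm q hq) (inj p hp q hq hne),
        fun p hp q hq => hk.eqv _ (mm p hp) _ (mm q hq), ?_⟩
      intro l c m1 m2
      obtain ⟨k', c'⟩ := av w l c
      have q1 : l.headD w ≠ u := fun e => k' (e ▸ List.mem_cons_of_mem _ c.ne.2.1)
      have q2 : l.getLastD w ≠ u := fun e => k' (e ▸ List.mem_cons_of_mem _ c.ne.2.2)
      have m1' := mm _ m1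
      have m2' := mm _ m2
      rw [r1 _ _ q1] at m1' ⊢
      rw [r1 _ _ q2] at m2' ⊢
      rw [tw_off e1 _ _ _ e (fun t => k' (List.mem_cons_of_mem _ t)) e]
      exact hk.pv l c' m1' m2'
    · simp only [not_forall, not_not] at inj
      obtain ⟨p, hp, q, hq, hne, he⟩ := inj
      refine medMid ho hm w p q _ (by rw [he]) ?_
      simp only [List.mem_cons, List.not_mem_nil, or_false] at hp hq ⊢
      grind
  · intro a b c d h1 h2 n1 n2 n3 n4
    rcases hG _ _ h2 with e | e
    · exact vk a b c d h1 e n1 n2 n3 n4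
    · have e' : G.Adj a b := by
        refine (hG _ _ h1).resolve_right fun n => ?_
        unfold New at n e
        grind
      exact VK.swap s.hI n1 n2 n3 n4 (vk c d a b h2 e' n1.symm n3.symm n2.symm n4.symm)

end Pool.Agent.Lib.MP_1f96ff_gt.K
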