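import Pool.Agent.Lib.MP_1f96ff_gt.K.Bridge
import Pool.Agent.Lib.MP_1f96ff_gt.K.Pend
import Pool.Agent.Lib.MP_1f96ff_gt.Sem

/- The graphs with an abstract knotless diagram have the closure properties of the search. -/

set_option autoImplicit false

namespace Pool.Agent.Lib.MP_1f96ff_gt.K

theorem KK.pull {V V' : Type} {G : SimpleGraph V} {G' : SimpleGraph V'} (f : V' → V)
    (hf : Function.Injective f) (ha : ∀ a b, G'.Adj a b → G.Adj (f a) (f b)) (h : KK G) :
    KK G' := by
  rcases isEmpty_or_nonempty V' with e | e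
  · exact ⟨Empty, ⟨⟨fun a => e.elim a, fun x => x.1.elim, fun a => e.elim a, fun a => e.elim a,
      fun a => e.elim a, fun a => e.elim a, fun a => e.elim a, fun a => e.elim a,
      fun a => e.elim a⟩⟩⟩
  · obtain ⟨X, h⟩ := h
    exact ⟨X, h.pull f hf ha⟩

theorem new_of {V : Type} {G : SimpleGraph V} {y z a b : V}
    (h : (G ⊔ SimpleGraph.edge y z).Adj a b) : G.Adj a b ∨ New y z a b := by
  rw [SimpleGraph.sup_adj, SimpleGraph.edge_adj] at h
  exact h.imp_right And.left

/-- The closure properties. -/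
theorem ki : KI fun _ G => KK G := by
  refine ⟨fun G H f hf ha h => h.pull f hf ha, ?_, ?_, ?_⟩
  · rintro n G H p a hp hH ⟨X, h⟩
    refine ⟨X, h.contr hp.symm fun x y k => ⟨(hH x y k).1, (hH y x k.symm).1, ?_⟩⟩
    exact (hH x y k).2.imp_right (Or.imp_right fun t => ⟨t.1, t.2.symm⟩)
  · rintro n G x y z hy hz hd ⟨X, h⟩
    classical
    by_cases e4 : y = z
    · subst e4
      rw [SimpleGraph.edge_self_eq_bot, sup_bot_eq]
      exact ⟨X, h⟩
    obtain ⟨t, ht⟩ : ∃ t, ∀ w, G.Adj x w → w ∈ [y, z, t] := by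
      by_cases e : ∃ t, G.Adj x t ∧ t ≠ y ∧ t ≠ z
      · obtain ⟨t, e1, e2, e3⟩ := e
        refine ⟨t, fun w hw => by_contra fun k => ?_⟩
        simp only [List.mem_cons, List.not_mem_nil, or_false, not_or] at k
        have : ({y, z, t, w} : Finset (Fin n)) ⊆ Finset.univ.filter fun y => G.Adj x y := by
          intro q hq
          simp only [Finset.mem_insert, Finset.mem_singleton] at hq
          rcases hq with rfl | rfl | rfl | rfl <;> simpa
        have c := Finset.card_le_card this
        rw [Finset.card_eq_four.2 ⟨y, z, t, w, e4, e2.symm, Ne.symm k.1, e3.symm, Ne.symm k.2.1,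
          Ne.symm k.2.2, rfl⟩] at c
        unfold dg at hd
        convert absurd (c.trans (by convert hd)) (by norm_num : ¬4 ≤ 3)
      · refine ⟨y, fun w hw => by_contra fun k => e ⟨w, hw, ?_⟩⟩
        simp only [List.mem_cons, List.not_mem_nil, or_false, not_or] at k
        exact ⟨k.1, k.2.1⟩
    exact ⟨X, h.addE (fun _ _ => new_of) ht hy hz⟩
  · rintro n G u v hu ⟨X, h⟩
    exact ⟨X, h.pend (fun _ _ => new_of) hu⟩

end Pool.Agent.Lib.MP_1f96ff_gt.K
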