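import Pool.Agent.Lib.MP_1f96ff_gt.K.Fast
import Pool.Agent.Lib.MP_1f96ff_gt.K.Inst

/- Certificates in pieces, and the transfer to graphs on `Fin p`. -/

set_option autoImplicit false

namespace Pool.Agent.Lib.MP_1f96ff_gt.K

open Classical in
/-- Isolated vertices can be added. -/
theorem KG.push {V X : Type} [Nonempty V] {G : SimpleGraph V} {G' : SimpleGraph ℕ} (ι : V → ℕ)
    (hi : Function.Injective ι) (ha : ∀ a b, G'.Adj a b → ∃ p q, a = ι p ∧ b = ι q ∧ G.Adj p q)
    (hG : KG X G) : KG X G' := by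
  obtain ⟨s⟩ := hG
  set f := Function.invFun ι with hf
  have fi : ∀ a, f (ι a) = a := Function.leftInverse_invFun hi
  set h' : ℕ → ℕ → List (X × Bool) := fun a b => if ∃ p, a = ι p then s.h (f a) (f b) else []
    with hh
  have e1 : (fun a b => h' (ι a) (ι b)) = s.h := by
    funext a b
    simp only [hh, fi]
    exact if_pos ⟨a, rfl⟩
  have e2 : ∀ a b, h' (ι a) (ι b) = s.h a b := fun a b => congrFun (congrFun e1 a) b
  have ad : ∀ p q, G'.Adj (ι p) (ι q) → G.Adj p q := by
    intro p q k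
    obtain ⟨p', q', k1, k2, k3⟩ := ha _ _ k
    rwa [hi k1, hi k2]
  have hl : ∀ (l : List V) (a : V), (l.map ι).getLastD (ι a) = ι (l.getLastD a) := by
    intro l
    induction l with
    | nil => intro a; rfl
    | cons z l ih => intro a; simp only [List.map_cons, List.getLastD_cons, ih]
  have hd : ∀ (l : List V) (a : V), (l.map ι).headD (ι a) = ι (l.headD a) := by
    intro l a
    cases l <;> rfl
  have cy : ∀ a l, Cyc G' a l → ∃ a0 l0, a = ι a0 ∧ l = l0.map ι ∧ Cyc G a0 l0 := by
    intro a l c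
    have m : ∀ z ∈ a :: l, ι (f z) = z := by
      intro z hz
      obtain ⟨y, k⟩ := c.adj z hz
      obtain ⟨p, -, rfl, -⟩ := ha _ _ k
      rw [fi]
    have k1 := (m a List.mem_cons_self).symm
    have k2 : l = (l.map f).map ι := by
      rw [List.map_map]
      conv_lhs => rw [← List.map_id l]
      exact List.map_congr_left fun z hz => (m z (List.mem_cons_of_mem _ hz)).symm
    refine ⟨f a, l.map f, k1, k2, ?_⟩
    rw [k1, k2] at c
    refine ⟨List.Nodup.of_map ι c.1, by simpa using c.2.1, ?_⟩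
    have := c.2.2
    rw [← List.map_singleton, ← List.map_append, ← List.map_cons, List.isChain_map] at this
    exact this.imp fun _ _ => ad _ _
  refine ⟨⟨h', fun x => ι (s.own x), fun p q => if (∃ a, p = ι a) ∧ ∃ a, q = ι a then
    s.I (f p) (f q) else if p < q then 1 else 0, fun a b c => s.φ (f a) (f b) (f c),
    ?_, ?_, ?_, ?_, ?_⟩⟩
  · intro a b x hx
    simp only [hh] at hx
    split_ifs at hx with k
    · obtain ⟨p, rfl⟩ := k
      rw [s.hown _ _ _ hx, fi]
    · simp at hx
  · intro a l c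
    obtain ⟨a, l, rfl, rfl, c'⟩ := cy a l c
    rw [hl, ← List.map_cons, ← tw_map, e1]
    exact s.mid a l c'
  · intro u a b c h1 h2 h3
    obtain ⟨u, a, rfl, rfl, g1⟩ := ha _ _ h1
    obtain ⟨_, b, -, rfl, -⟩ := ha _ _ h2
    obtain ⟨_, c, -, rfl, -⟩ := ha _ _ h3
    obtain ⟨k, hk⟩ := s.med u a b c g1 (ad _ _ h2) (ad _ _ h3)
    have m : ∀ p ∈ [ι a, ι b, ι c], ∃ q ∈ [a, b, c], ι q = p := fun p hp =>
      List.mem_map.1 (show p ∈ [a, b, c].map ι from hp)
    refine ⟨fun p => k (f p), ?_, ?_, ?_, ?_⟩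
    · intro p hp x hx
      obtain ⟨p, gp, rfl⟩ := m p hp
      rw [fi] at hx
      rw [hk.kown p gp x hx]
    · intro p hp q hq hne
      obtain ⟨p, gp, rfl⟩ := m p hp
      obtain ⟨q, gq, rfl⟩ := m q hq
      rw [fi, fi]
      exact hk.disj p gp q gq fun e => hne (e ▸ rfl)
    · intro p hp q hq
      obtain ⟨p, gp, rfl⟩ := m p hp
      obtain ⟨q, gq, rfl⟩ := m q hq
      simp only [fi, tau, e2]
      exact hk.eqv p gp q gq
    · intro l c m1 m2
      obtain ⟨u', l, e, rfl, c'⟩ := cy _ l c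
      obtain rfl := hi e
      rw [hd] at m1 ⊢
      rw [hl] at m2 ⊢
      obtain ⟨p, hp, e1'⟩ := m _ m1
      obtain ⟨q, hq, e2'⟩ := m _ m2
      rw [fi, fi, ← tw_map, e1]
      exact hk.pv l c' (hi e1' ▸ hp) (hi e2' ▸ hq)
  · intro p q hne
    by_cases k : (∃ a, p = ι a) ∧ ∃ a, q = ι a
    · rw [if_pos k, if_pos k.symm]
      obtain ⟨⟨p, rfl⟩, q, rfl⟩ := k
      rw [fi, fi]
      exact s.hI _ _ fun e => hne (e ▸ rfl)
    · have k' : ¬((∃ a, q = ι a) ∧ ∃ a, p = ι a) := fun e => k e.symm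
      rw [if_neg k, if_neg k']
      rcases lt_or_gt_of_ne hne with l | l <;> simp [l, l.not_gt]
  · intro a b c d h1 h2 n1 n2 n3 n4
    obtain ⟨a, b, rfl, rfl, g1⟩ := ha _ _ h1
    obtain ⟨c, d, rfl, rfl, g2⟩ := ha _ _ h2
    have t : ∀ p q : V, (∃ a, ι p = ι a) ∧ ∃ a, ι q = ι a := fun p q => ⟨⟨p, rfl⟩, q, rfl⟩
    simp only [wd, e2, if_pos (t _ _), fi]
    exact s.vk a b c d g1 g2 (fun e => n1 (e ▸ rfl)) (fun e => n2 (e ▸ rfl))
      (fun e => n3 (e ▸ rfl)) fun e => n4 (e ▸ rfl)

noncomputable def f1 (n : ℕ) : ℕ := formF (dec (Nat.shiftRight n 1)).E3 (dec (Nat.shiftRight n 1)).E1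

noncomputable def f2 (n : ℕ) : ℕ := formF (dec (Nat.shiftRight n 1)).E2 (dec (Nat.shiftRight n 1)).E4

/-- The equations collected along a path of the proof tree. -/
noncomputable def esOf (p : List (ℕ × Bool)) : List ℕ :=
  List.rec (motive := fun _ => List ℕ) [] (fun n _ ih => Bool.rec (motive := fun _ => List ℕ)
    (f1 n.1 :: ih) (f2 n.1 :: Nat.xor (f1 n.1) 1 :: ih) n.2) p

/-- The equations of the path `p` have no solution. -/
def Dead (A : ℕ) (p : List (ℕ × Bool)) : Prop :=
  ∀ (X : Type) (s : KS X (gr A)), (∀ z a b, s.φ z a b = s.φ z b a) →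
    ¬∀ e ∈ esOf p, ev (yy s) e = 0

/-- Reads one proof tree with holes from the data, then passes the rest on. -/
noncomputable def chkH (A : ℕ) (H : List (List (ℕ × Bool))) (k : ℕ) :
    List (ℕ × Bool) → List ℕ → (List ℕ → Bool) → Bool :=
  Nat.rec (motive := fun _ => List (ℕ × Bool) → List ℕ → (List ℕ → Bool) → Bool)
    (fun _ _ _ => false) (fun _ ih p d c => List.rec (motive := fun _ => Bool) false (fun n d _ =>
      Bool.rec (motive := fun _ => Bool)
        (Bool.rec (motive := fun _ => Bool) false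
          (ih ((n, false) :: p) d fun d' => ih ((n, true) :: p) d' c)
          (Nat.beq (errM A (dec (Nat.shiftRight n 1))) 0))
        (Bool.rec (motive := fun _ => Bool) false (c d)
          (Bool.rec (motive := fun _ => Bool) (decide (p ∈ H)) true
            (Nat.beq (xorF (esOf p) (Nat.shiftRight n 1)) 1)))
        (Nat.beq (Nat.land n 1) 0)) d) k

theorem brec {a c : Bool} (h : Bool.rec (motive := fun _ => Bool) false a c = true) :
    c = true ∧ a = true := by
  cases c
  exacts [absurd h (by simp), ⟨rfl, h⟩]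

theorem chkH_sound {A : ℕ} {H : List (List (ℕ × Bool))} (hH : ∀ q ∈ H, Dead A q) (k : ℕ)
    (p : List (ℕ × Bool)) (d : List ℕ) (c : List ℕ → Bool) (h : chkH A H k p d c = true) :
    Dead A p ∧ ∃ d', c d' = true := by
  induction k generalizing p d c with
  | zero => cases h
  | succ k ih =>
    cases d with
    | nil => cases h
    | cons n d =>
      have h : Bool.rec (motive := fun _ => Bool)
        (Bool.rec (motive := fun _ => Bool) false
          (chkH A H k ((n, false) :: p) d fun d' => chkH A H k ((n, true) :: p) d' c)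
          (Nat.beq (errM A (dec (Nat.shiftRight n 1))) 0))
        (Bool.rec (motive := fun _ => Bool) false (c d)
          (Bool.rec (motive := fun _ => Bool) (decide (p ∈ H)) true
            (Nat.beq (xorF (esOf p) (Nat.shiftRight n 1)) 1)))
        (Nat.beq (Nat.land n 1) 0) = true := h
      revert h
      cases Nat.beq (Nat.land n 1) 0 <;> intro h <;> obtain ⟨h1, h2⟩ := brec h
      · obtain ⟨k1, d', k2⟩ := ih _ _ _ h2
        obtain ⟨k2, k3⟩ := ih _ _ _ k2
        refine ⟨fun X s hs he => ?_, k3⟩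
        have one : ev (yy s) 1 = 1 := ev_pow (i := 0) _ (by norm_num)
        have key := errM_sound s hs (Nat.eq_of_beq_eq_true h1)
        rw [← formF_eq, ← formF_eq] at key
        by_cases e : ev (yy s) (f1 n) = 0
        · exact k1 X s hs (List.forall_mem_cons.2 ⟨e, he⟩)
        · have e1 : ∀ a : ZMod 2, a ≠ 0 → a = 1 := by decide
          refine k2 X s hs (List.forall_mem_cons.2 ⟨?_, List.forall_mem_cons.2 ⟨?_, he⟩⟩)
          · exact (mul_eq_zero.1 key).resolve_left e
          · show ev _ (f1 n ^^^ 1) = 0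
            rw [ev_xor, e1 _ e, one]
            rfl
      · refine ⟨fun X s hs he => ?_, d, h2⟩
        have one : ev (yy s) 1 = 1 := ev_pow (i := 0) _ (by norm_num)
        revert h1
        cases e : Nat.beq (xorF (esOf p) (Nat.shiftRight n 1)) 1 <;> intro h1
        · exact hH p (of_decide_eq_true h1) X s hs he
        · have := ev_xorF _ _ (Nat.shiftRight n 1) he
          rw [Nat.eq_of_beq_eq_true e, one] at this
          exact absurd this (by decide)

theorem dead {A : ℕ} {H : List (List (ℕ × Bool))} {p : List (ℕ × Bool)} (d : List ℕ)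
    (hH : ∀ q ∈ H, Dead A q) (h : chkH A H 1000 p d (fun _ => true) = true) : Dead A p :=
  (chkH_sound hH _ _ _ _ h).1

theorem dnil {A : ℕ} : ∀ q ∈ ([] : List (List (ℕ × Bool))), Dead A q := by simp

theorem dcons {A : ℕ} {p : List (ℕ × Bool)} {H : List (List (ℕ × Bool))} (h : Dead A p)
    (hH : ∀ q ∈ H, Dead A q) :
    ∀ q ∈ p :: H, Dead A q := List.forall_mem_cons.2 ⟨h, hH⟩

/-- The bits of `A` are edges of `Gr p M`. -/
def inB (p M A : ℕ) : Bool :=
  (List.range 16).all fun a => (List.range 16).all fun b => !(A.testBit (16 * a + b)) ||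
    (Nat.blt a p && Nat.blt b p && (M.testBit (16 * a + b) || M.testBit (16 * b + a)))

theorem root_of {e A : ℕ} (h : Dead A []) (h' : (Nat.blt 0 (e >>> 208) && inB (e >>> 208) e A) = true) :
    0 < e >>> 208 ∧ ¬KK (Gr (e >>> 208) e) := by
  simp only [inB, Bool.and_eq_true, Nat.blt_eq, List.all_eq_true, List.mem_range,
    Bool.or_eq_true, Bool.not_eq_true'] at h'
  obtain ⟨h0, h1⟩ := h'
  refine ⟨h0, fun ⟨X, k⟩ => ?_⟩
  have : Nonempty (Fin (e >>> 208)) := ⟨⟨0, h0⟩⟩
  obtain ⟨s0⟩ : KG X (gr A) := by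
    refine k.push Fin.val Fin.val_injective ?_
    rintro a b ⟨n, ha, hb, t⟩
    have : (a < e >>> 208 ∧ b < e >>> 208) ∧
        (e.testBit (16 * a + b) = true ∨ e.testBit (16 * b + a) = true) := by
      rcases t with t | t
      · exact (h1 a ha b hb).resolve_left (by simp [t])
      · have := (h1 b hb a ha).resolve_left (by simp [t])
        exact ⟨this.1.symm, this.2.symm⟩
    exact ⟨⟨a, this.1.1⟩, ⟨b, this.1.2⟩, rfl, rfl, fun q => n (congrArg Fin.val q), this.2⟩
  obtain ⟨s, -, hs⟩ := s0.sym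
  exact h X s hs (fun _ k => nomatch k)

end Pool.Agent.Lib.MP_1f96ff_gt.K
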