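import Pool.Agent.Lib.MP_1f96ff_gt.K.Defs

/- Abstract knotless diagrams survive the contraction of an edge. -/

set_option autoImplicit false

namespace Pool.Agent.Lib.MP_1f96ff_gt.K

open Classical

variable {V X : Type}

theorem chain_last {R : V → V → Prop} (a : V) (l : List V) (b : V)
    (h : List.IsChain R (a :: (l ++ [b]))) : R (l.getLastD a) b := by
  induction l generalizing a with
  | nil => simpa using h
  | cons z l ih =>
    rw [List.cons_append, List.isChain_cons_cons] at h
    rw [List.getLastD_cons]
    exact ih z h.2

theorem chain_head {R : V → V → Prop} (a : V) (l : List V) (b : V)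
    (h : List.IsChain R (a :: (l ++ [b]))) : R a (l.headD b) := by
  cases l with
  | nil => simpa using h
  | cons z l =>
    rw [List.cons_append, List.isChain_cons_cons] at h
    exact h.1

theorem chain_mem {R : V → V → Prop} (a : V) (l : List V) (b : V)
    (h : List.IsChain R (a :: (l ++ [b]))) : ∀ z ∈ l, ∃ y, R z y := by
  induction l generalizing a with
  | nil => simp
  | cons z l ih =>
    rw [List.cons_append, List.isChain_cons_cons] at h
    intro y hy
    rcases List.mem_cons.1 hy with rfl | hy
    · exact ⟨_, chain_head _ _ _ h.2⟩
    · exact ih z h.2 y hy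

theorem chain_snoc {R : V → V → Prop} (a : V) (l : List V) (b c : V)
    (h : List.IsChain R (a :: (l ++ [b]))) (hc : R b c) :
    List.IsChain R (a :: ((l ++ [b]) ++ [c])) := by
  induction l generalizing a with
  | nil =>
    simp only [List.nil_append, List.cons_append, List.isChain_cons_cons] at h ⊢
    exact ⟨h.1, hc, List.isChain_singleton _⟩
  | cons z l ih =>
    simp only [List.cons_append, List.isChain_cons_cons] at h ⊢
    exact ⟨h.1, ih z h.2⟩

theorem Cyc.ne {G : SimpleGraph V} {a : V} {l : List V} (c : Cyc G a l) :
    l.headD a ≠ l.getLastD a ∧ l.headD a ∈ l ∧ l.getLastD a ∈ l := by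
  obtain ⟨h1, h2, -⟩ := c
  rcases l with _ | ⟨p, _ | ⟨q, l⟩⟩
  · simp at h2
  · simp at h2
  · have hm : (q :: l).getLastD p ∈ q :: l := by
      rw [List.getLastD_cons]
      exact List.getLastD_mem_cons
    refine ⟨?_, List.mem_cons_self, ?_⟩
    · rw [List.getLastD_cons]
      intro e
      have := (List.nodup_cons.1 (List.nodup_cons.1 h1).2).1
      exact this (by rw [List.headD_cons] at e; rw [e]; exact hm)
    · rw [List.getLastD_cons]
      exact List.mem_cons_of_mem _ hm

/-- The van Kampen condition for one pair of edges. -/
def VK (h : V → V → List (X × Bool)) (I : V → V → ZMod 2) (φ : V → V → V → ZMod 2)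
    (a b c d : V) : Prop :=
  om (wd h a b) (wd h c d) + om (wd h c d) (wd h a b) =
    I a c + I a d + I b c + I b d + φ a c d + φ b c d + φ c a b + φ d a b

theorem VK.swap {h : V → V → List (X × Bool)} {I : V → V → ZMod 2} {φ : V → V → V → ZMod 2}
    (hI : ∀ p q, p ≠ q → I p q + I q p = 1) {a b c d : V} (n1 : a ≠ c) (n2 : a ≠ d)
    (n3 : b ≠ c) (n4 : b ≠ d) (k : VK h I φ c d a b) : VK h I φ a b c d := by
  unfold VK at k ⊢
  have e1 := hI _ _ n1
  have e2 := hI _ _ n2
  have e3 := hI _ _ n3
  have e4 := hI _ _ n4
  have z1 := zz (I a c + I a d + I b c + I b d)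
  have z2 := zz (1 : ZMod 2)
  linear_combination k + e1 + e2 + e3 + e4 - z1 + 2 * z2

section
variable (G : SimpleGraph V) (u v : V) (h : V → V → List (X × Bool))

noncomputable def rho (y : V) : V := if G.Adj u y then u else v

noncomputable def tg (a b : V) : V := if b = u then rho G u v a else b

noncomputable def pre (b : V) : List (X × Bool) := if rho G u v b = u then [] else wd h u v

noncomputable def hc (a b : V) : List (X × Bool) :=
  if a = u then pre G u v h b ++ h (rho G u v b) b else if a = v then [] else h a (tg G u v a b)

noncomputable def seg (p q : V) : List V :=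
  if rho G u v p = rho G u v q then [rho G u v p] else [rho G u v p, rho G u v q]

noncomputable def lift : V → List V → V → List V
  | _, [], _ => []
  | p, z :: l, q => (if z = u then seg G u v p (l.headD q) else [z]) ++ lift z l q

end

section
variable {G G' : SimpleGraph V} {u v : V} (h : V → V → List (X × Bool))

theorem rho_cases (y : V) : rho G u v y = u ∨ rho G u v y = v := by
  unfold rho
  split_ifs <;> simp

theorem tau_hc_u (huv : u ≠ v) (p q : V) :
    Eqv (tau (hc G u v h) p u q) (tw h p (seg G u v p q) q) := by
  have hvu := huv.symm
  rcases rho_cases (G := G) (u := u) (v := v) p with e1 | e1 <;>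
    rcases rho_cases (G := G) (u := u) (v := v) q with e2 | e2
  · simp [tau, hc, pre, seg, e1, e2, tw, Eqv.rfl']
  · simp [tau, hc, pre, seg, e1, e2, tw, Eqv.rfl', huv, hvu, wd]
  · simp [tau, hc, pre, seg, e1, e2, tw, Eqv.rfl', hvu, wd]
  · have := Eqv.cancel' (h v p).reverse (wd h u v) (h v q)
    simpa [tau, hc, pre, seg, e1, e2, tw, huv, hvu] using this

theorem tau_hc_ne {z : V} (h1 : z ≠ u) (h2 : z ≠ v) (p q : V) :
    tau (hc G u v h) p z q = tau h (tg G u v z p) z (tg G u v z q) := by
  simp [tau, hc, h1, h2]

variable (huv : G.Adj u v) (hG : ∀ a b, G'.Adj a b →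
    a ≠ v ∧ b ≠ v ∧ (G.Adj a b ∨ (a = u ∧ G.Adj v b) ∨ (b = u ∧ G.Adj a v)))

include hG in
theorem adj_rho {y : V} (hy : G'.Adj u y) : G.Adj (rho G u v y) y := by
  unfold rho
  split_ifs with h1
  · exact h1
  · rcases (hG _ _ hy).2.2 with e | e | e
    · exact absurd e h1
    · exact e.2
    · exact absurd e.1 hy.ne'

include hG in
theorem adj_tg {p q : V} (hy : G'.Adj p q) : G.Adj (tg G u v q p) (tg G u v p q) := by
  unfold tg
  by_cases e1 : p = u
  · subst e1
    rw [if_pos rfl, if_neg hy.ne']
    exact adj_rho hG hy
  · by_cases e2 : q = u
    · subst e2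
      rw [if_pos rfl, if_neg e1]
      exact (adj_rho hG hy.symm).symm
    · rw [if_neg e1, if_neg e2]
      rcases (hG _ _ hy).2.2 with e | e | e
      · exact e
      · exact absurd e.1 e1
      · exact absurd e.1 e2

theorem lift_head (p : V) (l : List V) (q : V) :
    (lift G u v p l q).headD (tg G u v (l.getLastD p) q) = tg G u v p (l.headD q) := by
  cases l with
  | nil => rfl
  | cons z l =>
    by_cases e : z = u
    · simp only [lift, e, if_true, seg, tg, List.headD_cons]
      split_ifs <;> rfl
    · simp [lift, e, tg]

theorem lift_last (p : V) (l : List V) (q : V) :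
    (lift G u v p l q).getLastD (tg G u v (l.headD q) p) = tg G u v q (l.getLastD p) := by
  induction l generalizing p with
  | nil => rfl
  | cons z l ih =>
    rw [List.getLastD_cons, ← ih z]
    by_cases e : z = u
    · have t : tg G u v (l.headD q) z = rho G u v (l.headD q) := if_pos e
      rw [t]
      simp only [lift, if_pos e, seg]
      split_ifs with h1
      · simp only [List.cons_append, List.nil_append, List.getLastD_cons, h1]
      · simp only [List.cons_append, List.nil_append, List.getLastD_cons]
    · have t : tg G u v (l.headD q) z = z := if_neg e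
      rw [t]
      simp only [lift, if_neg e, List.cons_append, List.nil_append, List.getLastD_cons]

include huv hG in
theorem lift_main (p : V) (l : List V) (q : V) (c : List.IsChain G'.Adj (p :: (l ++ [q]))) :
    Eqv (tw (hc G u v h) p l q)
      (tw h (tg G u v (l.headD q) p) (lift G u v p l q) (tg G u v (l.getLastD p) q)) ∧
    List.IsChain G.Adj (tg G u v (l.headD q) p ::
      (lift G u v p l q ++ [tg G u v (l.getLastD p) q])) := by
  induction l generalizing p with
  | nil =>
    refine ⟨Eqv.rfl' _, ?_⟩
    simp only [List.nil_append, List.isChain_cons_cons] at c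
    simp only [lift, List.nil_append, List.isChain_cons_cons]
    exact ⟨adj_tg hG c.1, List.isChain_singleton _⟩
  | cons z l ih =>
    rw [List.cons_append, List.isChain_cons_cons] at c
    obtain ⟨i1, i2⟩ := ih z c.2
    have hy := chain_head _ _ _ c.2
    have hh := lift_head (G := G) (u := u) (v := v) z l q
    rw [List.getLastD_cons, List.headD_cons]
    by_cases e : z = u
    · subst e
      have t1 : tg G z v z p = p := if_neg c.1.ne
      have t2 : tg G z v z (l.headD q) = l.headD q := if_neg hy.ne'
      have t3 : tg G z v (l.headD q) z = rho G z v (l.headD q) := if_pos rfl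
      rw [t3] at i1 i2
      rw [t2] at hh
      have a1 := adj_rho hG c.1.symm
      simp only [lift, if_true, t1]
      constructor
      · rw [tw_append, hh]
        have : (seg G z v p (l.headD q)).getLastD p = rho G z v (l.headD q) := by
          unfold seg
          split_ifs with h1 <;> simp [h1]
        rw [this]
        exact (tau_hc_u h huv.ne p _).append i1
      · unfold seg
        split_ifs with h1
        · rw [List.cons_append, List.cons_append, List.isChain_cons_cons]
          refine ⟨a1.symm, ?_⟩
          rw [h1]
          exact i2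
        · simp only [List.cons_append, List.isChain_cons_cons]
          refine ⟨a1.symm, ?_, i2⟩
          rcases rho_cases (G := G) (u := z) (v := v) p with e1 | e1 <;>
            rcases rho_cases (G := G) (u := z) (v := v) (l.headD q) with e2 | e2 <;>
            rw [e1, e2] at h1 ⊢
          · exact absurd rfl h1
          · exact huv
          · exact huv.symm
          · exact absurd rfl h1
    · have t3 : tg G u v (l.headD q) z = z := if_neg e
      rw [t3] at i1 i2
      simp only [lift, if_neg e, List.cons_append, List.nil_append, tw, hh]
      constructor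
      · rw [tau_hc_ne h e (hG _ _ c.1).2.1]
        exact (Eqv.rfl' _).append i1
      · rw [List.isChain_cons_cons]
        refine ⟨?_, i2⟩
        have := adj_tg hG c.1
        rwa [show tg G u v p z = z from if_neg e] at this

theorem lift_mem (p : V) (l : List V) (q : V) :
    ∀ x ∈ lift G u v p l q, (x ∈ l ∧ x ≠ u) ∨ (u ∈ l ∧ (x = u ∨ x = v)) := by
  induction l generalizing p with
  | nil => simp [lift]
  | cons z l ih =>
    intro x hx
    rcases List.mem_append.1 hx with hx | hx
    · by_cases e : z = u
      · right
        refine ⟨e ▸ List.mem_cons_self, ?_⟩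
        rw [if_pos e] at hx
        unfold seg at hx
        split_ifs at hx
        · rw [List.mem_singleton.1 hx]
          exact rho_cases _
        · rcases List.mem_pair.1 hx with hx | hx <;> rw [hx] <;> exact rho_cases _
      · rw [if_neg e] at hx
        rw [List.mem_singleton.1 hx]
        exact Or.inl ⟨List.mem_cons_self, e⟩
    · rcases ih z x hx with h1 | h1
      · exact Or.inl ⟨List.mem_cons_of_mem _ h1.1, h1.2⟩
      · exact Or.inr ⟨List.mem_cons_of_mem _ h1.1, h1.2⟩

theorem lift_nodup (p : V) (l : List V) (q : V) (hn : l.Nodup) (hv : v ∉ l) :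
    (lift G u v p l q).Nodup := by
  induction l generalizing p with
  | nil => simp [lift]
  | cons z l ih =>
    rw [List.nodup_cons] at hn
    have hv' : v ∉ l := fun e => hv (List.mem_cons_of_mem _ e)
    have hz : z ≠ v := fun e => hv (e ▸ List.mem_cons_self)
    simp only [lift]
    rw [List.nodup_append]
    refine ⟨?_, ih z hn.2 hv', ?_⟩
    · split_ifs
      · unfold seg
        split_ifs with h1
        · simp
        · simpa using h1
      · simp
    · intro x hx y hy e
      subst e
      have := lift_mem (G := G) (u := u) (v := v) p [z] (l.headD q) x (by simpa [lift] using hx)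
      rcases this with h1 | h1 <;> rcases lift_mem z l q x hy with h2 | h2
      · exact hn.1 (List.mem_singleton.1 h1.1 ▸ h2.1)
      · rcases h2.2 with e | e
        · exact h1.2 e
        · exact hz ((List.mem_singleton.1 h1.1).symm.trans e)
      · rcases h1.2 with e | e
        · exact h2.2 e
        · exact hv' (e ▸ h2.1)
      · exact hn.1 (List.mem_singleton.1 h1.1 ▸ h2.1)

theorem lift_len (p : V) (l : List V) (q : V) : l.length ≤ (lift G u v p l q).length := by
  induction l generalizing p with
  | nil => simp
  | cons z l ih =>
    have := ih z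
    simp only [lift, List.length_append, List.length_cons]
    split_ifs
    · unfold seg
      split_ifs <;> simp <;> omega
    · simp
      omega

theorem lift_id (p : V) (l : List V) (q : V) (hu : u ∉ l) : lift G u v p l q = l := by
  induction l generalizing p with
  | nil => rfl
  | cons z l ih =>
    have : z ≠ u := fun e => hu (e ▸ List.mem_cons_self)
    simp only [lift, if_neg this, ih z fun e => hu (List.mem_cons_of_mem _ e)]
    rfl

end

end Pool.Agent.Lib.MP_1f96ff_gt.K
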