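import Pool.Agent.Lib.MP_1f96ff_gt.K.Contr

/- Abstract knotless diagrams survive the contraction of an edge: the theorem. -/

set_option autoImplicit false

namespace Pool.Agent.Lib.MP_1f96ff_gt.K

open Classical

variable {V X : Type} {G G' : SimpleGraph V} {u v : V}

theorem Cyc.chain' {a : V} {l : List V} (c : Cyc G a l) :
    List.IsChain G.Adj (l.getLastD a :: ((a :: l) ++ [a])) := by
  rw [List.cons_append, List.isChain_cons_cons]
  exact ⟨chain_last _ _ _ c.2.2, c.2.2⟩

theorem Cyc.adj {a : V} {l : List V} (c : Cyc G a l) : ∀ z ∈ a :: l, ∃ y, G.Adj z y :=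
  chain_mem _ _ _ c.chain'

theorem majority (f : V → Prop) (a b c : V) :
    (∀ p ∈ [a, b, c], ∀ q ∈ [a, b, c], f p → f q → p = q) ∨
      (∀ p ∈ [a, b, c], ∀ q ∈ [a, b, c], ¬f p → ¬f q → p = q) := by
  by_cases h1 : f a <;> by_cases h2 : f b <;> by_cases h3 : f c <;> simp [h1, h2, h3]

section
variable (s : KS X G) (huv : G.Adj u v) (hG : ∀ a b, G'.Adj a b →
    a ≠ v ∧ b ≠ v ∧ (G.Adj a b ∨ (a = u ∧ G.Adj v b) ∨ (b = u ∧ G.Adj a v)))

include huv hG

theorem contr_mid (a : V) (l : List V) (c : Cyc G' a l) :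
    PV (tw (hc G u v s.h) (l.getLastD a) (a :: l) a) = 0 := by
  obtain ⟨e1, e2⟩ := lift_main s.h huv hG _ _ _ c.chain'
  have hh := lift_head (G := G) (u := u) (v := v) (l.getLastD a) (a :: l) a
  have hl := lift_last (G := G) (u := u) (v := v) (l.getLastD a) (a :: l) a
  have hn := lift_nodup (G := G) (u := u) (v := v) (l.getLastD a) (a :: l) a c.1
    fun hv => by
      obtain ⟨y, hy⟩ := c.adj v hv
      exact (hG _ _ hy).1 rfl
  have hlen := lift_len (G := G) (u := u) (v := v) (l.getLastD a) (a :: l) a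
  rw [e1.pv]
  rw [List.getLastD_cons, List.headD_cons] at *
  have h2 := c.2.1
  cases hL : lift G u v (l.getLastD a) (a :: l) a with
  | nil => rfl
  | cons a' l' =>
    rw [hL] at e2 hh hl hn hlen
    rw [List.headD_cons] at hh
    rw [List.getLastD_cons] at hl
    rw [← hh, ← hl]
    rw [← hh, List.cons_append, List.isChain_cons_cons] at e2
    simp only [List.length_cons] at hlen
    exact s.mid a' l' ⟨hn, by omega, e2.2⟩

theorem contr_med_ne (w a b c : V) (hw : w ≠ u) (h1 : G'.Adj w a) (h2 : G'.Adj w b)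
    (h3 : G'.Adj w c) :
    ∃ k, Med G' (hc G u v s.h) (fun x => if s.own x = v then u else s.own x) w [a, b, c] k := by
  have t : ∀ p, tg G u v p w = w := fun p => if_neg hw
  have ad : ∀ p, G'.Adj w p → G.Adj w (tg G u v w p) := fun p hp => by
    have := adj_tg hG hp
    rwa [t] at this
  have hwv := (hG _ _ h1).1
  obtain ⟨k, hk⟩ := s.med w _ _ _ (ad _ h1) (ad _ h2) (ad _ h3)
  have hm : ∀ p ∈ [a, b, c], tg G u v w p ∈ [tg G u v w a, tg G u v w b, tg G u v w c] :=
    fun p hp => List.mem_map_of_mem (f := tg G u v w) hp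
  have hv : ∀ p ∈ [a, b, c], p ≠ v := by
    intro p hp
    simp only [List.mem_cons, List.not_mem_nil, or_false] at hp
    rcases hp with rfl | rfl | rfl
    exacts [(hG _ _ h1).2.1, (hG _ _ h2).2.1, (hG _ _ h3).2.1]
  refine ⟨fun p => k (tg G u v w p), ?_, ?_, ?_, ?_⟩
  · intro p hp x hx
    rw [hk.kown _ (hm p hp) _ hx, if_neg hwv]
  · intro p hp q hq hne
    apply hk.disj _ (hm p hp) _ (hm q hq)
    have r := rho_cases (G := G) (u := u) (v := v) w
    unfold tg
    split_ifs with e1 e2 e2
    · exact absurd (e1.trans e2.symm) hne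
    · rcases r with r | r <;> rw [r]
      exacts [Ne.symm e2, (hv q hq).symm]
    · rcases r with r | r <;> rw [r]
      exacts [e1, hv p hp]
    · exact hne
  · intro p hp q hq
    rw [tau_hc_ne _ hw hwv]
    exact hk.eqv _ (hm p hp) _ (hm q hq)
  · intro l c h1 h2
    obtain ⟨e1, e2⟩ := lift_main s.h huv hG _ _ _ c.2.2
    have hh := lift_head (G := G) (u := u) (v := v) w l w
    have hl := lift_last (G := G) (u := u) (v := v) w l w
    have hn0 := List.nodup_cons.1 c.1
    have hn := lift_nodup (G := G) (u := u) (v := v) w l w hn0.2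
      fun hv => by
        obtain ⟨y, hy⟩ := c.adj v (List.mem_cons_of_mem _ hv)
        exact (hG _ _ hy).1 rfl
    have hlen := lift_len (G := G) (u := u) (v := v) w l w
    rw [t] at hh hl
    rw [t, t] at e1 e2
    have c' : Cyc G w (lift G u v w l w) := by
      refine ⟨List.nodup_cons.2 ⟨fun hw' => ?_, hn⟩, c.2.1.trans hlen, e2⟩
      rcases lift_mem _ _ _ _ hw' with e | e
      · exact hn0.1 e.1
      · rcases e.2 with e | e
        exacts [hw e, hwv e]
    have := hk.pv _ c' (by rw [hh]; exact hm _ h1) (by rw [hl]; exact hm _ h2)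
    rw [hh, hl] at this
    rw [← this]
    exact ((Eqv.rfl' _).append (e1.append (Eqv.rfl' _))).pv

theorem contr_med_u (a b c m o : V) (hmo : (m = u ∧ o = v) ∨ (m = v ∧ o = u))
    (h1 : G'.Adj u a) (h2 : G'.Adj u b) (h3 : G'.Adj u c)
    (hm : ∀ p ∈ [a, b, c], ∀ q ∈ [a, b, c], rho G u v p ≠ m → rho G u v q ≠ m → p = q) :
    ∃ k, Med G' (hc G u v s.h) (fun x => if s.own x = v then u else s.own x) u [a, b, c] k := by
  have amo : G.Adj m o := by
    rcases hmo with e | e <;> rw [e.1, e.2]
    exacts [huv, huv.symm]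
  have ro : ∀ p, rho G u v p ≠ m → rho G u v p = o := by
    intro p hp
    rcases rho_cases (G := G) (u := u) (v := v) p with r | r <;> rcases hmo with e | e
    · exact absurd (r.trans e.1.symm) hp
    · exact r.trans e.2.symm
    · exact r.trans e.2.symm
    · exact absurd (r.trans e.1.symm) hp
  have out : ∀ p, p ≠ u → p ≠ v → p ≠ m ∧ p ≠ o := by
    intro p e1 e2
    rcases hmo with e | e <;> rw [e.1, e.2]
    exacts [⟨e1, e2⟩, ⟨e2, e1⟩]
  have ow : ∀ x, s.own x = m ∨ s.own x = o → (if s.own x = v then u else s.own x) = u := by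
    intro x hx
    split_ifs with e
    · rfl
    · rcases hmo with e' | e' <;> rw [e'.1, e'.2] at hx
      · exact hx.resolve_right e
      · exact hx.resolve_left e
  have ha : ∀ p ∈ [a, b, c], G'.Adj u p := by
    intro p hp
    simp only [List.mem_cons, List.not_mem_nil, or_false] at hp
    rcases hp with rfl | rfl | rfl
    exacts [h1, h2, h3]
  set g : V → V := fun p => if rho G u v p = m then p else o with hg
  have ad : ∀ p, G'.Adj u p → G.Adj m (g p) := by
    intro p hp
    simp only [hg]
    split_ifs with e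
    · rw [← e]
      exact adj_rho hG hp
    · exact amo
  obtain ⟨k, hk⟩ := s.med m _ _ _ (ad _ h1) (ad _ h2) (ad _ h3)
  have hmem : ∀ p ∈ [a, b, c], g p ∈ [g a, g b, g c] :=
    fun p hp => List.mem_map_of_mem (f := g) hp
  have g1 : ∀ p ∈ [a, b, c], rho G u v p = m → p ∈ [g a, g b, g c] := by
    intro p hp e
    have := hmem p hp
    rwa [show g p = p from if_pos e] at this
  have g2 : ∀ p ∈ [a, b, c], rho G u v p ≠ m → o ∈ [g a, g b, g c] := by
    intro p hp e
    have := hmem p hp
    rwa [show g p = o from if_neg e] at this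
  have tauo : ∀ p, ∀ x ∈ tau s.h m o p, s.own x = o := by
    intro p x hx
    simp only [tau, List.mem_append, List.mem_reverse] at hx
    rcases hx with hx | hx <;> exact s.hown _ _ _ hx
  have dj : ∀ p ∈ [a, b, c], ∀ q ∈ [a, b, c], rho G u v p = m → rho G u v q ≠ m →
      ∀ x ∈ k p, x ∉ k o ++ tau s.h m o q := by
    intro p hp q hq e1 e2 x hx hx'
    rcases List.mem_append.1 hx' with hx' | hx'
    · exact hk.disj _ (g1 p hp e1) _ (g2 q hq e2)
        (out p (ha p hp).ne' (hG _ _ (ha p hp)).2.1).2 x hx hx'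
    · exact amo.ne ((hk.kown _ (g1 p hp e1) _ hx).symm.trans (tauo _ _ hx'))
  refine ⟨fun p => if rho G u v p = m then k p else k o ++ tau s.h m o p, ?_, ?_, ?_, ?_⟩
  · intro p hp x hx
    apply ow
    split_ifs at hx with e
    · exact Or.inl (hk.kown _ (g1 p hp e) _ hx)
    · rcases List.mem_append.1 hx with hx | hx
      · exact Or.inl (hk.kown _ (g2 p hp e) _ hx)
      · exact Or.inr (tauo _ _ hx)
  · intro p hp q hq hne x hx hx'
    split_ifs at hx hx' with e1 e2 e2
    · exact hk.disj _ (g1 p hp e1) _ (g1 q hq e2) hne x hx hx'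
    · exact dj p hp q hq e1 e2 x hx hx'
    · exact dj q hq p hp e2 e1 x hx' hx
    · exact hne (hm p hp q hq e1 e2)
  · intro p hp q hq
    refine Eqv.trans ?_ (tau_hc_u s.h huv.ne p q).symm
    unfold seg
    by_cases e1 : rho G u v p = m <;> by_cases e2 : rho G u v q = m
    · simp only [e1, e2, if_true, tw, List.headD_nil, List.append_nil]
      exact hk.eqv _ (g1 p hp e1) _ (g1 q hq e2)
    · rw [if_pos e1, if_neg e2, e1, ro q e2, if_neg amo.ne]
      simp only [tw, List.headD_nil, List.headD_cons, List.append_nil, ← List.append_assoc]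
      exact (hk.eqv _ (g1 p hp e1) _ (g2 q hq e2)).append (Eqv.rfl' _)
    · rw [if_neg e1, if_pos e2, e2, ro p e1, if_neg amo.ne']
      simp only [tw, List.headD_nil, List.headD_cons, List.append_nil, List.reverse_append,
        tau_rev, List.append_assoc]
      exact (Eqv.rfl' _).append (hk.eqv _ (g2 p hp e1) _ (g1 q hq e2))
    · have := hm p hp q hq e1 e2
      subst this
      rw [if_neg e1, if_pos rfl]
      simp only [tw, List.headD_nil, List.append_nil]
      exact (eqv_rev' _).trans (tau_self _ _ _).symm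
  · intro l c h1 h2
    obtain ⟨e1, e2⟩ := lift_main s.h huv hG _ _ _ c.2.2
    have hn0 := List.nodup_cons.1 c.1
    have hvl : v ∉ l := fun hv => by
      obtain ⟨y, hy⟩ := c.adj v (List.mem_cons_of_mem _ hv)
      exact (hG _ _ hy).1 rfl
    have hml : m ∉ l := fun e =>
      (out m (fun e' => hn0.1 (e' ▸ e)) (fun e' => hvl (e' ▸ e))).1 rfl
    have hol : o ∉ l := fun e =>
      (out o (fun e' => hn0.1 (e' ▸ e)) (fun e' => hvl (e' ▸ e))).2 rfl
    rw [lift_id _ _ _ hn0.1] at e1 e2
    have t : ∀ p, tg G u v p u = rho G u v p := fun p => if_pos rfl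
    rw [t, t] at e1 e2
    have hd : ∀ x y, l.headD x = l.headD y ∧ l.getLastD x = l.getLastD y := by
      intro x y
      have := c.2.1
      cases l with
      | nil => simp at this
      | cons z l => exact ⟨rfl, by simp only [List.getLastD_cons]⟩
    have len := c.2.1
    refine Eq.trans ((Eqv.rfl' _).append (e1.append (Eqv.rfl' _))).pv ?_
    by_cases r1 : rho G u v (l.headD u) = m <;> by_cases r2 : rho G u v (l.getLastD u) = m
    · rw [r1, r2] at e2
      have := hk.pv l ⟨List.nodup_cons.2 ⟨hml, hn0.2⟩, len, e2⟩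
        (by rw [(hd m u).1]; exact g1 _ h1 r1) (by rw [(hd m u).2]; exact g1 _ h2 r2)
      rw [(hd m u).1, (hd m u).2] at this
      rw [if_pos r1, if_pos r2, r1, r2]
      exact this
    · rw [r1, ro _ r2] at e2
      have a1 : (l ++ [o]).headD m = l.headD u := by
        cases l with
        | nil => simp at len
        | cons z l => rfl
      have a2 : (l ++ [o]).getLastD m = o := by simp
      have := hk.pv (l ++ [o]) ⟨?_, by simp; omega, chain_snoc _ _ _ _ e2 amo.symm⟩
        (by rw [a1]; exact g1 _ h1 r1) (by rw [a2]; exact g2 _ h2 r2)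
      · rw [a1, a2, tw_append, (hd m u).2] at this
        rw [if_pos r1, if_neg r2, r1, ro _ r2]
        simpa only [tw, List.headD_nil, List.headD_cons, List.append_nil, List.reverse_append,
          tau_rev, List.append_assoc] using this
      · rw [List.nodup_cons, List.nodup_append]
        refine ⟨?_, hn0.2, by simp, ?_⟩
        · simp [hml, amo.ne]
        · intro x hx y hy e
          rw [List.mem_singleton.1 hy] at e
          exact hol (e ▸ hx)
    · rw [r2, ro _ r1] at e2
      have a2 : (o :: l).getLastD m = l.getLastD u := by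
        rw [List.getLastD_cons, (hd o u).2]
      have := hk.pv (o :: l) ⟨?_, by simp; omega, ?_⟩
        (g2 _ h1 r1) (by rw [a2]; exact g1 _ h2 r2)
      · rw [a2] at this
        rw [if_neg r1, if_pos r2, r2, ro _ r1]
        simpa only [tw, List.headD_cons, (hd m u).1, List.append_assoc] using this
      · rw [List.nodup_cons, List.nodup_cons]
        refine ⟨?_, hol, hn0.2⟩
        simp [hml, amo.ne]
      · rw [List.cons_append, List.isChain_cons_cons]
        exact ⟨amo, e2⟩
    · exact absurd (hm _ h1 _ h2 r1 r2) c.ne.1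

/-- The corrected cochain after the contraction. -/
noncomputable def phc (G : SimpleGraph V) (u v : V) (φ : V → V → V → ZMod 2) (x a b : V) :
    ZMod 2 :=
  if a = u ∧ rho G u v b = v then φ x u v + φ x v b
  else if b = u ∧ rho G u v a = v then φ x a v + φ x v u else φ x a b

theorem contr_vk (a b c d : V) (h1 : G'.Adj a b) (h2 : G'.Adj c d) (n1 : a ≠ c) (n2 : a ≠ d)
    (n3 : b ≠ c) (n4 : b ≠ d) (hc' : c ≠ u) (hd' : d ≠ u) :
    VK (hc G u v s.h) s.I (phc G u v s.φ) a b c d := by
  have cv := (hG _ _ h2).1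
  have dv := (hG _ _ h2).2.1
  have av := (hG _ _ h1).1
  have bv := (hG _ _ h1).2.1
  have acd : G.Adj c d := by
    have := adj_tg hG h2
    rwa [show tg G u v d c = c from if_neg hc', show tg G u v c d = d from if_neg hd'] at this
  have w2 : wd (hc G u v s.h) c d = wd s.h c d := by simp [wd, hc, tg, hc', hd', cv, dv]
  have p2 : ∀ x, phc G u v s.φ x c d = s.φ x c d := by simp [phc, hc', hd']
  have k0 := s.vk u v c d huv acd hc'.symm hd'.symm cv.symm dv.symm
  have k1 := s.vk v u c d huv.symm acd cv.symm dv.symm hc'.symm hd'.symm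
  have z := zz (s.I v c + s.I v d + s.φ v c d)
  unfold VK
  rw [w2, p2, p2]
  by_cases e1 : a = u
  · subst e1
    have bu := h1.ne'
    have ad := adj_rho hG h1
    rcases rho_cases (G := G) (u := a) (v := v) b with r | r <;> rw [r] at ad
    · have w1 : wd (hc G a v s.h) a b = wd s.h a b := by simp [wd, hc, tg, pre, r, bu, bv]
      have p1 : ∀ x, phc G a v s.φ x a b = s.φ x a b := by simp [phc, r, av, bu]
      rw [w1, p1, p1]
      exact s.vk _ _ _ _ ad acd n1 n2 n3 n4
    · have w1 : wd (hc G a v s.h) a b = wd s.h a v ++ wd s.h v b := by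
        simp [wd, hc, tg, pre, r, bu, bv, av.symm]
      have p1 : ∀ x, phc G a v s.φ x a b = s.φ x a v + s.φ x v b := by simp [phc, r]
      rw [w1, p1, p1, om_append_left, om_append_right]
      have k2 := s.vk _ _ _ _ ad acd cv.symm dv.symm n3 n4
      linear_combination k0 + k2 + z
  · by_cases e2 : b = u
    · subst e2
      have ad := (adj_rho hG h1.symm).symm
      rcases rho_cases (G := G) (u := b) (v := v) a with r | r <;> rw [r] at ad
      · have w1 : wd (hc G b v s.h) a b = wd s.h a b := by simp [wd, hc, tg, pre, r, e1, av]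
        have p1 : ∀ x, phc G b v s.φ x a b = s.φ x a b := by simp [phc, r, bv, e1]
        rw [w1, p1, p1]
        exact s.vk _ _ _ _ ad acd n1 n2 n3 n4
      · have w1 : wd (hc G b v s.h) a b = wd s.h a v ++ wd s.h v b := by
          simp [wd, hc, tg, pre, r, e1, av, bv.symm]
        have p1 : ∀ x, phc G b v s.φ x a b = s.φ x a v + s.φ x v b := by simp [phc, r, e1]
        rw [w1, p1, p1, om_append_left, om_append_right]
        have k2 := s.vk _ _ _ _ ad acd n1 n2 cv.symm dv.symm
        linear_combination k1 + k2 + z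
    · have ad : G.Adj a b := by
        have := adj_tg hG h1
        rwa [show tg G u v b a = a from if_neg e1, show tg G u v a b = b from if_neg e2] at this
      have w1 : wd (hc G u v s.h) a b = wd s.h a b := by simp [wd, hc, tg, e1, e2, av, bv]
      have p1 : ∀ x, phc G u v s.φ x a b = s.φ x a b := by simp [phc, e1, e2]
      rw [w1, p1, p1]
      exact s.vk _ _ _ _ ad acd n1 n2 n3 n4

end

/-- Contracting the edge `u v` onto `u`. -/
theorem KG.contr (huv : G.Adj u v) (hG : ∀ a b, G'.Adj a b →
    a ≠ v ∧ b ≠ v ∧ (G.Adj a b ∨ (a = u ∧ G.Adj v b) ∨ (b = u ∧ G.Adj a v))) (h : KG X G) :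
    KG X G' := by
  obtain ⟨s⟩ := h
  refine ⟨⟨hc G u v s.h, fun x => if s.own x = v then u else s.own x, s.I, phc G u v s.φ, ?_,
    contr_mid s huv hG, ?_, s.hI, ?_⟩⟩
  · intro a b x hx
    unfold hc at hx
    split_ifs at hx with e1 e2
    · have : s.own x = u ∨ s.own x = v := by
        rcases List.mem_append.1 hx with hx | hx
        · unfold pre at hx
          split_ifs at hx
          · simp at hx
          · simp only [wd, List.mem_append, List.mem_reverse] at hx
            exact hx.imp (s.hown _ _ _) (s.hown _ _ _)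
        · rw [s.hown _ _ _ hx]
          exact rho_cases _
      rcases this with e | e
      · rw [e, if_neg huv.ne, e1]
      · rw [if_pos e, e1]
    · simp at hx
    · rw [s.hown _ _ _ hx, if_neg e2]
  · intro w a b c h1 h2 h3
    by_cases e : w = u
    · subst e
      rcases majority (fun p => rho G w v p = w) a b c with m | m
      · refine contr_med_u s huv hG a b c v w (Or.inr ⟨rfl, rfl⟩) h1 h2 h3 ?_
        intro p hp q hq e1 e2
        exact m p hp q hq ((rho_cases p).resolve_right e1) ((rho_cases q).resolve_right e2)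
      · exact contr_med_u s huv hG a b c w v (Or.inl ⟨rfl, rfl⟩) h1 h2 h3 m
    · exact contr_med_ne s huv hG w a b c e h1 h2 h3
  · intro a b c d h1 h2 n1 n2 n3 n4
    by_cases e : c ≠ u ∧ d ≠ u
    · exact contr_vk s huv hG a b c d h1 h2 n1 n2 n3 n4 e.1 e.2
    · refine VK.swap s.hI n1 n2 n3 n4
        (contr_vk s huv hG c d a b h2 h1 n1.symm n3.symm n2.symm n4.symm ?_ ?_)
      · rintro rfl
        exact e ⟨n1.symm, n2.symm⟩
      · rintro rfl
        exact e ⟨n3.symm, n4.symm⟩

end Pool.Agent.Lib.MP_1f96ff_gt.K
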