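import Pool.Agent.Lib.MP_1f96ff_gt.K.Word

/- The `D₄` identity for words. -/

set_option autoImplicit false

namespace Pool.Agent.Lib.MP_1f96ff_gt.K

variable {α X : Type}

theorem S_comm (U V : List α) (G : List α → List α → ZMod 2) :
    S U (fun s => S V (fun t => G s t)) = S V (fun t => S U (fun s => G s t)) := by
  induction U generalizing G with
  | nil => rfl
  | cons a U ih =>
    simp only [S]
    rw [ih G, ih (fun s t => G (a :: s) t), S_add]

theorem S_le_one (W : List α) (G : List α → ZMod 2) (h : ∀ s, 2 ≤ s.length → G s = 0) :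
    S W G = G [] + (W.map fun p => G [p]).sum := by
  induction W generalizing G with
  | nil => simp [S]
  | cons a W ih =>
    simp only [S, List.map_cons, List.sum_cons]
    rw [ih G h, ih (fun s => G (a :: s)) (fun s hs => h _ (by simp; omega))]
    have : (W.map fun p => G [a, p]) = W.map fun _ => (0 : ZMod 2) :=
      List.map_congr_left fun p _ => h _ (by simp)
    rw [this]
    simp
    ring

/-- Sum over both words of a pair. -/
def Z (W : Bool → List α) (G : List α → ZMod 2) : ZMod 2 := S (W false) G + S (W true) G

/-- Both words of a pair, one after the other. -/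
def two (W : Bool → List α) : List α := W false ++ W true

theorem Z_le_one (W : Bool → List α) (G : List α → ZMod 2) (h : ∀ s, 2 ≤ s.length → G s = 0) :
    Z W G = ((two W).map fun p => G [p]).sum := by
  unfold Z two
  rw [S_le_one _ _ h, S_le_one _ _ h, List.map_append, List.sum_append]
  have := zz (G [])
  linear_combination this

theorem Z_nil (W : Bool → List α) (G : List α → ZMod 2) (h : ∀ s, 1 ≤ s.length → G s = 0) :
    Z W G = 0 := by
  rw [Z_le_one _ _ fun s hs => h s (by omega)]
  have : ((two W).map fun p => G [p]) = (two W).map fun _ => (0 : ZMod 2) :=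
    List.map_congr_left fun p _ => h _ (by simp)
  rw [this]
  simp

theorem Z_S (W : Bool → List α) (V : List α) (G : List α → List α → ZMod 2) :
    Z W (fun s => S V (fun t => G s t)) = S V (fun t => Z W (fun s => G s t)) := by
  unfold Z
  rw [S_comm, S_comm (W true), S_add]

/-- The middle three blocks. -/
noncomputable def mid3 (B C D : Bool → List (X × Bool)) (s u : List (X × Bool)) : ZMod 2 :=
  Z B fun s2 => Z C fun s3 => Z D fun s4 => pvF (s ++ (s2 ++ (s3 ++ (s4 ++ u))))

theorem mid3_inner (C D : Bool → List (X × Bool)) (s s2 u : List (X × Bool))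
    (h : 3 ≤ s.length + s2.length + u.length) :
    (Z C fun s3 => Z D fun s4 => pvF (s ++ (s2 ++ (s3 ++ (s4 ++ u))))) = 0 := by
  apply Z_nil
  intro s3 h3
  apply Z_nil
  intro s4 h4
  apply pvF_len
  simp only [List.length_append]
  omega

theorem mid3_two (B C D : Bool → List (X × Bool)) (s u : List (X × Bool))
    (h : 2 ≤ s.length + u.length) : mid3 B C D s u = 0 := by
  apply Z_nil
  intro s2 h2
  apply mid3_inner
  omega

theorem mid3_one (B C D : Bool → List (X × Bool)) (s u : List (X × Bool))
    (h : 1 ≤ s.length + u.length) :
    mid3 B C D s u = ((two B).map fun q => ((two C).map fun r => ((two D).map fun t =>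
      pvF (s ++ (q :: r :: t :: u))).sum).sum).sum := by
  unfold mid3
  rw [Z_le_one _ _ fun s2 h2 => mid3_inner _ _ _ _ _ (by omega)]
  congr 1
  apply List.map_congr_left
  intro q _
  rw [Z_le_one]
  · congr 1
    apply List.map_congr_left
    intro r _
    rw [Z_le_one]
    · rfl
    · intro s4 h4
      apply pvF_len
      simp only [List.length_append, List.length_cons, List.length_nil]
      omega
  · intro s3 h3
    apply Z_nil
    intro s4 h4
    apply pvF_len
    simp only [List.length_append, List.length_cons, List.length_nil]
    omega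

theorem pvF_four {p q r t : X × Bool} (h : p ≠ t) : pvF [p, q, r, t] = ov r p * ov q t := by
  simp only [pvF, ov]
  by_cases h1 : r.2 = true ∧ p = (r.1, false)
  · by_cases h2 : q.2 = true ∧ t = (q.1, false)
    · rw [if_pos h1, if_pos h2, if_pos, one_mul]
      refine ⟨by rw [h1.2], h2.1, ?_, h2.2, fun e => h ?_⟩
      · rw [h1.2]
        exact Prod.ext rfl h1.1
      · rw [h2.2, ← e, h1.2]
    · rw [if_neg h2, mul_zero, if_neg]
      rintro ⟨-, a, -, b, -⟩
      exact h2 ⟨a, b⟩
  · rw [if_neg h1, zero_mul, if_neg]
    rintro ⟨a, -, b, -, -⟩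
    refine h1 ⟨by rw [b], ?_⟩
    rw [b]
    exact Prod.ext rfl a

theorem sum4 (P Q R T : List (X × Bool)) (h : ∀ p ∈ P, p ∉ T) :
    (P.map fun p => (Q.map fun q => (R.map fun r => (T.map fun t =>
      pvF [p, q, r, t]).sum).sum).sum).sum = om R P * om Q T := by
  rw [om_comm' R P, ← List.sum_map_mul_right]
  congr 1
  apply List.map_congr_left
  intro p hp
  unfold om
  rw [← List.sum_map_mul_left]
  congr 1
  apply List.map_congr_left
  intro q _
  rw [← List.sum_map_mul_right]
  congr 1
  apply List.map_congr_left
  intro r _
  rw [← List.sum_map_mul_left]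
  congr 1
  apply List.map_congr_left
  intro t ht
  exact pvF_four fun e => h p hp (e ▸ ht)

theorem list_sum_comm {β γ : Type} (U : List β) (V : List γ) (f : β → γ → ZMod 2) :
    (U.map fun p => (V.map fun q => f p q).sum).sum =
      (V.map fun q => (U.map fun p => f p q).sum).sum := by
  induction U with
  | nil => simp
  | cons a U ih => simp [ih, List.sum_map_add]

theorem eight (A A' : List (X × Bool)) (B C D : Bool → List (X × Bool))
    (h1 : ∀ p ∈ A, p ∉ two D) (h2 : ∀ p ∈ two B, p ∉ A') :
    ∑ b : Bool, ∑ c : Bool, ∑ d : Bool, PV (A ++ (B b ++ (C c ++ (D d ++ A')))) =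
      mid3 B C D [] [] + om (two C) A * om (two B) (two D) +
        om (two D) (two B) * om (two C) A' := by
  have e1 : ∑ b : Bool, ∑ c : Bool, ∑ d : Bool, PV (A ++ (B b ++ (C c ++ (D d ++ A')))) =
      S A fun s => S A' fun u => mid3 B C D s u := by
    have : (fun s => S A' fun u => mid3 B C D s u) = fun s => Z B fun s2 => Z C fun s3 =>
        Z D fun s4 => S A' fun u => pvF (s ++ (s2 ++ (s3 ++ (s4 ++ u)))) := by
      funext s
      unfold mid3
      simp only [Z_S]
    rw [this]
    simp only [Fintype.sum_bool, PV, S_append, Z, S_add]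
    ring
  rw [e1, S_le_one, S_le_one]
  · have e2 : (A.map fun p => S A' fun u => mid3 B C D [p] u) =
        A.map fun p => mid3 B C D [p] [] := by
      apply List.map_congr_left
      intro p _
      rw [S_le_one _ _ fun s hs => mid3_two _ _ _ _ _ (by omega)]
      have : (A'.map fun t => mid3 B C D [p] [t]) = A'.map fun _ => (0 : ZMod 2) :=
        List.map_congr_left fun t _ => mid3_two _ _ _ _ _ (by simp)
      rw [this]
      simp
    rw [e2]
    have e3 : (A.map fun p => mid3 B C D [p] []).sum = om (two C) A * om (two B) (two D) := by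
      rw [← sum4 _ _ _ _ h1]
      congr 1
      apply List.map_congr_left
      intro p _
      rw [mid3_one _ _ _ _ _ (by simp)]
      rfl
    have e4 : (A'.map fun t => mid3 B C D [] [t]).sum = om (two D) (two B) * om (two C) A' := by
      rw [← sum4 _ _ _ _ h2]
      have : (A'.map fun t => mid3 B C D [] [t]) = A'.map fun u => ((two B).map fun q =>
          ((two C).map fun r => ((two D).map fun t => pvF [q, r, t, u]).sum).sum).sum := by
        apply List.map_congr_left
        intro p _
        rw [mid3_one _ _ _ _ _ (by simp)]
        rfl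
      rw [this, list_sum_comm]
      congr 1
      apply List.map_congr_left
      intro q _
      rw [list_sum_comm]
      congr 1
      apply List.map_congr_left
      intro r _
      rw [list_sum_comm]
    rw [e3, e4]
    ring
  · intro s hs
    exact mid3_two _ _ _ _ _ (by omega)
  · intro s hs
    have : (fun u => mid3 B C D s u) = fun _ => 0 := by
      funext u
      exact mid3_two _ _ _ _ _ (by omega)
    rw [this, S_zero]

/-- The `D₄` identity: if all sixteen words have `PV = 0`, a product of linking numbers vanishes. -/
theorem d4_words (A A' B C D : Bool → List (X × Bool))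
    (h1 : ∀ a, ∀ p ∈ A a, p ∉ two D) (h2 : ∀ a, ∀ p ∈ two B, p ∉ A' a)
    (h0 : ∀ a b c d, PV (A a ++ (B b ++ (C c ++ (D d ++ A' a)))) = 0)
    (hs : om (two D) (two B) = om (two B) (two D)) :
    om (two C) (two A ++ two A') * om (two B) (two D) = 0 := by
  have e1 := eight (A false) (A' false) B C D (h1 _) (h2 _)
  have e2 := eight (A true) (A' true) B C D (h1 _) (h2 _)
  simp only [h0, Finset.sum_const_zero] at e1 e2
  rw [hs] at e1 e2
  have e3 : om (two C) (two A ++ two A') = om (two C) (A false) + om (two C) (A true) +
      (om (two C) (A' false) + om (two C) (A' true)) := by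
    rw [om_append_right]
    show om (two C) (A false ++ A true) + om (two C) (A' false ++ A' true) = _
    rw [om_append_right, om_append_right]
  rw [e3]
  have := zz (mid3 B C D [] [])
  linear_combination -e1 - e2 - this

end Pool.Agent.Lib.MP_1f96ff_gt.K
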