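import Pool.Agent.Lib.MP_1f96ff_gt.K.AddE
import Pool.Agent.Lib.MP_1f96ff_gt.K.D4w

/- The `D₄` lemma for a model given by paths from four roots. -/

set_option autoImplicit false

namespace Pool.Agent.Lib.MP_1f96ff_gt.K

variable {V X : Type} {G : SimpleGraph V}

/-- The word from the root `r` along `l` to the middle of the edge towards `q`. -/
def out (h : V → V → List (X × Bool)) (r : V) (l : List V) (q : V) : List (X × Bool) :=
  h r (l.headD q) ++ tw h r l q

/-- The path between the ends of two paths from the root `r`, common start removed. -/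
def join [DecidableEq V] : V → List V → List V → List V
  | r, b :: U, b' :: W => if b = b' then join b U W else (b :: U).reverse ++ r :: b' :: W
  | r, U, W => U.reverse ++ r :: W

/-- The darts of the walk `r :: l`. -/
def dl : V → List V → List (V × V)
  | _, [] => []
  | r, a :: l => (r, a) :: dl a l

def wl (h : V → V → List (X × Bool)) (E : List (V × V)) : List (X × Bool) :=
  E.flatMap fun e => wd h e.1 e.2

section
variable (h : V → V → List (X × Bool))

theorem out_cons (z a : V) (l : List V) (q : V) : out h z (a :: l) q = wd h z a ++ out h a l q := by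
  simp [out, tw, tau, wd]

theorem tw_rev_app (p : V) (l : List V) (z : V) (m : List V) (q : V) :
    tw h p (l.reverse ++ z :: m) q = (out h z l p).reverse ++ out h z m q := by
  induction l generalizing z m with
  | nil => simp [out, tw, tau]
  | cons a l ih =>
    rw [List.reverse_cons, List.append_assoc, List.singleton_append, ih, out_cons, out_cons,
      wd_rev h z a]
    simp

theorem tw_join [DecidableEq V] (p r : V) (U W : List V) (q : V) :
    Eqv (tw h p (join r U W) q) ((out h r U p).reverse ++ out h r W q) := by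
  induction U generalizing r W with
  | nil => exact Eqv.of_eq (tw_rev_app h p [] r W q)
  | cons b U ih =>
    cases W with
    | nil => exact Eqv.of_eq (tw_rev_app h p (b :: U) r [] q)
    | cons b' W =>
      rw [join]
      split_ifs with e
      · subst e
        refine (ih b W).trans ?_
        rw [out_cons, out_cons, List.reverse_append, List.append_assoc]
        exact (Eqv.cancel' _ _ _).symm
      · exact Eqv.of_eq (tw_rev_app h p (b :: U) r (b' :: W) q)

theorem rev_head (U : List V) (r : V) (W : List V) (d : V) :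
    (U.reverse ++ r :: W).headD d = U.getLastD r := by
  rw [headD_app]
  rcases List.eq_nil_or_concat U with rfl | ⟨U, b, rfl⟩ <;> simp

theorem join_ends [DecidableEq V] (r : V) (U W : List V) (d : V) :
    (join r U W).headD d = U.getLastD r ∧ (join r U W).getLastD d = W.getLastD r := by
  induction U generalizing r W with
  | nil => exact ⟨rev_head [] r W d, getLastD_app _ _ _ _⟩
  | cons b U ih =>
    cases W with
    | nil => exact ⟨rev_head _ r _ d, getLastD_app _ _ _ _⟩
    | cons b' W =>
      rw [join]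
      split_ifs with e
      · subst e
        rw [List.getLastD_cons, List.getLastD_cons]
        exact ih b W
      · exact ⟨rev_head _ r _ d, getLastD_app _ _ _ _⟩

theorem join_ne [DecidableEq V] (r : V) (U W : List V) : join r U W ≠ [] := by
  induction U generalizing r W with
  | nil => simp [join]
  | cons b U ih =>
    cases W with
    | nil => simp [join]
    | cons b' W =>
      rw [join]
      split_ifs
      · exact ih b W
      · simp

theorem out_eq (r : V) (l : List V) (q : V) :
    out h r l q = wl h (dl r l) ++ h (l.getLastD r) q := by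
  induction l generalizing r with
  | nil => simp [out, tw, wl, dl]
  | cons a l ih =>
    rw [out_cons, ih, List.getLastD_cons]
    simp [wl, dl]

/-- The darts of an arc between two roots. -/
def arc (r : V) (U : List V) (r' : V) (W : List V) : List (V × V) :=
  (U.getLastD r, W.getLastD r') :: (dl r U ++ dl r' W)

theorem om_arc_left (r : V) (U : List V) (r' : V) (W : List V) (Y : List (X × Bool)) :
    om (out h r U (W.getLastD r') ++ (out h r' W (U.getLastD r)).reverse) Y =
      om (wl h (arc r U r' W)) Y := by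
  simp only [out_eq, arc, wl, List.flatMap_cons, List.flatMap_append, om_append_left,
    om_reverse_left, wd]
  ring

theorem om_arc_right (r : V) (U : List V) (r' : V) (W : List V) (Y : List (X × Bool)) :
    om Y (out h r U (W.getLastD r') ++ (out h r' W (U.getLastD r)).reverse) =
      om Y (wl h (arc r U r' W)) := by
  simp only [out_eq, arc, wl, List.flatMap_cons, List.flatMap_append, om_append_right,
    om_reverse_right, wd]
  ring

theorem om_wl (E F : List (V × V)) : om (wl h E) (wl h F) =
    (E.map fun e => (F.map fun f => om (wd h e.1 e.2) (wd h f.1 f.2)).sum).sum := by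
  induction E with
  | nil => simp [wl, om_nil_left]
  | cons e E ih =>
    have : wl h (e :: E) = wd h e.1 e.2 ++ wl h E := by simp [wl]
    rw [this, om_append_left, ih, List.map_cons, List.sum_cons]
    congr 1
    clear ih this
    induction F with
    | nil => simp [wl, om_nil_right]
    | cons f F ih =>
      have : wl h (f :: F) = wd h f.1 f.2 ++ wl h F := by simp [wl]
      rw [this, om_append_right, ih, List.map_cons, List.sum_cons]

end

/-- Every vertex is met an even number of times. -/
def Bal (E : List (V × V)) : Prop :=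
  ∀ g : V → ZMod 2, (E.map fun e => g e.1 + g e.2).sum = 0

theorem sum_dl (g : V → ZMod 2) (r : V) (l : List V) :
    ((dl r l).map fun e => g e.1 + g e.2).sum = g r + g (l.getLastD r) := by
  induction l generalizing r with
  | nil => simp [dl, zz]
  | cons a l ih =>
    simp only [dl, List.map_cons, List.sum_cons, ih, List.getLastD_cons]
    have := zz (g a)
    linear_combination this

theorem bal_arc (r : V) (U U' : List V) (r' : V) (W W' : List V) :
    Bal (arc r U r' W ++ arc r U' r' W') := by
  intro g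
  simp only [arc, List.map_append, List.map_cons, List.sum_append, List.sum_cons, sum_dl]
  have := zz (g r + g r' + g (U.getLastD r) + g (W.getLastD r') + g (U'.getLastD r) +
    g (W'.getLastD r'))
  linear_combination this

/-- Darts of `G`, those of `E` disjoint from those of `F`. -/
def Ok (G : SimpleGraph V) (E F : List (V × V)) : Prop :=
  ∀ e ∈ E, ∀ f ∈ F, G.Adj e.1 e.2 ∧ G.Adj f.1 f.2 ∧ e.1 ≠ f.1 ∧ e.1 ≠ f.2 ∧ e.2 ≠ f.1 ∧ e.2 ≠ f.2

theorem sum_bal {E F : List (V × V)} (hE : Bal E) (g : V → V × V → ZMod 2) :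
    (E.map fun e => (F.map fun f => g e.1 f + g e.2 f).sum).sum = 0 := by
  rw [list_sum_comm]
  have : (F.map fun f => (E.map fun e => g e.1 f + g e.2 f).sum) = F.map fun _ => (0 : ZMod 2) :=
    List.map_congr_left fun f _ => hE fun p => g p f
  rw [this]
  simp

theorem lk_symm (s : KS X G) {E F : List (V × V)} (ok : Ok G E F) (hE : Bal E) (hF : Bal F) :
    om (wl s.h F) (wl s.h E) = om (wl s.h E) (wl s.h F) := by
  rw [om_wl, om_wl, list_sum_comm]
  have e1 := sum_bal (F := F) hE fun p f => s.I p f.1 + s.I p f.2 + s.φ p f.1 f.2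
  have e2 := sum_bal (F := E) hF fun p e => s.φ p e.1 e.2
  rw [list_sum_comm] at e2
  rw [← add_zero (List.sum _), ← add_zero (0 : ZMod 2)]
  nth_rw 1 [← e1]
  rw [← e2, ← List.sum_map_add, ← List.sum_map_add]
  congr 1
  apply List.map_congr_left
  intro e he
  rw [← List.sum_map_add, ← List.sum_map_add]
  congr 1
  apply List.map_congr_left
  intro f hf
  obtain ⟨a1, a2, n1, n2, n3, n4⟩ := ok e he f hf
  have k := s.vk _ _ _ _ a1 a2 n1 n2 n3 n4
  have z := zz (om (wd s.h f.1 f.2) (wd s.h e.1 e.2))
  linear_combination -k + z + zz (s.I e.1 f.1 + s.I e.1 f.2 + s.I e.2 f.1 + s.I e.2 f.2 +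
    s.φ e.1 f.1 f.2 + s.φ e.2 f.1 f.2 + s.φ f.1 e.1 e.2 + s.φ f.2 e.1 e.2) * 0

theorem mem_out (s : KS X G) (r : V) (l : List V) (q : V) :
    ∀ x ∈ out s.h r l q, s.own x ∈ r :: l := by
  intro x hx
  rcases List.mem_append.1 hx with hx | hx
  · rw [s.hown _ _ _ hx]
    exact List.mem_cons_self
  · exact List.mem_cons_of_mem _ (mem_tw s.h s.hown _ _ _ x hx)

/-- A model of `D₄`: four roots, entry paths `P i` and exit paths `Q i`. -/
structure Mdl (V : Type) where
  (r1 r2 r3 r4 : V)
  (P1 P2 P3 P4 Q1 Q2 Q3 Q4 : Bool → List V)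

namespace Mdl
variable (m : Mdl V)

def cyc [DecidableEq V] (a b c d : Bool) : List V :=
  join m.r2 (m.P2 a) (m.Q2 b) ++ (join m.r3 (m.P3 b) (m.Q3 c) ++
    (join m.r4 (m.P4 c) (m.Q4 d) ++ join m.r1 (m.P1 d) (m.Q1 a)))

def E1 : List (V × V) :=
  arc m.r1 (m.Q1 false) m.r2 (m.P2 false) ++ arc m.r1 (m.Q1 true) m.r2 (m.P2 true)
def E2 : List (V × V) :=
  arc m.r2 (m.Q2 false) m.r3 (m.P3 false) ++ arc m.r2 (m.Q2 true) m.r3 (m.P3 true)
def E3 : List (V × V) :=
  arc m.r3 (m.Q3 false) m.r4 (m.P4 false) ++ arc m.r3 (m.Q3 true) m.r4 (m.P4 true)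
def E4 : List (V × V) :=
  arc m.r4 (m.Q4 false) m.r1 (m.P1 false) ++ arc m.r4 (m.Q4 true) m.r1 (m.P1 true)

end Mdl

theorem headD_app' {A : List V} (hA : A ≠ []) (B : List V) (d : V) :
    (A ++ B).headD d = A.headD d := by
  cases A with
  | nil => exact absurd rfl hA
  | cons a A => rfl

theorem getLastD_app' (A : List V) {B : List V} (hB : B ≠ []) (d : V) :
    (A ++ B).getLastD d = B.getLastD d := by
  cases B with
  | nil => exact absurd rfl hB
  | cons b B => rw [getLastD_app, List.getLastD_cons]

theorem d4_graph [DecidableEq V] (s : KS X G) (m : Mdl V)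
    (hc : ∀ a b c d, CycL G (m.cyc a b c d)) (ok : Ok G m.E2 m.E4)
    (d1 : ∀ a d, ∀ z ∈ m.r2 :: m.P2 a, z ∉ m.r4 :: m.Q4 d ∧ z ∉ m.r1 :: m.P1 d)
    (d2 : ∀ a b, ∀ z ∈ m.r1 :: m.Q1 a, z ∉ m.r2 :: m.Q2 b ∧ z ∉ m.r3 :: m.P3 b) :
    om (wl s.h m.E3) (wl s.h m.E1) * om (wl s.h m.E2) (wl s.h m.E4) = 0 := by
  have key := d4_words
    (fun a => (out s.h m.r2 (m.P2 a) ((m.Q1 a).getLastD m.r1)).reverse)
    (fun a => out s.h m.r1 (m.Q1 a) ((m.P2 a).getLastD m.r2))
    (fun b => out s.h m.r2 (m.Q2 b) ((m.P3 b).getLastD m.r3) ++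
      (out s.h m.r3 (m.P3 b) ((m.Q2 b).getLastD m.r2)).reverse)
    (fun b => out s.h m.r3 (m.Q3 b) ((m.P4 b).getLastD m.r4) ++
      (out s.h m.r4 (m.P4 b) ((m.Q3 b).getLastD m.r3)).reverse)
    (fun b => out s.h m.r4 (m.Q4 b) ((m.P1 b).getLastD m.r1) ++
      (out s.h m.r1 (m.P1 b) ((m.Q4 b).getLastD m.r4)).reverse) ?_ ?_ ?_ ?_
  · have e : ∀ Y, om Y (two (fun a => (out s.h m.r2 (m.P2 a) ((m.Q1 a).getLastD m.r1)).reverse) ++
        two fun a => out s.h m.r1 (m.Q1 a) ((m.P2 a).getLastD m.r2)) = om Y (wl s.h m.E1) := by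
      intro Y
      simp only [Mdl.E1, wl, List.flatMap_append, two, om_append_right]
      have t1 := om_arc_right s.h m.r1 (m.Q1 false) m.r2 (m.P2 false) Y
      have t2 := om_arc_right s.h m.r1 (m.Q1 true) m.r2 (m.P2 true) Y
      simp only [wl, om_append_right] at t1 t2
      linear_combination t1 + t2
    rw [e] at key
    simp only [two, om_append_left (_ ++ _), om_append_right _ (_ ++ _), om_arc_left,
      om_arc_right] at key
    simp only [Mdl.E2, Mdl.E3, Mdl.E4, wl, List.flatMap_append, om_append_left,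
      om_append_right] at key ⊢
    linear_combination key
  · intro a p hp hp'
    have h1 := mem_out s _ _ _ p (List.mem_reverse.1 hp)
    simp only [two, List.mem_append, List.mem_reverse] at hp'
    rcases hp' with (hp' | hp') | (hp' | hp')
    exacts [(d1 a _ _ h1).1 (mem_out s _ _ _ p hp'), (d1 a _ _ h1).2 (mem_out s _ _ _ p hp'),
      (d1 a _ _ h1).1 (mem_out s _ _ _ p hp'), (d1 a _ _ h1).2 (mem_out s _ _ _ p hp')]
  · intro a p hp' hp
    have h1 := mem_out s _ _ _ p hp
    simp only [two, List.mem_append, List.mem_reverse] at hp'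
    rcases hp' with (hp' | hp') | (hp' | hp')
    exacts [(d2 a _ _ h1).1 (mem_out s _ _ _ p hp'), (d2 a _ _ h1).2 (mem_out s _ _ _ p hp'),
      (d2 a _ _ h1).1 (mem_out s _ _ _ p hp'), (d2 a _ _ h1).2 (mem_out s _ _ _ p hp')]
  · intro a b c d
    have h0 := s.midL (hc a b c d) m.r1
    unfold Mdl.cyc at h0
    simp only [tw_append, headD_app' (join_ne _ _ _), getLastD_app' _ (join_ne _ _ _),
      getLastD_app' _ (List.append_ne_nil_of_left_ne_nil (join_ne _ _ _) _),
      (join_ends _ _ _ _).1, (join_ends _ _ _ _).2] at h0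
    rw [← h0]
    apply Eqv.pv
    have := (tw_join s.h ((m.Q1 a).getLastD m.r1) m.r2 (m.P2 a) (m.Q2 b)
      ((m.P3 b).getLastD m.r3)).append ((tw_join s.h ((m.Q2 b).getLastD m.r2) m.r3 (m.P3 b)
      (m.Q3 c) ((m.P4 c).getLastD m.r4)).append ((tw_join s.h ((m.Q3 c).getLastD m.r3) m.r4
      (m.P4 c) (m.Q4 d) ((m.P1 d).getLastD m.r1)).append (tw_join s.h ((m.Q4 d).getLastD m.r4)
      m.r1 (m.P1 d) (m.Q1 a) ((m.P2 a).getLastD m.r2))))
    simpa only [List.append_assoc] using this.symm
  · have := lk_symm s ok (bal_arc _ _ _ _ _ _) (bal_arc _ _ _ _ _ _)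
    simp only [two, om_append_left (_ ++ _), om_append_right _ (_ ++ _), om_arc_left,
      om_arc_right]
    simp only [Mdl.E2, Mdl.E4, wl, List.flatMap_append, om_append_left,
      om_append_right] at this ⊢
    linear_combination this

end Pool.Agent.Lib.MP_1f96ff_gt.K
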