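import Pool.Agent.Lib.MP_1f96ff_gt.K.Word

/- Abstract knotless diagrams on a graph. -/

set_option autoImplicit false

namespace Pool.Agent.Lib.MP_1f96ff_gt.K

variable {V X : Type}

/-- Passing the vertex `z` from the middle of the edge `z p` to the middle of the edge `z q`;
`h z q` is the word read from `z` to the middle of `z q`. -/
def tau (h : V → V → List (X × Bool)) (p z q : V) : List (X × Bool) := (h z p).reverse ++ h z q

/-- The word of a walk `l`, entered from `p` and left towards `q`. -/
def tw (h : V → V → List (X × Bool)) : V → List V → V → List (X × Bool)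
  | _, [], _ => []
  | p, z :: l, q => tau h p z (l.headD q) ++ tw h z l q

/-- The word of the edge from `a` to `b`. -/
def wd (h : V → V → List (X × Bool)) (a b : V) : List (X × Bool) := h a b ++ (h b a).reverse

/-- `a :: l` lists the vertices of a cycle of `G`. -/
def Cyc (G : SimpleGraph V) (a : V) (l : List V) : Prop :=
  (a :: l).Nodup ∧ 2 ≤ l.length ∧ List.IsChain G.Adj (a :: (l ++ [a]))

/-- Median words at `u` for the neighbours in `T`. -/
structure Med (G : SimpleGraph V) (h : V → V → List (X × Bool)) (own : X × Bool → V) (u : V)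
    (T : List V) (k : V → List (X × Bool)) : Prop where
  kown : ∀ p ∈ T, ∀ x ∈ k p, own x = u
  disj : ∀ p ∈ T, ∀ q ∈ T, p ≠ q → ∀ x ∈ k p, x ∉ k q
  eqv : ∀ p ∈ T, ∀ q ∈ T, Eqv ((k p).reverse ++ k q) (tau h p u q)
  pv : ∀ l, Cyc G u l → l.headD u ∈ T → l.getLastD u ∈ T →
    PV (k (l.headD u) ++ (tw h u l u ++ (k (l.getLastD u)).reverse)) = 0

/-- An abstract knotless diagram of `G` with crossings named by `X`. -/
structure KS (X : Type) (G : SimpleGraph V) where
  h : V → V → List (X × Bool)
  own : X × Bool → V
  I : V → V → ZMod 2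
  φ : V → V → V → ZMod 2
  hown : ∀ a b, ∀ x ∈ h a b, own x = a
  mid : ∀ a l, Cyc G a l → PV (tw h (l.getLastD a) (a :: l) a) = 0
  med : ∀ u a b c, G.Adj u a → G.Adj u b → G.Adj u c → ∃ k, Med G h own u [a, b, c] k
  hI : ∀ p q, p ≠ q → I p q + I q p = 1
  vk : ∀ a b c d, G.Adj a b → G.Adj c d → a ≠ c → a ≠ d → b ≠ c → b ≠ d →
    om (wd h a b) (wd h c d) + om (wd h c d) (wd h a b) =
      I a c + I a d + I b c + I b d + φ a c d + φ b c d + φ c a b + φ d a b

/-- `G` has an abstract knotless diagram. -/
def KG (X : Type) (G : SimpleGraph V) : Prop := Nonempty (KS X G)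

section
variable (h : V → V → List (X × Bool))

theorem tw_append (p : V) (l m : List V) (q : V) :
    tw h p (l ++ m) q = tw h p l (m.headD q) ++ tw h (l.getLastD p) m q := by
  induction l generalizing p with
  | nil => rfl
  | cons z l ih =>
    have e : (l ++ m).headD q = l.headD (m.headD q) := by cases l <;> simp
    simp only [List.cons_append, tw, ih, e, List.getLastD_cons, List.append_assoc]

theorem wd_rev (a b : V) : wd h b a = (wd h a b).reverse := by simp [wd]

theorem tau_rev (p z q : V) : (tau h p z q).reverse = tau h q z p := by simp [tau]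

theorem tau_tau (p z q r : V) : Eqv (tau h p z q ++ tau h q z r) (tau h p z r) := by
  have := Eqv.cancel (h z p).reverse (h z q) (h z r)
  simpa [tau] using this

theorem tau_self (p z : V) : Eqv (tau h p z p) [] := eqv_rev' _

theorem tw_congr {h' : V → V → List (X × Bool)} (p : V) (l : List V) (q : V)
    (e : ∀ z ∈ l, ∀ y, h' z y = h z y) : tw h' p l q = tw h p l q := by
  induction l generalizing p with
  | nil => rfl
  | cons z l ih =>
    simp only [tw, tau]
    rw [ih z fun y hy => e y (List.mem_cons_of_mem _ hy), e z List.mem_cons_self,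
      e z List.mem_cons_self]

theorem tw_map {V' : Type} (f : V' → V) (p : V') (l : List V') (q : V') :
    tw (fun a b => h (f a) (f b)) p l q = tw h (f p) (l.map f) (f q) := by
  induction l generalizing p with
  | nil => rfl
  | cons z l ih =>
    have e : (l.map f).headD (f q) = f (l.headD q) := by cases l <;> rfl
    simp only [tw, List.map_cons, ih, e, tau]

theorem mem_tw {own : X × Bool → V} (ho : ∀ a b, ∀ x ∈ h a b, own x = a) (p : V) (l : List V)
    (q : V) : ∀ x ∈ tw h p l q, own x ∈ l := by
  induction l generalizing p with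
  | nil => simp [tw]
  | cons z l ih =>
    intro x hx
    simp only [tw, tau, List.mem_append, List.mem_reverse] at hx
    rcases hx with (hx | hx) | hx
    · rw [ho _ _ _ hx]
      exact List.mem_cons_self
    · rw [ho _ _ _ hx]
      exact List.mem_cons_self
    · exact List.mem_cons_of_mem _ (ih _ x hx)

end

theorem Cyc.map {V' : Type} {G : SimpleGraph V} {G' : SimpleGraph V'} {f : V' → V}
    (hf : Function.Injective f) (ha : ∀ a b, G'.Adj a b → G.Adj (f a) (f b)) {a : V'}
    {l : List V'} (c : Cyc G' a l) : Cyc G (f a) (l.map f) := by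
  refine ⟨?_, by simpa using c.2.1, ?_⟩
  · exact c.1.map hf
  · have := List.isChain_map_of_isChain f ha c.2.2
    simpa using this

/-- Diagrams pull back along injective homomorphisms. -/
theorem KG.pull {V' : Type} [Nonempty V'] {G : SimpleGraph V} {G' : SimpleGraph V'} (f : V' → V)
    (hf : Function.Injective f) (ha : ∀ a b, G'.Adj a b → G.Adj (f a) (f b)) (hG : KG X G) :
    KG X G' := by
  obtain ⟨s⟩ := hG
  have hl : ∀ (l : List V') (a : V'), (l.map f).getLastD (f a) = f (l.getLastD a) := by
    intro l
    induction l with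
    | nil => intro a; rfl
    | cons z l ih => intro a; simp only [List.map_cons, List.getLastD_cons, ih]
  have hh : ∀ (l : List V') (a : V'), (l.map f).headD (f a) = f (l.headD a) := by
    intro l a
    cases l <;> rfl
  refine ⟨⟨fun a b => s.h (f a) (f b), fun x => Function.invFun f (s.own x),
    fun a b => s.I (f a) (f b), fun a b c => s.φ (f a) (f b) (f c), ?_, ?_, ?_, ?_, ?_⟩⟩
  · intro a b x hx
    rw [s.hown _ _ _ hx]
    exact Function.leftInverse_invFun hf a
  · intro a l c
    rw [tw_map, List.map_cons, ← hl]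
    exact s.mid _ _ (c.map hf ha)
  · intro u a b c h1 h2 h3
    obtain ⟨k, hk⟩ := s.med _ _ _ _ (ha _ _ h1) (ha _ _ h2) (ha _ _ h3)
    have hm : ∀ p ∈ [a, b, c], f p ∈ [f a, f b, f c] := fun p hp =>
      List.mem_map_of_mem (f := f) hp
    refine ⟨fun p => k (f p), ?_, ?_, ?_, ?_⟩
    · intro p hp x hx
      rw [hk.kown _ (hm p hp) _ hx]
      exact Function.leftInverse_invFun hf u
    · intro p hp q hq hne
      exact hk.disj _ (hm p hp) _ (hm q hq) (hf.ne hne)
    · intro p hp q hq
      exact hk.eqv _ (hm p hp) _ (hm q hq)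
    · intro l c h1 h2
      have := hk.pv _ (c.map hf ha) (by rw [hh]; exact hm _ h1) (by rw [hl]; exact hm _ h2)
      rw [hh, hl] at this
      rw [tw_map]
      exact this
  · intro p q hne
    exact s.hI _ _ (hf.ne hne)
  · intro a b c d h1 h2 n1 n2 n3 n4
    exact s.vk _ _ _ _ (ha _ _ h1) (ha _ _ h2) (hf.ne n1) (hf.ne n2) (hf.ne n3) (hf.ne n4)

theorem KG.mono [Nonempty V] {G G' : SimpleGraph V} (h : G' ≤ G) (hG : KG X G) : KG X G' :=
  hG.pull id Function.injective_id fun _ _ hab => h hab

end Pool.Agent.Lib.MP_1f96ff_gt.K
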