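import Pool.Agent.Lib.MP_1f96ff_gt.K.Cert

/- A faster test for the models and faster linear forms. -/

set_option autoImplicit false

namespace Pool.Agent.Lib.MP_1f96ff_gt.K

/-- The set of the entries of a list. -/
noncomputable def mk (l : List ℕ) : ℕ :=
  List.rec (motive := fun _ => ℕ) 0 (fun a _ ih => Nat.lor (Nat.pow 2 a) ih) l

theorem mk_mem {a : ℕ} {l : List ℕ} (h : a ∈ l) : (mk l).testBit a = true := by
  have : ∀ l, mk l = msk l := fun l => by
    induction l with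
    | nil => rfl
    | cons b l ih => exact congrArg (fun x => 2 ^ b ||| x) ih
  rw [this]
  exact msk_mem h

/-- The set of the repeated entries. -/
noncomputable def rp (l : List ℕ) : ℕ → ℕ :=
  List.rec (motive := fun _ => ℕ → ℕ) (fun _ => 0)
    (fun a _ ih m => Nat.lor (Nat.land m (Nat.pow 2 a)) (ih (Nat.lor m (Nat.pow 2 a)))) l

theorem lor0 {a b : ℕ} (h : Nat.lor a b = 0) : a = 0 ∧ b = 0 := Nat.or_eq_zero_iff.1 h

theorem rp_sound (l : List ℕ) (m : ℕ) (h : rp l m = 0) :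
    l.Nodup ∧ ∀ a ∈ l, m.testBit a = false := by
  apply ndB_sound
  induction l generalizing m with
  | nil => rfl
  | cons a l ih =>
    obtain ⟨h1, h2⟩ := lor0 h
    have := congrArg (fun n => Nat.testBit n a) (show m &&& 2 ^ a = 0 from h1)
    simp only [ndB, Bool.and_eq_true, Bool.not_eq_true']
    exact ⟨by simpa using this, ih _ h2⟩

noncomputable def bt (a b : ℕ) : ℕ := Nat.pow 2 (Nat.add (Nat.mul 16 a) b)

/-- The darts of the walk `r :: l`. -/
noncomputable def pe (l : List ℕ) : ℕ → ℕ :=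
  List.rec (motive := fun _ => ℕ → ℕ) (fun _ => 0) (fun a _ ih r => Nat.lor (bt r a) (ih a)) l

/-- All bits of `x` are bits of `y`. -/
def Sb (x y : ℕ) : Prop := ∀ i, x.testBit i = true → y.testBit i = true

theorem Sb.lor {a b y : ℕ} (h : Sb (Nat.lor a b) y) : Sb a y ∧ Sb b y := by
  constructor <;> intro i hi <;> apply h <;> show (a ||| b).testBit i = true <;> simp [hi]

theorem sb_of {A x : ℕ} (h : Nat.xor A (Nat.lor A x) = 0) : Sb x A := fun i hi => by
  have e : A = A ||| x := Nat.eq_of_xor_eq_zero h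
  rw [e, Nat.testBit_or, hi, Bool.or_true]

theorem ble_f {a b : ℕ} (h : a < b) : Nat.ble b a = false :=
  Bool.eq_false_iff.2 fun k => h.not_ge (Nat.le_of_ble_eq_true k)

theorem ble_t {a b : ℕ} (h : ¬a < b) : Nat.ble b a = true := Nat.ble_eq_true_of_le (not_lt.1 h)

/-- The diagonal. -/
def dgn : ℕ := 0x8000400020001000080004000200010000800040002000100008000400020001

theorem bt_adj {A a b : ℕ} (hA : A &&& dgn = 0) (ha : a < 16) (hb : b < 16) (h : Sb (bt a b) A) :
    (gr A).Adj a b := by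
  have k : A.testBit (16 * a + b) = true := h _ Nat.testBit_two_pow_self
  refine ⟨?_, ha, hb, Or.inl k⟩
  rintro rfl
  have := congrArg (fun n => Nat.testBit n (16 * a + a)) hA
  have e : ∀ a < 16, dgn.testBit (16 * a + a) = true := by decide
  simp [k, e a ha] at this

theorem pe_sound {A : ℕ} (hA : A &&& dgn = 0) (l : List ℕ) (r : ℕ) (hl : ∀ a ∈ r :: l, a < 16)
    (h : Sb (pe l r) A) : List.IsChain (gr A).Adj (r :: l) := by
  induction l generalizing r with
  | nil => simp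
  | cons a l ih =>
    obtain ⟨h1, h2⟩ := Sb.lor h
    rw [List.isChain_cons_cons]
    exact ⟨bt_adj hA (hl r (by simp)) (hl a (by simp)) h1,
      ih a (fun b hb => hl b (List.mem_cons_of_mem _ hb)) h2⟩

section
variable {V : Type} {G : SimpleGraph V}

theorem chain_rev (r : V) (U W : List V) (h1 : List.IsChain G.Adj (r :: U))
    (h2 : List.IsChain G.Adj (r :: W)) : List.IsChain G.Adj (U.reverse ++ r :: W) := by
  induction U generalizing r W with
  | nil => exact h2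
  | cons a U ih =>
    rw [List.isChain_cons_cons] at h1
    rw [List.reverse_cons, List.append_assoc]
    exact ih a _ h1.2 (List.isChain_cons_cons.2 ⟨h1.1.symm, h2⟩)

theorem join_ok [DecidableEq V] (r : V) (U W : List V) (h1 : List.IsChain G.Adj (r :: U))
    (h2 : List.IsChain G.Adj (r :: W)) :
    List.IsChain G.Adj (join r U W) ∧ ∀ z ∈ join r U W, z = r ∨ z ∈ U ∨ z ∈ W := by
  have base : ∀ (r : V) (U W : List V), ∀ z ∈ U.reverse ++ r :: W, z = r ∨ z ∈ U ∨ z ∈ W := by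
    intro r U W z hz
    simp only [List.mem_append, List.mem_reverse, List.mem_cons] at hz
    tauto
  induction U generalizing r W with
  | nil => exact ⟨h2, base r [] W⟩
  | cons b U ih =>
    cases W with
    | nil => exact ⟨chain_rev _ _ _ h1 h2, base r _ _⟩
    | cons b' W =>
      rw [join]
      split_ifs with e
      · subst e
        obtain ⟨k1, k2⟩ := ih b W h1.tail h2.tail
        refine ⟨k1, fun z hz => ?_⟩
        have := k2 z hz
        simp only [List.mem_cons]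
        tauto
      · exact ⟨chain_rev _ _ _ h1 h2, base r _ _⟩

theorem dl_ok (r : V) (l : List V) (h : List.IsChain G.Adj (r :: l)) :
    ∀ e ∈ dl r l, G.Adj e.1 e.2 ∧ e.1 ∈ r :: l ∧ e.2 ∈ r :: l := by
  induction l generalizing r with
  | nil => simp [dl]
  | cons a l ih =>
    rw [List.isChain_cons_cons] at h
    intro e he
    rcases List.mem_cons.1 he with rfl | he
    · exact ⟨h.1, by simp, by simp⟩
    · have := ih a h.2 e he
      exact ⟨this.1, List.mem_cons_of_mem _ this.2.1, List.mem_cons_of_mem _ this.2.2⟩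

theorem chain_app {A B : List V} (d : V) (h1 : List.IsChain G.Adj A)
    (h2 : List.IsChain G.Adj B) (h : G.Adj (A.getLastD d) (B.headD d)) :
    List.IsChain G.Adj (A ++ B) := by
  refine List.IsChain.append h1 h2 ?_
  intro p hp q hq
  rw [List.getLastD_eq_getLast?, Option.mem_def.1 hp, List.headD_eq_head?_getD,
    Option.mem_def.1 hq] at h
  exact h

theorem cyc4 {A B C D : List V} (d : V) (n1 : A ≠ []) (n2 : B ≠ []) (n3 : C ≠ []) (n4 : D ≠ [])
    (c1 : List.IsChain G.Adj A) (c2 : List.IsChain G.Adj B) (c3 : List.IsChain G.Adj C)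
    (c4 : List.IsChain G.Adj D) (a1 : G.Adj (A.getLastD d) (B.headD d))
    (a2 : G.Adj (B.getLastD d) (C.headD d)) (a3 : G.Adj (C.getLastD d) (D.headD d))
    (a4 : G.Adj (D.getLastD d) (A.headD d)) (nd : (A ++ (B ++ (C ++ D))).Nodup) :
    CycL G (A ++ (B ++ (C ++ D))) := by
  have k3 := chain_app d c3 c4 a3
  have k2 := chain_app d c2 k3 (by rwa [headD_app' n3])
  have k1 := chain_app d c1 k2 (by rwa [headD_app' n2])
  have k0 := chain_app (B := [A.headD d]) d k1 (by simp) (by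
    rwa [getLastD_app' _ (by simp [n2]), getLastD_app' _ (by simp [n3]), getLastD_app' _ n4])
  obtain ⟨a, A, rfl⟩ := List.exists_cons_of_ne_nil n1
  refine ⟨a, _, rfl, nd, ?_, k0⟩
  have := List.length_pos_of_ne_nil n2
  have := List.length_pos_of_ne_nil n3
  simp only [List.append_eq, List.length_append]
  omega

end

/-- The vertices of one tree. -/
noncomputable def tv (r : ℕ) (P Q : Bool → List ℕ) : ℕ :=
  Nat.lor (Nat.pow 2 r) (Nat.lor (Nat.lor (mk (P false)) (mk (P true)))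
    (Nat.lor (mk (Q false)) (mk (Q true))))

/-- The darts of one tree and the two darts to the next tree. -/
noncomputable def te (r : ℕ) (P Q : Bool → List ℕ) (r' : ℕ) (P' : Bool → List ℕ) : ℕ :=
  Nat.lor (Nat.lor (Nat.lor (pe (P false) r) (pe (P true) r))
    (Nat.lor (pe (Q false) r) (pe (Q true) r)))
    (Nat.lor (bt ((Q false).getLastD r) ((P' false).getLastD r'))
      (bt ((Q true).getLastD r) ((P' true).getLastD r')))

/-- Repeated vertices on the four paths through one tree. -/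
noncomputable def tn (r : ℕ) (P Q : Bool → List ℕ) : ℕ :=
  Nat.lor (Nat.lor (rp (join r (P false) (Q false)) 0) (rp (join r (P false) (Q true)) 0))
    (Nat.lor (rp (join r (P true) (Q false)) 0) (rp (join r (P true) (Q true)) 0))

noncomputable def err4 (t1 t2 t3 t4 : ℕ) : ℕ :=
  Nat.lor (Nat.lor (Nat.land t1 t2) (Nat.land (Nat.lor t1 t2) t3))
    (Nat.lor (Nat.land (Nat.lor (Nat.lor t1 t2) t3) t4)
      (Nat.shiftRight (Nat.lor (Nat.lor (Nat.lor t1 t2) t3) t4) 16))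

noncomputable def errM (A : ℕ) (m : Mdl ℕ) : ℕ :=
  Nat.lor (Nat.lor (err4 (tv m.r1 m.P1 m.Q1) (tv m.r2 m.P2 m.Q2) (tv m.r3 m.P3 m.Q3)
    (tv m.r4 m.P4 m.Q4)) (Nat.land A dgn))
    (Nat.lor (Nat.xor A (Nat.lor A (Nat.lor
      (Nat.lor (te m.r1 m.P1 m.Q1 m.r2 m.P2) (te m.r2 m.P2 m.Q2 m.r3 m.P3))
      (Nat.lor (te m.r3 m.P3 m.Q3 m.r4 m.P4) (te m.r4 m.P4 m.Q4 m.r1 m.P1)))))
      (Nat.lor (Nat.lor (tn m.r1 m.P1 m.Q1) (tn m.r2 m.P2 m.Q2))
        (Nat.lor (tn m.r3 m.P3 m.Q3) (tn m.r4 m.P4 m.Q4))))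

theorem tv_mem {r : ℕ} {P Q : Bool → List ℕ} {z : ℕ} {a b : Bool}
    (h : z = r ∨ z ∈ P a ∨ z ∈ Q b) : (tv r P Q).testBit z = true := by
  show (2 ^ r ||| ((mk _ ||| mk _) ||| (mk _ ||| mk _))).testBit z = true
  simp only [Nat.testBit_or, Bool.or_eq_true]
  rcases h with rfl | h | h
  · exact Or.inl Nat.testBit_two_pow_self
  · cases a <;> simp [mk_mem h]
  · cases b <;> simp [mk_mem h]

/-- What the test shows for one tree. -/
structure TOk (A t t' r : ℕ) (P Q : Bool → List ℕ) (r' : ℕ) (P' : Bool → List ℕ) : Prop where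
  ch : ∀ a b, List.IsChain (gr A).Adj (join r (P a) (Q b))
  nd : ∀ a b, (join r (P a) (Q b)).Nodup
  mem : ∀ a b, ∀ z ∈ join r (P a) (Q b), t.testBit z = true
  adj : ∀ a, (gr A).Adj ((Q a).getLastD r) ((P' a).getLastD r')
  cP : ∀ a, List.IsChain (gr A).Adj (r :: P a)
  cQ : ∀ a, List.IsChain (gr A).Adj (r :: Q a)

theorem tok {A r r' : ℕ} {P Q P' Q' : Bool → List ℕ} (hA : A &&& dgn = 0)
    (h1 : ∀ z, (tv r P Q).testBit z = true → z < 16)
    (h2 : ∀ z, (tv r' P' Q').testBit z = true → z < 16) (h3 : Sb (te r P Q r' P') A)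
    (h4 : tn r P Q = 0) : TOk A (tv r P Q) (tv r' P' Q') r P Q r' P' := by
  obtain ⟨⟨⟨a1, a2⟩, a3, a4⟩, a5, a6⟩ := h3.lor.imp (fun h => h.lor.imp Sb.lor Sb.lor) Sb.lor
  obtain ⟨⟨b1, b2⟩, b3, b4⟩ := (lor0 h4).imp lor0 lor0
  have lP : ∀ a, ∀ z ∈ r :: P a, z < 16 := fun a z hz =>
    h1 z (tv_mem (b := a) ((List.mem_cons.1 hz).imp_right Or.inl))
  have lQ : ∀ a, ∀ z ∈ r :: Q a, z < 16 := fun a z hz =>
    h1 z (tv_mem (a := a) ((List.mem_cons.1 hz).imp_right Or.inr))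
  have lP' : ∀ a, ∀ z ∈ r' :: P' a, z < 16 := fun a z hz =>
    h2 z (tv_mem (b := a) ((List.mem_cons.1 hz).imp_right Or.inl))
  have cP : ∀ a, List.IsChain (gr A).Adj (r :: P a) := fun a =>
    pe_sound hA _ _ (lP a) (by cases a <;> assumption)
  have cQ : ∀ a, List.IsChain (gr A).Adj (r :: Q a) := fun a =>
    pe_sound hA _ _ (lQ a) (by cases a <;> assumption)
  refine ⟨fun a b => (join_ok _ _ _ (cP a) (cQ b)).1, fun a b => ?_,
    fun a b z hz => tv_mem ((join_ok _ _ _ (cP a) (cQ b)).2 z hz), fun a => ?_, cP, cQ⟩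
  · refine (rp_sound _ 0 ?_).1
    cases a <;> cases b <;> assumption
  · refine bt_adj hA (lQ a _ List.getLastD_mem_cons) (lP' a _ List.getLastD_mem_cons) ?_
    cases a <;> assumption

theorem arc_ok {A t t' t'' r r' r'' : ℕ} {P Q P' Q' P'' : Bool → List ℕ}
    (h : TOk A t t' r P Q r' P') (h' : TOk A t' t'' r' P' Q' r'' P'') (e1 : t = tv r P Q)
    (e2 : t' = tv r' P' Q') : ∀ e ∈ arc r (Q false) r' (P' false) ++ arc r (Q true) r' (P' true),
      (gr A).Adj e.1 e.2 ∧ (t.testBit e.1 = true ∨ t'.testBit e.1 = true) ∧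
        (t.testBit e.2 = true ∨ t'.testBit e.2 = true) := by
  have m1 : ∀ a, ∀ z ∈ r :: Q a, t.testBit z = true := fun a z hz =>
    e1 ▸ tv_mem (a := a) ((List.mem_cons.1 hz).imp_right Or.inr)
  have m2 : ∀ a, ∀ z ∈ r' :: P' a, t'.testBit z = true := fun a z hz =>
    e2 ▸ tv_mem (b := a) ((List.mem_cons.1 hz).imp_right Or.inl)
  have k : ∀ a, ∀ e ∈ arc r (Q a) r' (P' a), (gr A).Adj e.1 e.2 ∧
      (t.testBit e.1 = true ∨ t'.testBit e.1 = true) ∧
        (t.testBit e.2 = true ∨ t'.testBit e.2 = true) := by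
    intro a e he
    rcases List.mem_cons.1 he with rfl | he
    · exact ⟨h.adj a, Or.inl (m1 a _ List.getLastD_mem_cons),
        Or.inr (m2 a _ List.getLastD_mem_cons)⟩
    · rcases List.mem_append.1 he with he | he
      · have := dl_ok _ _ (h.cQ a) e he
        exact ⟨this.1, Or.inl (m1 a _ this.2.1), Or.inl (m1 a _ this.2.2)⟩
      · have := dl_ok _ _ (h'.cP a) e he
        exact ⟨this.1, Or.inr (m2 a _ this.2.1), Or.inr (m2 a _ this.2.2)⟩
  intro e he
  exact (List.mem_append.1 he).elim (k _ e) (k _ e)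

theorem errM_sound {X : Type} {A : ℕ} (s : KS X (gr A)) (hs : ∀ z a b, s.φ z a b = s.φ z b a)
    {m : Mdl ℕ} (h : errM A m = 0) :
    ev (yy s) (form m.E3 m.E1) * ev (yy s) (form m.E2 m.E4) = 0 := by
  obtain ⟨⟨h1, hA⟩, h2, h3⟩ := (lor0 h).imp lor0 lor0
  obtain ⟨⟨n1, n2⟩, n3, n4⟩ := (lor0 h3).imp lor0 lor0
  obtain ⟨⟨s1, s2⟩, s3, s4⟩ := (sb_of h2).lor.imp Sb.lor Sb.lor
  obtain ⟨⟨d1, d2⟩, d3, d4⟩ := (lor0 h1).imp lor0 lor0
  set t1 := tv m.r1 m.P1 m.Q1 with e1
  set t2 := tv m.r2 m.P2 m.Q2 with e2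
  set t3 := tv m.r3 m.P3 m.Q3 with e3
  set t4 := tv m.r4 m.P4 m.Q4 with e4
  have dj : ∀ z, ¬(t1.testBit z = true ∧ t2.testBit z = true) ∧
      ¬((t1.testBit z = true ∨ t2.testBit z = true) ∧ t3.testBit z = true) ∧
      ¬(((t1.testBit z = true ∨ t2.testBit z = true) ∨ t3.testBit z = true) ∧
        t4.testBit z = true) := by
    intro z
    have k1 := congrArg (fun n => Nat.testBit n z) (show t1 &&& t2 = 0 from d1)
    have k2 := congrArg (fun n => Nat.testBit n z) (show (t1 ||| t2) &&& t3 = 0 from d2)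
    have k3 := congrArg (fun n => Nat.testBit n z) (show (t1 ||| t2 ||| t3) &&& t4 = 0 from d3)
    simp only [Nat.testBit_and, Nat.testBit_or, Nat.zero_testBit] at k1 k2 k3
    simp only [← Bool.or_eq_true, ← Bool.and_eq_true, k1, k2, k3]
    decide
  have lt : ∀ z, t1.testBit z = true ∨ t2.testBit z = true ∨ t3.testBit z = true ∨
      t4.testBit z = true → z < 16 := by
    intro z hz
    by_contra k
    have k1 := congrArg (fun n => Nat.testBit n (z - 16))
      (show (t1 ||| t2 ||| t3 ||| t4) >>> 16 = 0 from d4)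
    simp only [Nat.testBit_shiftRight, show 16 + (z - 16) = z by omega, Nat.testBit_or,
      Nat.zero_testBit, Bool.or_eq_false_iff] at k1
    simp [k1.1.1.1, k1.1.1.2, k1.1.2, k1.2] at hz
  have l1 : ∀ z, t1.testBit z = true → z < 16 := fun z k => lt z (Or.inl k)
  have l2 : ∀ z, t2.testBit z = true → z < 16 := fun z k => lt z (Or.inr (Or.inl k))
  have l3 : ∀ z, t3.testBit z = true → z < 16 := fun z k => lt z (Or.inr (Or.inr (Or.inl k)))
  have l4 : ∀ z, t4.testBit z = true → z < 16 := fun z k => lt z (Or.inr (Or.inr (Or.inr k)))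
  have o1 := tok hA l1 l2 s1 n1
  have o2 := tok hA l2 l3 s2 n2
  have o3 := tok hA l3 l4 s3 n3
  have o4 := tok hA l4 l1 s4 n4
  have pr : ∀ {a b c d : Prop}, (¬(a ∧ b) ∧ ¬((a ∨ b) ∧ c) ∧ ¬(((a ∨ b) ∨ c) ∧ d)) →
      ((c ∨ d) → (a ∨ b) → False) ∧ ((b ∨ c) → (d ∨ a) → False) := by
    intro a b c d
    tauto
  have ok1 : Ok (gr A) m.E3 m.E1 := by
    intro e he f hf
    obtain ⟨a1, a2, a3⟩ := arc_ok o3 o4 rfl rfl e he
    obtain ⟨b1, b2, b3⟩ := arc_ok o1 o2 rfl rfl f hf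
    exact ⟨a1, b1, fun q => (pr (dj _)).1 a2 (q ▸ b2), fun q => (pr (dj _)).1 a2 (q ▸ b3),
      fun q => (pr (dj _)).1 a3 (q ▸ b2), fun q => (pr (dj _)).1 a3 (q ▸ b3)⟩
  have ok2 : Ok (gr A) m.E2 m.E4 := by
    intro e he f hf
    obtain ⟨a1, a2, a3⟩ := arc_ok o2 o3 rfl rfl e he
    obtain ⟨b1, b2, b3⟩ := arc_ok o4 o1 rfl rfl f hf
    exact ⟨a1, b1, fun q => (pr (dj _)).2 a2 (q ▸ b2), fun q => (pr (dj _)).2 a2 (q ▸ b3),
      fun q => (pr (dj _)).2 a3 (q ▸ b2), fun q => (pr (dj _)).2 a3 (q ▸ b3)⟩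
  rw [ev_form s hs ok1 (bal_arc _ _ _ _ _ _), ev_form s hs ok2 (bal_arc _ _ _ _ _ _)]
  have mP : ∀ {r P Q a z}, z ∈ r :: P a → (tv r P Q).testBit z = true := fun {_ _ _ a _} hz =>
    tv_mem (b := a) ((List.mem_cons.1 hz).imp_right Or.inl)
  have mQ : ∀ {r P Q a z}, z ∈ r :: Q a → (tv r P Q).testBit z = true := fun {_ _ _ a _} hz =>
    tv_mem (a := a) ((List.mem_cons.1 hz).imp_right Or.inr)
  refine d4_graph s m (fun a b c d => ?_) ok2 ?_ ?_
  · refine cyc4 0 (join_ne _ _ _) (join_ne _ _ _) (join_ne _ _ _) (join_ne _ _ _) (o2.ch _ _)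
      (o3.ch _ _) (o4.ch _ _) (o1.ch _ _) ?_ ?_ ?_ ?_ ?_
    · rw [(join_ends _ _ _ _).1, (join_ends _ _ _ _).2]
      exact o2.adj b
    · rw [(join_ends _ _ _ _).1, (join_ends _ _ _ _).2]
      exact o3.adj c
    · rw [(join_ends _ _ _ _).1, (join_ends _ _ _ _).2]
      exact o4.adj d
    · rw [(join_ends _ _ _ _).1, (join_ends _ _ _ _).2]
      exact o1.adj a
    · have m1 := o1.mem d a
      have m2 := o2.mem a b
      have m3 := o3.mem b c
      have m4 := o4.mem c d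
      simp only [List.nodup_append, o1.nd, o2.nd, o3.nd, o4.nd, true_and, List.mem_append]
      refine ⟨⟨?_, ?_⟩, ?_⟩ <;> rintro z h1 _ h2 rfl
      · exact (dj z).2.2 ⟨Or.inl (Or.inl (m1 z h2)), m4 z h1⟩
      · rcases h2 with h2 | h2
        exacts [(dj z).2.2 ⟨Or.inr (m3 z h1), m4 z h2⟩, (dj z).2.1 ⟨Or.inl (m1 z h2), m3 z h1⟩]
      · rcases h2 with h2 | h2 | h2
        exacts [(dj z).2.1 ⟨Or.inr (m2 z h1), m3 z h2⟩,
          (dj z).2.2 ⟨Or.inl (Or.inr (m2 z h1)), m4 z h2⟩, (dj z).1 ⟨m1 z h2, m2 z h1⟩]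
  · intro a d z hz
    exact ⟨fun e => (dj z).2.2 ⟨Or.inl (Or.inr (mP hz)), mQ e⟩, fun e => (dj z).1 ⟨mP e, mP hz⟩⟩
  · intro a d z hz
    exact ⟨fun e => (dj z).1 ⟨mQ hz, mQ e⟩, fun e => (dj z).2.1 ⟨Or.inl (mQ hz), mP e⟩⟩

noncomputable def cdF (e : ℕ × ℕ) : ℕ :=
  Bool.rec (motive := fun _ => ℕ) (Nat.add (Nat.mul 16 e.1) e.2) (Nat.add (Nat.mul 16 e.2) e.1)
    (Nat.ble e.2 e.1)

theorem cdF_eq (e : ℕ × ℕ) : cdF e = cd e := by
  unfold cdF cd
  split_ifs with h
  · rw [ble_f h]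
    rfl
  · rw [ble_t h]
    rfl

noncomputable def termF (e f : ℕ × ℕ) : ℕ :=
  Bool.rec (motive := fun _ => ℕ) (Nat.pow 2 (Nat.add (Nat.mul 256 (cdF e)) (cdF f)))
    (Nat.xor (Nat.pow 2 (Nat.add (Nat.mul 256 (cdF f)) (cdF e)))
      (Nat.xor (Nat.xor (Nat.sub 1 (Nat.sub f.1 e.1)) (Nat.sub 1 (Nat.sub f.2 e.1)))
        (Nat.xor (Nat.sub 1 (Nat.sub f.1 e.2)) (Nat.sub 1 (Nat.sub f.2 e.2)))))
    (Nat.ble (cdF f) (cdF e))

theorem termF_eq (e f : ℕ × ℕ) : termF e f = term e f := by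
  have k : ∀ a b : ℕ, Nat.sub 1 (Nat.sub b a) = 1 - ltN a b := by
    intro a b
    show 1 - (b - a) = _
    unfold ltN
    split_ifs <;> omega
  unfold termF term
  rw [cdF_eq, cdF_eq, k, k, k, k]
  split_ifs with h
  · rw [ble_f h]
    rfl
  · rw [ble_t h]
    refine congrArg (fun x => 2 ^ (256 * cd f + cd e) ^^^ x) ?_
    unfold cr ltN
    split_ifs <;> rfl

noncomputable def formF (E F : List (ℕ × ℕ)) : ℕ :=
  List.rec (motive := fun _ => ℕ) 0 (fun e _ acc =>
    List.rec (motive := fun _ => ℕ) acc (fun f _ ih => Nat.xor (termF e f) ih) F) E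

theorem formF_eq (E F : List (ℕ × ℕ)) : formF E F = form E F := by
  induction E with
  | nil => rfl
  | cons e E ih =>
    show List.rec (motive := fun _ => ℕ) (formF E F) _ F = F.foldr _ (form E F)
    rw [ih]
    generalize form E F = acc
    clear ih
    induction F with
    | nil => rfl
    | cons f F ih =>
      show termF e f ^^^ _ = term e f ^^^ _
      rw [termF_eq]
      exact congrArg _ ih

noncomputable def xorF (es : List ℕ) : ℕ → ℕ :=
  List.rec (motive := fun _ => ℕ → ℕ) (fun _ => 0) (fun e _ ih S =>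
    Bool.rec (motive := fun _ => ℕ) (Bool.rec (motive := fun _ => ℕ)
      (Nat.xor e (ih (Nat.shiftRight S 1))) (ih (Nat.shiftRight S 1)) (Nat.beq (Nat.land S 1) 0))
      0 (Nat.beq S 0)) es

theorem ev_xorF (y : ℕ → ZMod 2) (es : List ℕ) (S : ℕ) (h : ∀ e ∈ es, ev y e = 0) :
    ev y (xorF es S) = 0 := by
  induction es generalizing S with
  | nil => exact ev_zero _
  | cons e es ih =>
    have := ih (Nat.shiftRight S 1) fun e he => h e (List.mem_cons_of_mem _ he)
    show ev y (Bool.rec (motive := fun _ => ℕ) (Bool.rec (motive := fun _ => ℕ)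
      (e ^^^ xorF es _) (xorF es _) _) 0 _) = 0
    cases Nat.beq S 0
    · cases Nat.beq (Nat.land S 1) 0
      · show ev y (_ ^^^ _) = 0
        rw [ev_xor, this, h e List.mem_cons_self, add_zero]
      · exact this
    · exact ev_zero _

end Pool.Agent.Lib.MP_1f96ff_gt.K
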