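import Pool.Agent.Lib.MP_1f96ff_gt.K.Contr2

/- Moving the middles of the edges at a vertex of degree at most three to its median. -/

set_option autoImplicit false

namespace Pool.Agent.Lib.MP_1f96ff_gt.K

open Classical

variable {V X : Type} {G : SimpleGraph V}

theorem Cyc.rot {a b : V} {l : List V} (c : Cyc G a (b :: l)) : Cyc G b (l ++ [a]) := by
  obtain ⟨h1, h2, h3⟩ := c
  rw [List.cons_append, List.isChain_cons_cons] at h3
  refine ⟨?_, by simpa using h2, chain_snoc _ _ _ _ h3.2 h3.1⟩
  have : (b :: (l ++ [a])).Perm (a :: b :: l) := by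
    rw [← List.cons_append]
    exact List.perm_append_comm
  exact this.nodup_iff.2 h1

theorem chain_init {R : V → V → Prop} (a : V) (l : List V) (b c : V)
    (h : List.IsChain R (a :: ((l ++ [b]) ++ [c]))) : List.IsChain R (a :: (l ++ [b])) ∧ R b c := by
  induction l generalizing a with
  | nil =>
    simp only [List.nil_append, List.cons_append, List.isChain_cons_cons] at h ⊢
    exact ⟨⟨h.1, List.isChain_singleton _⟩, h.2.1⟩
  | cons z l ih =>
    simp only [List.cons_append, List.isChain_cons_cons] at h ⊢
    exact ⟨⟨h.1, (ih z h.2).1⟩, (ih z h.2).2⟩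

theorem Cyc.rot' {a b : V} {l : List V} (c : Cyc G b (l ++ [a])) : Cyc G a (b :: l) := by
  obtain ⟨h1, h2, h3⟩ := c
  obtain ⟨h4, h5⟩ := chain_init _ _ _ _ h3
  refine ⟨?_, by simpa using h2, ?_⟩
  · have : (b :: (l ++ [a])).Perm (a :: b :: l) := by
      rw [← List.cons_append]
      exact List.perm_append_comm
    exact this.nodup_iff.1 h1
  · rw [List.cons_append, List.isChain_cons_cons]
    exact ⟨h5, h4⟩

/-- Symmetric count of crossings. -/
noncomputable def Om (U W : List (X × Bool)) : ZMod 2 := om U W + om W U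

theorem Om_append (U U' W : List (X × Bool)) : Om (U ++ U') W = Om U W + Om U' W := by
  unfold Om
  rw [om_append_left, om_append_right]
  ring

theorem Om_rev (U W : List (X × Bool)) : Om U.reverse W = Om U W := by
  unfold Om
  rw [om_reverse_left, om_reverse_right]

theorem Om_rev' (U W : List (X × Bool)) : Om U W.reverse = Om U W := by
  unfold Om
  rw [om_reverse_left, om_reverse_right]

theorem Eqv.Om {U U' : List (X × Bool)} (h : Eqv U U') (W : List (X × Bool)) :
    Om U W = Om U' W := by
  unfold K.Om
  rw [h.om (Eqv.rfl' W), (Eqv.rfl' W).om h]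

section
variable (x : V) (T : List V) (h : V → V → List (X × Bool)) (k : V → List (X × Bool))

noncomputable def ee (p z : V) : List (X × Bool) :=
  if p = x then (if z ∈ T then k z else []) else if z = x then (if p ∈ T then k p else []) else []

noncomputable def hn (a b : V) : List (X × Bool) :=
  if a = x then [] else h a b ++ (ee x T k a b).reverse

noncomputable def on (own : X × Bool → V) (l : X × Bool) : V :=
  if e : ∃ p ∈ T, l ∈ k p then e.choose else own l

theorem ee_symm (p z : V) : ee x T k p z = ee x T k z p := by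
  unfold ee
  by_cases e1 : p = x <;> by_cases e2 : z = x <;> simp [e1, e2]

end

section
variable (s : KS X G) {x : V} {T : List V} {k : V → List (X × Bool)}
  (hk : Med G s.h s.own x T k) (hT : ∀ z, G.Adj x z ↔ z ∈ T)

include hk hT

omit hT in
theorem on_k {p : V} (hp : p ∈ T) {l : X × Bool} (hl : l ∈ k p) : on T k s.own l = p := by
  have e : ∃ p ∈ T, l ∈ k p := ⟨p, hp, hl⟩
  unfold on
  rw [dif_pos e]
  by_contra hne
  exact hk.disj _ e.choose_spec.1 _ hp hne l e.choose_spec.2 hl

omit hT in
theorem on_ne {l : X × Bool} (hl : s.own l ≠ x) : on T k s.own l = s.own l := by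
  unfold on
  rw [dif_neg]
  rintro ⟨p, hp, h⟩
  exact hl (hk.kown p hp l h)

omit hk hT in
theorem ee_own {a b : V} (ha : a ≠ x) : ∀ l ∈ ee x T k a b, b = x ∧ a ∈ T ∧ l ∈ k a := by
  intro l hl
  unfold ee at hl
  rw [if_neg ha] at hl
  split_ifs at hl with e1 e2
  · exact ⟨e1, e2, hl⟩
  · simp at hl
  · simp at hl

theorem tau_hn (p z q : V) (h1 : G.Adj p z) (h2 : G.Adj z q) :
    Eqv (tau (hn x T s.h k) p z q)
      (ee x T k p z ++ (tau s.h p z q ++ (ee x T k z q).reverse)) := by
  by_cases e : z = x
  · subst e
    have hp := (hT p).1 h1.symm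
    have hq := (hT q).1 h2
    have e1 : ee z T k p z = k p := by simp [ee, h1.ne, hp]
    have e2 : ee z T k z q = k q := by simp [ee, hq]
    have e3 : tau (hn z T s.h k) p z q = [] := by simp [tau, hn]
    rw [e1, e2, e3]
    refine Eqv.symm (((Eqv.rfl' _).append ((hk.eqv p hp q hq).symm.append (Eqv.rfl' _))).trans ?_)
    have := Eqv.cancel [] (k p) (k q ++ (k q).reverse)
    simp only [List.nil_append, List.append_assoc] at this ⊢
    exact this.trans (eqv_rev _)
  · apply Eqv.of_eq
    simp [tau, hn, e, ee_symm x T k p z]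

theorem tw_hn (p : V) (l : List V) (q : V) (c : List.IsChain G.Adj (p :: (l ++ [q]))) :
    Eqv (tw (hn x T s.h k) p l q) (ee x T k p (l.headD q) ++
      (tw s.h p l q ++ (ee x T k (l.getLastD p) q).reverse)) := by
  induction l generalizing p with
  | nil => exact (eqv_rev _).symm
  | cons z l ih =>
    rw [List.cons_append, List.isChain_cons_cons] at c
    have h1 := tau_hn s hk hT p z _ c.1 (chain_head _ _ _ c.2)
    refine (h1.append (ih z c.2)).trans ?_
    have := Eqv.cancel' (ee x T k p z ++ tau s.h p z (l.headD q)) (ee x T k z (l.headD q))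
      (tw s.h z l q ++ (ee x T k (l.getLastD z) q).reverse)
    simpa only [List.append_assoc, tw, List.headD_cons, List.getLastD_cons] using this

theorem norm_mid (a : V) (l : List V) (c : Cyc G a l) :
    PV (tw (hn x T s.h k) (l.getLastD a) (a :: l) a) = 0 := by
  rw [(tw_hn s hk hT _ _ _ c.chain').pv, List.headD_cons, List.getLastD_cons]
  have aL := chain_last _ _ _ c.2.2
  by_cases e1 : a = x
  · subst e1
    have hL := (hT _).1 aL.symm
    have hH := (hT _).1 (chain_head _ _ _ c.2.2)
    have e : ee a T k (l.getLastD a) a = k (l.getLastD a) := by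
      unfold ee
      rw [if_neg aL.ne, if_pos rfl, if_pos hL]
    rw [e, ← hk.pv l c hH hL]
    apply Eqv.pv
    simp only [tw, List.append_assoc]
    refine ((Eqv.rfl' _).append ((hk.eqv _ hL _ hH).symm.append (Eqv.rfl' _))).trans ?_
    have := Eqv.cancel [] (k (l.getLastD a))
      (k (l.headD a) ++ (tw s.h a l a ++ (k (l.getLastD a)).reverse))
    simpa only [List.nil_append, List.append_assoc] using this
  · by_cases e2 : l.getLastD a = x
    · rcases List.eq_nil_or_concat l with rfl | ⟨l0, b, rfl⟩
      · exact absurd e2 e1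
      · rw [List.concat_eq_append] at *
        have eb : (l0 ++ [b]).getLastD a = b := by simp
        rw [eb] at e2 aL ⊢
        subst e2
        have c' := c.rot'
        have ha := (hT _).1 aL
        have hL := (hT _).1 (chain_last _ _ _ c'.2.2).symm
        have e : ee b T k b a = k a := by simp [ee, ha]
        rw [e, ← hk.pv _ c' ha hL, ← List.cons_append, tw_append]
        apply Eqv.pv
        simp only [tw, List.append_assoc, List.headD_cons, List.headD_nil, List.append_nil]
        refine (Eqv.rfl' _).append ((Eqv.rfl' _).append ((Eqv.rfl' _).append ?_))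
        refine ((hk.eqv _ hL _ ha).symm.append (Eqv.rfl' _)).trans ?_
        have := Eqv.cancel (k ((a :: l0).getLastD b)).reverse (k a) []
        simpa only [List.append_nil, List.append_assoc] using this
    · have e : ee x T k (l.getLastD a) a = [] := by
        unfold ee
        rw [if_neg e2, if_neg e1]
      rw [e]
      simpa using s.mid a l c

theorem norm_med (w a b c : V) (h1 : G.Adj w a) (h2 : G.Adj w b) (h3 : G.Adj w c) :
    ∃ k', Med G (hn x T s.h k) (on T k s.own) w [a, b, c] k' := by
  by_cases e : w = x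
  · subst e
    refine ⟨fun _ => [], by simp, by simp, ?_, ?_⟩
    · intro p _ q _
      apply Eqv.of_eq
      simp [tau, hn]
    · intro l c _ _
      have := norm_mid s hk hT w l c
      simpa [tw, tau, hn] using this
  · obtain ⟨k', hk'⟩ := s.med w a b c h1 h2 h3
    refine ⟨fun p => k' p ++ (ee x T k w p).reverse, ?_, ?_, ?_, ?_⟩
    · intro p hp l hl
      rcases List.mem_append.1 hl with hl | hl
      · have := hk'.kown p hp l hl
        rw [on_ne s hk (this ▸ e), this]
      · have := ee_own e l (List.mem_reverse.1 hl)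
        exact on_k s hk this.2.1 this.2.2
    · intro p hp q hq hne l hl hl'
      rcases List.mem_append.1 hl with hl | hl <;> rcases List.mem_append.1 hl' with hl' | hl'
      · exact hk'.disj p hp q hq hne l hl hl'
      · have := ee_own e l (List.mem_reverse.1 hl')
        exact e ((hk'.kown p hp l hl).symm.trans (hk.kown _ this.2.1 l this.2.2))
      · have := ee_own e l (List.mem_reverse.1 hl)
        exact e ((hk'.kown q hq l hl').symm.trans (hk.kown _ this.2.1 l this.2.2))
      · exact hne ((ee_own e l (List.mem_reverse.1 hl)).1.trans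
          (ee_own e l (List.mem_reverse.1 hl')).1.symm)
    · intro p hp q hq
      have := (Eqv.rfl' (ee x T k w p)).append
        ((hk'.eqv p hp q hq).append (Eqv.rfl' (ee x T k w q).reverse))
      simpa [tau, hn, e] using this
    · intro l c h1 h2
      rw [← hk'.pv l c h1 h2]
      apply Eqv.pv
      refine ((Eqv.rfl' _).append ((tw_hn s hk hT _ _ _ c.2.2).append (Eqv.rfl' _))).trans ?_
      rw [ee_symm x T k (l.getLastD w) w]
      have t1 := Eqv.cancel' (k' (l.headD w)) (ee x T k w (l.headD w)) (tw s.h w l w ++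
        ((ee x T k w (l.getLastD w)).reverse ++ (ee x T k w (l.getLastD w) ++
          (k' (l.getLastD w)).reverse)))
      have t2 := Eqv.cancel' (k' (l.headD w) ++ tw s.h w l w) (ee x T k w (l.getLastD w))
        (k' (l.getLastD w)).reverse
      simp only [List.append_assoc, List.reverse_append, List.reverse_reverse] at t1 t2 ⊢
      exact t1.trans t2

theorem norm_vk {y : V} (hy : y ∈ T) (a b c d : V) (h1 : G.Adj a b) (h2 : G.Adj c d) (n1 : a ≠ c)
    (n2 : a ≠ d) (n3 : b ≠ c) (n4 : b ≠ d) (hc : c ≠ x) (hd : d ≠ x) :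
    VK (hn x T s.h k) s.I (fun z c d => s.φ z c d +
      if z = x then Om (k y ++ (s.h x y).reverse) (wd s.h c d) else 0) a b c d := by
  have w2 : wd (hn x T s.h k) c d = wd s.h c d := by simp [wd, hn, ee, hc, hd]
  have k0 : Om (wd s.h a b) (wd s.h c d) = _ := s.vk a b c d h1 h2 n1 n2 n3 n4
  have kk : ∀ q ∈ T, Eqv (k q) ((k y ++ (s.h x y).reverse) ++ s.h x q) := by
    intro q hq
    have t1 := (Eqv.rfl' (k y)).append (hk.eqv y hy q hq)
    have t2 := Eqv.cancel [] (k y) (k q)
    simp only [List.nil_append, List.append_assoc, tau] at t1 t2 ⊢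
    exact t2.symm.trans t1
  show Om _ _ = _
  simp only [w2, if_neg hc, if_neg hd, add_zero]
  by_cases e1 : a = x
  · subst e1
    have hb := (hT b).1 h1
    have w1 : wd (hn a T s.h k) a b = k b ++ (s.h b a).reverse := by
      simp [wd, hn, ee, h1.ne', hb]
    rw [w1, Om_append, (kk b hb).Om, Om_append, if_pos rfl, if_neg h1.ne']
    rw [wd, Om_append] at k0
    linear_combination k0
  · by_cases e2 : b = x
    · subst e2
      have ha := (hT a).1 h1.symm
      have w1 : wd (hn b T s.h k) a b = s.h a b ++ (k a).reverse := by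
        simp [wd, hn, ee, e1, ha]
      rw [w1, Om_append, Om_rev, (kk a ha).Om, Om_append, if_pos rfl, if_neg e1]
      rw [wd, Om_append, Om_rev] at k0
      linear_combination k0
    · have w1 : wd (hn x T s.h k) a b = wd s.h a b := by simp [wd, hn, ee, e1, e2]
      rw [w1, if_neg e1, if_neg e2]
      linear_combination k0

end

theorem KS.norm (s : KS X G) {x a b c : V} (hT : ∀ z, G.Adj x z ↔ z ∈ [a, b, c]) :
    ∃ s' : KS X G, ∀ p, s'.h x p = [] := by
  obtain ⟨k, hk⟩ := s.med x a b c ((hT _).2 (by simp)) ((hT _).2 (by simp)) ((hT _).2 (by simp))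
  have hy : a ∈ [a, b, c] := by simp
  refine ⟨⟨hn x [a, b, c] s.h k, on [a, b, c] k s.own, s.I, fun z c d => s.φ z c d +
      if z = x then Om (k a ++ (s.h x a).reverse) (wd s.h c d) else 0, ?_, norm_mid s hk hT,
      norm_med s hk hT, s.hI, ?_⟩, fun p => if_pos rfl⟩
  · intro p q l hl
    unfold hn at hl
    split_ifs at hl with e
    · simp at hl
    · rcases List.mem_append.1 hl with hl | hl
      · have := s.hown _ _ _ hl
        rw [on_ne s hk (this ▸ e), this]
      · have := ee_own e l (List.mem_reverse.1 hl)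
        exact on_k s hk this.2.1 this.2.2
  · intro p q c d h1 h2 n1 n2 n3 n4
    by_cases e : c ≠ x ∧ d ≠ x
    · exact norm_vk s hk hT hy p q c d h1 h2 n1 n2 n3 n4 e.1 e.2
    · have e1 : p ≠ x := by
        rintro rfl
        exact e ⟨n1.symm, n2.symm⟩
      have e2 : q ≠ x := by
        rintro rfl
        exact e ⟨n3.symm, n4.symm⟩
      have := VK.swap s.hI n1 n2 n3 n4
        (norm_vk s hk hT hy c d p q h2 h1 n1.symm n3.symm n2.symm n4.symm e1 e2)
      exact this

theorem KS.sym (s : KS X G) : ∃ s' : KS X G, s'.h = s.h ∧ ∀ z a b, s'.φ z a b = s'.φ z b a := by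
  have key : ∀ a b c d, G.Adj a b → G.Adj c d → a ≠ c → a ≠ d → b ≠ c → b ≠ d →
      ∀ (P : Prop), Om (wd s.h a b) (wd s.h c d) = s.I a c + s.I a d + s.I b c + s.I b d +
        (if P then s.φ a c d else s.φ a d c) + (if P then s.φ b c d else s.φ b d c) +
        s.φ c a b + s.φ d a b := by
    intro a b c d h1 h2 n1 n2 n3 n4 P
    split_ifs
    · exact s.vk a b c d h1 h2 n1 n2 n3 n4
    · have k0 : Om (wd s.h a b) (wd s.h d c) = _ := s.vk a b d c h1 h2.symm n2 n1 n4 n3
      rw [wd_rev s.h c d, Om_rev'] at k0
      linear_combination k0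
  refine ⟨⟨s.h, s.own, s.I, fun z a b => if WellOrderingRel a b then s.φ z a b else s.φ z b a,
    s.hown, s.mid, s.med, s.hI, ?_⟩, rfl, ?_⟩
  · intro a b c d h1 h2 n1 n2 n3 n4
    show Om _ _ = _
    by_cases e : WellOrderingRel a b
    · simp only [if_pos e]
      exact key a b c d h1 h2 n1 n2 n3 n4 _
    · simp only [if_neg e]
      have := key b a c d h1.symm h2 n3 n4 n1 n2 (WellOrderingRel c d)
      rw [wd_rev s.h a b, Om_rev] at this
      linear_combination this
  · intro z a b
    show (if _ then _ else _) = if _ then _ else _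
    rcases trichotomous_of WellOrderingRel a b with e | e | e
    · rw [if_pos e, if_neg (asymm e)]
    · subst e
      rfl
    · rw [if_pos e, if_neg (asymm e)]

end Pool.Agent.Lib.MP_1f96ff_gt.K
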