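import Pool.Agent.Lib.MP_1f96ff_gt.K.R0
import Pool.Agent.Lib.MP_1f96ff_gt.K.R1
import Pool.Agent.Lib.MP_1f96ff_gt.K.R2
import Pool.Agent.Lib.MP_1f96ff_gt.K.R3

/- The 21 excluded graphs. -/

set_option autoImplicit false

namespace Pool.Agent.Lib.MP_1f96ff_gt.K

def rootList : List ℕ :=
  [0x7000000000000000000000000003f001f000f0007000300010000,
  0x800000000000000000000007f003f000700070007000000000000,
  0x9000000000000000000fc00350035000a000a0003000300000000,
  0x9000000000000000000f30075003a000c000c0001000200010000,
  0x90000000000000000007d0079001c001c00020002000300010000,
  0x90000000000000000007f007f000f0017000b0005000200000000,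
  0xa00000000000001b300cc007000030005000a0005000200000000,
  0xa00000000000001b300d400680003000500090006000200000000,
  0xa0000000000000199006600740038000100020005000200010000,
  0xa00000000000001e300e5006a0034001800030005000200000000,
  0xa00000000000001f800b9005a0025000600050006000000010000,
  0xa00000000000001b900d90066002a0014000a0004000100010000,
  0xa000000000000007e00ba005c002a001400010001000300010000,
  0xa00000000000001fc00dc006c0030000300030003000300000000,
  0xa00000000000001dc00ec00740038001300030003000300000000,
  0xa00000000000000fe00fe000f0017001b000c0004000000000000,
  0xa00000000000000fd00fe00710026000a000d0003000300000000,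
  0xa000000000000007f00ee007c0034001800030003000300010000,
  0xa00000000000001dd00dd002f0037001e000a0002000100000000,
  0xa00000000000000ef00ef007300350019000e0006000200000000,
  0xb00000000000f003300550069000a0006000c0000000000000000]

theorem roots : ∀ e ∈ rootList, 0 < e >>> 208 ∧ ¬KK (Gr (e >>> 208) e) := by
  simp only [rootList, List.forall_mem_cons, List.not_mem_nil, IsEmpty.forall_iff, implies_true,
    and_true]
  exact ⟨root0, root1, root2, root3, root4, root5, root6, root7, root8, root9,
    root10, root11, root12, root13, root14, root15, root16, root17, root18, root19, root20⟩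

end Pool.Agent.Lib.MP_1f96ff_gt.K
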