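import Mathlib

/- Words in letters `(crossing, over?)`, subsequence sums modulo 2, and the `D₄` identity. -/

set_option autoImplicit false

namespace Pool.Agent.Lib.MP_1f96ff_gt.K

open Classical

variable {α X : Type}

/-- Sum of `F` over all subsequences of a word. -/
def S : List α → (List α → ZMod 2) → ZMod 2
  | [], F => F []
  | a :: W, F => S W F + S W (fun s => F (a :: s))

/-- `F` vanishes on words with two equal neighbouring letters. -/
def Adm (F : List α → ZMod 2) : Prop := ∀ s a t, F (s ++ a :: a :: t) = 0

/-- Words that no admissible subsequence sum distinguishes. -/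
def Eqv (U V : List α) : Prop := ∀ F, Adm F → S U F = S V F

noncomputable def pvF : List (X × Bool) → ZMod 2
  | [p, q, r, t] =>
      if p.2 = false ∧ q.2 = true ∧ r = (p.1, true) ∧ t = (q.1, false) ∧ p.1 ≠ q.1 then 1 else 0
  | _ => 0

/-- The Polyak-Viro count modulo 2 of a based Gauss word. -/
noncomputable def PV (W : List (X × Bool)) : ZMod 2 := S W pvF

/-- `p` is the over letter and `q` the under letter of one crossing. -/
noncomputable def ov (p q : X × Bool) : ZMod 2 := if p.2 = true ∧ q = (p.1, false) then 1 else 0

/-- Number modulo 2 of crossings where `U` passes over `V`. -/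
noncomputable def om (U V : List (X × Bool)) : ZMod 2 :=
  (U.map fun p => (V.map fun q => ov p q).sum).sum

theorem zz (a : ZMod 2) : a + a = 0 := by
  revert a
  decide

theorem S_zero (W : List α) : S W (fun _ => 0) = 0 := by
  induction W with
  | nil => rfl
  | cons a W ih => simp [S, ih]

theorem S_add (W : List α) (F G : List α → ZMod 2) :
    S W (fun s => F s + G s) = S W F + S W G := by
  induction W generalizing F G with
  | nil => rfl
  | cons a W ih =>
    simp only [S]
    rw [ih F G, ih (fun s => F (a :: s)) (fun s => G (a :: s))]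
    ring

theorem S_append (U V : List α) (F : List α → ZMod 2) :
    S (U ++ V) F = S U (fun s => S V (fun t => F (s ++ t))) := by
  induction U generalizing F with
  | nil => rfl
  | cons a U ih =>
    simp only [List.cons_append, S]
    rw [ih F, ih (fun s => F (a :: s))]

theorem S_congr {W : List α} {F G : List α → ZMod 2} (h : ∀ s, s.Sublist W → F s = G s) :
    S W F = S W G := by
  induction W generalizing F G with
  | nil => exact h [] (List.Sublist.refl _)
  | cons a W ih =>
    simp only [S]
    rw [ih (fun s hs => h s (hs.cons a)), ih (fun s hs => h (a :: s) (hs.cons_cons a))]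

theorem Eqv.rfl' (U : List α) : Eqv U U := fun _ _ => rfl

theorem Eqv.symm {U V : List α} (h : Eqv U V) : Eqv V U := fun F hF => (h F hF).symm

theorem Eqv.trans {U V W : List α} (h : Eqv U V) (h' : Eqv V W) : Eqv U W :=
  fun F hF => (h F hF).trans (h' F hF)

theorem Eqv.of_eq {U V : List α} (h : U = V) : Eqv U V := h ▸ Eqv.rfl' U

theorem Eqv.append {U U' V V' : List α} (h : Eqv U U') (h' : Eqv V V') :
    Eqv (U ++ V) (U' ++ V') := by
  intro F hF
  rw [S_append, S_append]
  have h1 : (fun s => S V (fun t => F (s ++ t))) = fun s => S V' (fun t => F (s ++ t)) := by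
    funext s
    apply h'
    intro s' a t
    have := hF (s ++ s') a t
    simpa using this
  rw [h1]
  apply h
  intro s a t
  have : (fun t' => F (s ++ a :: a :: t ++ t')) = fun _ => 0 := by
    funext t'
    have := hF s a (t ++ t')
    simpa using this
  show S V' (fun t' => F (s ++ a :: a :: t ++ t')) = 0
  rw [this, S_zero]

theorem eqv_aa (a : α) : Eqv [a, a] [] := by
  intro F hF
  have := hF [] a []
  simp only [List.nil_append] at this
  simp only [S, this]
  have := zz (F [a])
  linear_combination this

theorem eqv_rev (U : List α) : Eqv (U ++ U.reverse) [] := by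
  induction U with
  | nil => exact Eqv.rfl' _
  | cons a U ih =>
    have h : a :: U ++ (a :: U).reverse = [a] ++ ((U ++ U.reverse) ++ [a]) := by simp
    rw [h]
    exact ((Eqv.rfl' [a]).append (ih.append (Eqv.rfl' [a]))).trans (eqv_aa a)

theorem eqv_rev' (U : List α) : Eqv (U.reverse ++ U) [] := by
  have := eqv_rev U.reverse
  rwa [List.reverse_reverse] at this

theorem Eqv.cancel (A U B : List α) : Eqv (A ++ (U ++ (U.reverse ++ B))) (A ++ B) := by
  have := (Eqv.rfl' A).append ((eqv_rev U).append (Eqv.rfl' B))
  simpa using this

theorem Eqv.cancel' (A U B : List α) : Eqv (A ++ (U.reverse ++ (U ++ B))) (A ++ B) := by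
  have := (Eqv.rfl' A).append ((eqv_rev' U).append (Eqv.rfl' B))
  simpa using this

theorem Eqv.reverse {U V : List α} (h : Eqv U V) : Eqv U.reverse V.reverse := by
  have h1 : Eqv (U.reverse ++ (V ++ V.reverse)) U.reverse := by
    have := (Eqv.rfl' U.reverse).append (eqv_rev V)
    simpa using this
  have h2 : Eqv (U.reverse ++ (U ++ V.reverse)) V.reverse := by
    have := Eqv.cancel' [] U V.reverse
    simpa using this
  exact h1.symm.trans (((Eqv.rfl' _).append (h.symm.append (Eqv.rfl' _))).trans h2)

theorem pvF_len {s : List (X × Bool)} (h : s.length ≠ 4) : pvF s = 0 := by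
  rcases s with _ | ⟨p, _ | ⟨q, _ | ⟨r, _ | ⟨u, _ | ⟨v, s⟩⟩⟩⟩⟩ <;> first | rfl | simp at h

theorem adm_pvF : Adm (pvF : List (X × Bool) → ZMod 2) := by
  intro s a t
  by_cases h : (s ++ a :: a :: t).length = 4
  swap
  · exact pvF_len h
  simp only [List.length_append, List.length_cons] at h
  rcases s with _ | ⟨p, _ | ⟨q, _ | ⟨r, s⟩⟩⟩ <;>
    rcases t with _ | ⟨p', _ | ⟨q', _ | ⟨r', t⟩⟩⟩ <;>
    simp only [List.length_nil, List.length_cons] at h <;> (try omega) <;>
    simp only [List.nil_append, List.cons_append, pvF] <;> rw [if_neg]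
  · rintro ⟨h1, h2, -⟩
    rw [h1] at h2
    cases h2
  · rintro ⟨-, -, h3, -, h5⟩
    exact h5 (by rw [h3])
  · rintro ⟨-, -, h3, h4, -⟩
    rw [h3] at h4
    exact absurd (congrArg Prod.snd h4) (by simp)

theorem Eqv.pv {U V : List (X × Bool)} (h : Eqv U V) : PV U = PV V := h _ adm_pvF

theorem S_one (W : List α) (f : α → ZMod 2) :
    S W (fun s => match s with | [p] => f p | _ => 0) = (W.map f).sum := by
  induction W with
  | nil => rfl
  | cons a W ih =>
    simp only [S, ih, List.map_cons, List.sum_cons]
    have : S W (fun s => match a :: s with | [p] => f p | _ => 0) = f a := by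
      clear ih
      induction W with
      | nil => rfl
      | cons b W ih =>
        simp only [S]
        rw [ih]
        simp [S_zero]
    rw [this]
    ring

theorem Eqv.sum {U V : List α} (h : Eqv U V) (f : α → ZMod 2) :
    (U.map f).sum = (V.map f).sum := by
  rw [← S_one, ← S_one]
  apply h
  intro s a t
  rcases s with _ | ⟨p, _ | ⟨q, s⟩⟩ <;> rfl

theorem om_comm' (U V : List (X × Bool)) :
    om U V = (V.map fun q => (U.map fun p => ov p q).sum).sum := by
  unfold om
  induction U with
  | nil => simp
  | cons a U ih => simp [ih, List.sum_map_add]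

theorem Eqv.om {U U' V V' : List (X × Bool)} (h : Eqv U U') (h' : Eqv V V') :
    om U V = om U' V' := by
  have h1 : K.om U V = K.om U' V := h.sum _
  rw [h1, om_comm', om_comm']
  exact h'.sum _

theorem om_append_left (U U' V : List (X × Bool)) : om (U ++ U') V = om U V + om U' V := by
  simp [om]

theorem om_append_right (U V V' : List (X × Bool)) : om U (V ++ V') = om U V + om U V' := by
  rw [om_comm', om_comm', om_comm']
  simp

theorem om_reverse_left (U V : List (X × Bool)) : om U.reverse V = om U V := by
  simp [om, List.map_reverse, List.sum_reverse]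

theorem om_reverse_right (U V : List (X × Bool)) : om U V.reverse = om U V := by
  rw [om_comm', om_comm']
  simp [List.map_reverse, List.sum_reverse]

theorem om_nil_left (V : List (X × Bool)) : om [] V = 0 := rfl

theorem om_nil_right (U : List (X × Bool)) : om U [] = 0 := by
  rw [om_comm']
  rfl

end Pool.Agent.Lib.MP_1f96ff_gt.K
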